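import Pool.Agent.Work.MP_1ce82a_an.Defs
import Pool.Agent.Work.MP_1ce82a_an.U.Rets
import Pool.Agent.Work.MP_1ce82a_an.J.Rec
import Pool.Agent.Work.MP_1ce82a_an.D.Defs
import Pool.Agent.Work.MP_1ce82a_an.A.Lsc
import Pool.Agent.Work.MP_1ce82a_an.J.JacT
import Mathlib

-- merged part: Pool.Agent.Work.MP_1ce82a_an.L.NGlue
section
/-! Gluing of local potentials on the plane.
PLAN. lc_of: choose a ball around x in which all hypotheses hold; for q in the ball follow the segment from q to x up to its first point in the closed set L (infimum of a closed set of parameters);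
before it g is locally constant, hence constant (IsPreconnected.constant or IsLocallyConstant on the interval), and g is continuous at the first point.
glue: a FiberBundleCore over the plane indexed by the plane, base sets the interiors of the sets where the chosen f i is a potential, fibre the reals with the discrete topology, change of coordinates
v + f i x - f j x or so (locally constant in x); its projection is a covering map (FiberBundle.isCoveringMap), lift the identity with IsCoveringMap.existsUnique_continuousMap_lifts.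
Alternatively glue by hand over rectangles (two open sets with connected intersection). -/

open Set Filter Topology

namespace Pool.Agent.Work.MP_1ce82a_an

theorem lc_of {L : Set E} (hL : IsClosed L) {g : E → ℝ} {x : E} (hx : x ∈ L)
    (h1 : ∀ᶠ q in 𝓝 x, ContinuousAt g q ∧ (q ∉ L → ∀ᶠ q' in 𝓝 q, g q' = g q))
    (h2 : ∀ᶠ q in 𝓝[L] x, g q = g x) : ∀ᶠ q in 𝓝 x, g q = g x := by
  obtain ⟨r, hr, h⟩ := Metric.eventually_nhds_iff_ball.1 (h1.and (eventually_nhdsWithin_iff.1 h2))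
  filter_upwards [Metric.ball_mem_nhds x hr] with q hq
  by_contra hne
  have k := (convex_ball x r).isPreconnected.subset_left_of_subset_union
    (u := interior {y | g y = g q}) (v := interior {y | g y ≠ g q}) isOpen_interior isOpen_interior
    (Set.disjoint_left.2 fun y a b => interior_subset b (interior_subset a :))
    (fun y hy => by
      by_cases e : g y = g q
      · refine Or.inl (mem_interior_iff_mem_nhds.2 ?_)
        filter_upwards [(h y hy).1.2 fun hl => hne (e ▸ (h y hy).2 hl)] with y' hy'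
        exact hy'.trans e
      · exact Or.inr (mem_interior_iff_mem_nhds.2 ((h y hy).1.1.eventually_ne e)))
    ⟨q, hq, mem_interior_iff_mem_nhds.2 ((h q hq).1.2 fun hl => hne ((h q hq).2 hl))⟩
  exact hne (interior_subset (k (Metric.mem_ball_self hr))).symm

theorem NGlue_aux {F : Type} [TopologicalSpace F] [DiscreteTopology F] (e : F ≃ ℝ)
    (U : E → Set E) (f : E → E → ℝ) (hU : ∀ i, IsOpen (U i)) (hm : ∀ i, i ∈ U i)
    (hc : ∀ i j, ∀ x ∈ U i, x ∈ U j → ∀ᶠ y in 𝓝 x, f i y - f j y = f i x - f j x) :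
    ∃ Θ : E → ℝ, ∀ x, ∃ c, ∀ᶠ y in 𝓝 x, Θ y = f x y + c := by
  let Z : FiberBundleCore E E F :=
    { baseSet := U
      isOpen_baseSet := hU
      indexAt := id
      mem_baseSet_at := hm
      coordChange := fun i j x v => e.symm (e v + (f i x - f j x))
      coordChange_self := fun i x _ v => by simp
      continuousOn_coordChange := fun i j p hp => by
        refine ContinuousAt.continuousWithinAt ?_
        refine (continuousAt_const (y := e.symm (e p.2 + (f i p.1 - f j p.1)))).congr ?_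
        filter_upwards [continuousAt_fst.eventually (hc i j p.1 hp.1.1 hp.1.2),
          continuousAt_snd.eventually ((isOpen_discrete {p.2}).mem_nhds rfl)] with q h1 h2
        rw [h1, show q.2 = p.2 from h2]
      coordChange_comp := fun i j k x _ v => by
        rw [Equiv.apply_symm_apply, add_assoc, sub_add_sub_cancel] }
  have cov : IsCoveringMap Z.proj :=
    IsFiberBundle.isCoveringMap fun x => ⟨Z.localTriv x, hm x⟩
  obtain ⟨s, ⟨-, hs⟩, -⟩ := cov.existsUnique_continuousMap_lifts (ContinuousMap.id E) 0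
    ⟨0, e.symm 0⟩ rfl
  have h1 : ∀ y, (s y).1 = y := congrFun hs
  refine ⟨fun y => e (s y).2 + f y y, fun x => ⟨e (Z.localTriv x (s x)).2, ?_⟩⟩
  have h2 : ContinuousAt (fun y => (Z.localTriv x (s y)).2) x :=
    continuousAt_snd.comp (((Z.localTriv x).continuousAt
      ((Z.mem_localTriv_source x _).2 ((h1 x).symm ▸ hm x))).comp s.continuous.continuousAt)
  filter_upwards [h2.eventually ((isOpen_discrete {(Z.localTriv x (s x)).2}).mem_nhds rfl)]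
    with y hy
  rw [← show (Z.localTriv x (s y)).2 = _ from hy]
  change _ = f x y + e (e.symm (e (s y).2 + (f (s y).1 (s y).1 - f x (s y).1)))
  rw [h1, Equiv.apply_symm_apply]
  ring

theorem glue {P : (E → ℝ) → E → Prop} (ha : ∀ x, ∃ f, P f x)
    (hb : ∀ f x, P f x → ∀ᶠ y in 𝓝 x, P f y)
    (hc : ∀ f g x, P f x → P g x → ∀ᶠ y in 𝓝 x, f y - g y = f x - g x)
    (hd : ∀ f g x c, P f x → (∀ᶠ y in 𝓝 x, g y = f y + c) → P g x) : ∃ Θ, ∀ x, P Θ x := by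
  choose f hf using ha
  obtain ⟨Θ, h⟩ := @NGlue_aux ℝ ⊥ (@DiscreteTopology.mk ℝ ⊥ rfl) (Equiv.refl ℝ)
    (fun i => {x | P (f i) x}) f (fun i => isOpen_iff_mem_nhds.2 fun x hx => hb _ x hx) hf
    fun i j x hi hj => hc _ _ x hi hj
  refine ⟨Θ, fun x => ?_⟩
  obtain ⟨c, k⟩ := h x
  exact hd _ _ x c (hf x) k

end Pool.Agent.Work.MP_1ce82a_an
end

-- merged part: Pool.Agent.Work.MP_1ce82a_an.L.NFlux
section
/-! The flux of the transverse frequency is a cohomology class. -/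

open Set Filter Topology MeasureTheory
open scoped ContDiff

namespace Pool.Agent.Work.MP_1ce82a_an

variable {Γ : Grp}

variable {L : Set E} {V : E → E} {ψ : E → ℝ → E} {b : BoxD} {T0 : ℝ} {R tt : ℝ → ℝ} {s : ℝ → Γ}

theorem lc_const {X : Type} [TopologicalSpace X] [PreconnectedSpace X] {k : X → ℝ}
    (hk : ∀ x, ∀ᶠ y in 𝓝 x, k y = k x) (x y : X) : k x = k y :=
  ((IsLocallyConstant.iff_eventually_eq k).2 hk).apply_eq_of_preconnectedSpace x y

/-- The potential read at the crossing near time `T`. -/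
noncomputable def PT (b : BoxD) (ψ : E → ℝ → E) (θ : ℝ → ℝ) (T : ℝ) (γ : Γ) (q : E) : ℝ :=
  θ (b.H (γ⁻¹ • ψ q T))

/-- Local potentials. -/
def LP (Γ : Grp) (b : BoxD) (L : Set E) (ψ : E → ℝ → E) (θ : ℝ → ℝ) (f : E → ℝ) (x : E) : Prop :=
  ∀ᶠ q in 𝓝 x, ContinuousAt f q ∧ (q ∉ L → ∀ᶠ q' in 𝓝 q, f q' = f q) ∧
    (q ∈ L → ∀ (T : ℝ) (γ : Γ), γ⁻¹ • ψ q T ∈ b.Q →
      ∀ᶠ q' in 𝓝[L] q, f q' - PT b ψ θ T γ q' = f q - PT b ψ θ T γ q)

theorem cr_two (h : Lam Γ L V ψ) (hb : IsBox Γ L V ψ b) {q : E} (hq : q ∈ L) {T1 T2 : ℝ}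
    {γ1 γ2 : Γ} (h1 : γ1⁻¹ • ψ q T1 ∈ b.Q) (h2 : γ2⁻¹ • ψ q T2 ∈ b.Q) :
    b.Cr Γ L ψ (b.H (γ1⁻¹ • ψ q T1))
      ((b.τ (γ2⁻¹ • ψ q T2) + T2) - (b.τ (γ1⁻¹ • ψ q T1) + T1)) (γ1⁻¹ * γ2)
      (b.H (γ2⁻¹ • ψ q T2)) := by
  obtain ⟨a1, a2, -⟩ := hb.cr_of h hq h1
  obtain ⟨b1, b2, -⟩ := hb.cr_of h hq h2
  refine ⟨a1, b1, ?_⟩
  have e : b.pt (b.H (γ1⁻¹ • ψ q T1)) = γ1⁻¹ • ψ q (b.τ (γ1⁻¹ • ψ q T1) + T1) := by
    rw [a2, inv_smul_smul]
  rw [e, h.eqv _ _ (h.mem q hq _), h.add q hq, sub_add_cancel, b2, mul_smul]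

theorem visit (h : Lam Γ L V ψ) (hb : IsBox Γ L V ψ b) {q : E} (hq : q ∈ L) :
    ∃ (T : ℝ) (γ : Γ), γ⁻¹ • ψ q T ∈ b.Q := by
  obtain ⟨ε, hε, hball⟩ := Metric.isOpen_iff.1 (IsBox.isOpen_Q b) b.x0
    (by rw [← b.pt_x0]; exact hb.pt_mem ⟨hb.mid.1, hb.mid.2, by rw [b.pt_x0]; exact hb.pre.mem⟩)
  obtain ⟨T1, hT1⟩ := h.synd b.x0 hb.pre.mem ε hε
  obtain ⟨u, -, γ, hγ⟩ := hT1 q hq
  exact ⟨u, γ⁻¹, by rw [inv_inv]; exact hball (mem_ball_iff_norm.2 hγ)⟩

theorem compat (hS : Surf Γ) (h : Lam Γ L V ψ) (hb : IsBox Γ L V ψ b)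
    (hc : CrBase (b.Y L) (b.Cr Γ L ψ) b.t1 T0) (hR : Ret (b.Y L) (b.Cr Γ L ψ) T0 R tt s)
    {θ : ℝ → ℝ} (h3 : ∀ y ∈ b.Y L, ∀ᶠ y' in 𝓝[b.Y L] y, θ (R y') - θ y' = θ (R y) - θ y)
    {q : E} (hq : q ∈ L) {T1 T2 : ℝ} {γ1 γ2 : Γ} (h1 : γ1⁻¹ • ψ q T1 ∈ b.Q)
    (h2 : γ2⁻¹ • ψ q T2 ∈ b.Q) :
    ∀ᶠ q' in 𝓝[L] q, PT b ψ θ T2 γ2 q' - PT b ψ θ T1 γ1 q' =
      PT b ψ θ T2 γ2 q - PT b ψ θ T1 γ1 q := by
  have k1 : Tendsto (fun q' => γ1⁻¹ • ψ q' T1) (𝓝[L] q) (𝓝 (γ1⁻¹ • ψ q T1)) :=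
    ((hS.cont γ1⁻¹).tendsto _).comp (h.contWithin hq T1)
  have k2 : Tendsto (fun q' => γ2⁻¹ • ψ q' T2) (𝓝[L] q) (𝓝 (γ2⁻¹ • ψ q T2)) :=
    ((hS.cont γ2⁻¹).tendsto _).comp (h.contWithin hq T2)
  refine hol hc hR h3 (y1 := fun q' => b.H (γ1⁻¹ • ψ q' T1)) (y2 := fun q' => b.H (γ2⁻¹ • ψ q' T2))
    (S := fun q' => (b.τ (γ2⁻¹ • ψ q' T2) + T2) - (b.τ (γ1⁻¹ • ψ q' T1) + T1))
    (cr_two h hb hq h1 h2) ?_ ((hb.hgt.cH.tendsto _).comp k1) ((hb.hgt.cH.tendsto _).comp k2)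
    ((((hb.hgt.cτ.tendsto _).comp k2).add_const T2).sub
      (((hb.hgt.cτ.tendsto _).comp k1).add_const T1))
  filter_upwards [self_mem_nhdsWithin, k1.eventually ((IsBox.isOpen_Q b).mem_nhds h1),
    k2.eventually ((IsBox.isOpen_Q b).mem_nhds h2)] with q' a1 a2 a3
  exact ⟨_, cr_two h hb a1 a2 a3⟩

theorem lp_mk (hS : Surf Γ) (h : Lam Γ L V ψ) (hb : IsBox Γ L V ψ b)
    (hc : CrBase (b.Y L) (b.Cr Γ L ψ) b.t1 T0) (hR : Ret (b.Y L) (b.Cr Γ L ψ) T0 R tt s)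
    {θ : ℝ → ℝ} (h1 : Continuous θ) (h2 : ∀ y, y ∉ b.Y L → ∀ᶠ y' in 𝓝 y, θ y' = θ y)
    (h3 : ∀ y ∈ b.Y L, ∀ᶠ y' in 𝓝[b.Y L] y, θ (R y') - θ y' = θ (R y) - θ y)
    {Φ : E → E} {T : ℝ} {γ : Γ} (hΦ : Continuous Φ) {x : E}
    (hx : ∀ᶠ q in 𝓝 x, (q ∈ L → Φ q = ψ q T) ∧ (Φ q ∈ L → q ∈ L) ∧ γ⁻¹ • Φ q ∈ b.Q) :
    LP Γ b L ψ θ (fun q => θ (b.H (γ⁻¹ • Φ q))) x := by
  have c1 : Continuous fun q => b.H (γ⁻¹ • Φ q) := hb.hgt.cH.comp ((hS.cont γ⁻¹).comp hΦ)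
  filter_upwards [eventually_eventually_nhds.2 hx] with q hq
  obtain ⟨a1, a2, a3⟩ := hq.self_of_nhds
  refine ⟨(h1.comp c1).continuousAt, fun hn => ?_, fun hL T' γ' hQ => ?_⟩
  · refine (c1.tendsto q).eventually (h2 _ fun hY => hn (a2 ?_))
    have := h.smul γ _ (hb.off a3 hY)
    rwa [smul_inv_smul] at this
  · have a4 : γ⁻¹ • ψ q T ∈ b.Q := by rwa [← a1 hL]
    filter_upwards [compat hS h hb hc hR h3 hL hQ a4, self_mem_nhdsWithin,
      nhdsWithin_le_nhds hq] with q' e1 e2 e3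
    have e4 : Φ q' = ψ q' T := e3.1 e2
    rw [e4, a1 hL]
    exact e1

theorem lp_exists (hS : Surf Γ) (h : Lam Γ L V ψ) (hb : IsBox Γ L V ψ b)
    (hc : CrBase (b.Y L) (b.Cr Γ L ψ) b.t1 T0) (hR : Ret (b.Y L) (b.Cr Γ L ψ) T0 R tt s)
    {θ : ℝ → ℝ} (h1 : Continuous θ) (h2 : ∀ y, y ∉ b.Y L → ∀ᶠ y' in 𝓝 y, θ y' = θ y)
    (h3 : ∀ y ∈ b.Y L, ∀ᶠ y' in 𝓝[b.Y L] y, θ (R y') - θ y' = θ (R y) - θ y) (x : E) :
    ∃ f, LP Γ b L ψ θ f x := by
  by_cases hx : x ∈ L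
  · obtain ⟨T, γ, hQ⟩ := visit h hb hx
    obtain ⟨Φ, hΦ, hev⟩ := h.trans hx T
    refine ⟨_, lp_mk hS h hb hc hR h1 h2 h3 (T := T) (γ := γ) hΦ ?_⟩
    have e : Φ x = ψ x T := hev.self_of_nhds.1 hx
    have c : Continuous fun q => γ⁻¹ • Φ q := (hS.cont γ⁻¹).comp hΦ
    filter_upwards [hev, (c.tendsto x).eventually ((IsBox.isOpen_Q b).mem_nhds (by rwa [e]))]
      with q a1 a2
    exact ⟨a1.1, a1.2, a2⟩
  · refine ⟨fun _ => 0, ?_⟩
    filter_upwards [h.closed.isOpen_compl.mem_nhds hx] with q hq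
    exact ⟨continuousAt_const, fun _ => Eventually.of_forall fun _ => rfl,
      fun a => absurd a hq⟩

theorem lp_diff (h : Lam Γ L V ψ) (hb : IsBox Γ L V ψ b) {θ : ℝ → ℝ} {f g : E → ℝ} {x : E}
    (hf : LP Γ b L ψ θ f x) (hg : LP Γ b L ψ θ g x) : ∀ᶠ y in 𝓝 x, f y - g y = f x - g x := by
  by_cases hx : x ∈ L
  · refine lc_of (g := fun y => f y - g y) h.closed hx ?_ ?_
    · filter_upwards [hf, hg] with q a1 a2
      refine ⟨a1.1.sub a2.1, fun hn => ?_⟩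
      filter_upwards [a1.2.1 hn, a2.2.1 hn] with q' e1 e2
      rw [e1, e2]
    · obtain ⟨T, γ, hQ⟩ := visit h hb hx
      filter_upwards [hf.self_of_nhds.2.2 hx T γ hQ, hg.self_of_nhds.2.2 hx T γ hQ] with q e1 e2
      linarith only [e1, e2]
  · filter_upwards [hf.self_of_nhds.2.1 hx, hg.self_of_nhds.2.1 hx] with q e1 e2
    rw [e1, e2]

theorem lp_congr {θ : ℝ → ℝ} {f g : E → ℝ} {x : E} {c : ℝ} (hf : LP Γ b L ψ θ f x)
    (hg : ∀ᶠ y in 𝓝 x, g y = f y + c) : LP Γ b L ψ θ g x := by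
  filter_upwards [hf, eventually_eventually_nhds.2 hg] with q a1 a2
  have e : g q = f q + c := a2.self_of_nhds
  refine ⟨(a1.1.add_const c).congr (EventuallyEq.symm a2), fun hn => ?_, fun hL T γ hQ => ?_⟩
  · filter_upwards [a1.2.1 hn, a2] with q' e1 e2
    rw [e2, e1, e]
  · filter_upwards [a1.2.2 hL T γ hQ, nhdsWithin_le_nhds a2] with q' e1 e2
    have e3 : g q' = f q' + c := e2
    linarith only [e, e1, e2]

theorem lp_smul (hS : Surf Γ) (h : Lam Γ L V ψ) {θ : ℝ → ℝ} {f : E → ℝ} (γ : Γ) {x : E}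
    (hf : LP Γ b L ψ θ f (γ • x)) : LP Γ b L ψ θ (fun q => f (γ • q)) x := by
  filter_upwards [((hS.cont γ).tendsto x).eventually hf] with q hq
  obtain ⟨a1, a2, a3⟩ := hq
  refine ⟨ContinuousAt.comp (f := fun q : E => γ • q) a1 (hS.cont γ).continuousAt, fun hn => ?_,
    fun hL T g hQ => ?_⟩
  · refine ((hS.cont γ).tendsto q).eventually (a2 fun a => hn ?_)
    have := h.smul γ⁻¹ _ a
    rwa [inv_smul_smul] at this
  · have e : ∀ p ∈ L, (γ * g)⁻¹ • ψ (γ • p) T = g⁻¹ • ψ p T := fun p hp => by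
      rw [h.eqv γ p hp, mul_inv_rev, mul_smul, inv_smul_smul]
    have k : Tendsto (fun p : E => γ • p) (𝓝[L] q) (𝓝[L] (γ • q)) :=
      tendsto_nhdsWithin_iff.2 ⟨((hS.cont γ).tendsto q).mono_left nhdsWithin_le_nhds,
        eventually_mem_nhdsWithin.mono fun p hp => h.smul γ p hp⟩
    filter_upwards [k.eventually (a3 (h.smul γ q hL) T (γ * g) (by rwa [e q hL])),
      self_mem_nhdsWithin] with q' e1 e2
    simp only [PT] at e1 ⊢
    rwa [e q' e2, e q hL] at e1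

theorem lp_leaf (hS : Surf Γ) (h : Lam Γ L V ψ) (hb : IsBox Γ L V ψ b)
    (hc : CrBase (b.Y L) (b.Cr Γ L ψ) b.t1 T0) (hR : Ret (b.Y L) (b.Cr Γ L ψ) T0 R tt s)
    {θ : ℝ → ℝ} (h3 : ∀ y ∈ b.Y L, ∀ᶠ y' in 𝓝[b.Y L] y, θ (R y') - θ y' = θ (R y) - θ y)
    {f : E → ℝ} {q : E} (hq : q ∈ L) {t : ℝ} (hf : LP Γ b L ψ θ f (ψ q t)) :
    ∀ᶠ u in 𝓝 t, f (ψ q u) = f (ψ q t) := by
  obtain ⟨T, γ, hQ⟩ := visit h hb (h.mem q hq t)
  have k : Tendsto (ψ q) (𝓝 t) (𝓝[L] (ψ q t)) :=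
    tendsto_nhdsWithin_iff.2 ⟨(h.cont hq).tendsto t, Eventually.of_forall fun u => h.mem q hq u⟩
  have a1 := k.eventually (hf.self_of_nhds.2.2 (h.mem q hq t) T γ hQ)
  rw [h.add q hq] at hQ
  have c : Continuous fun u => γ⁻¹ • ψ q (T + u) :=
    (hS.cont γ⁻¹).comp ((h.cont hq).comp (continuous_const.add continuous_id))
  have a2 := hol hc hR h3 (l := 𝓝 t) (y1 := fun _ => b.H (γ⁻¹ • ψ q (T + t)))
    (y2 := fun u => b.H (γ⁻¹ • ψ q (T + u)))
    (S := fun u => (b.τ (γ⁻¹ • ψ q (T + u)) + (T + u)) - (b.τ (γ⁻¹ • ψ q (T + t)) + (T + t)))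
    (cr_two h hb hq hQ hQ) (by
      filter_upwards [(c.tendsto t).eventually ((IsBox.isOpen_Q b).mem_nhds hQ)] with u hu
      exact ⟨_, cr_two h hb hq hQ hu⟩) tendsto_const_nhds ((hb.hgt.cH.comp c).tendsto t)
    ((((hb.hgt.cτ.comp c).add (continuous_const.add continuous_id)).tendsto t).sub_const _)
  filter_upwards [a1, a2] with u e1 e2
  simp only [PT, h.add q hq] at e1
  linarith only [e2, e1]

theorem exists_flux (hS : Surf Γ) (h : Lam Γ L V ψ) (hb : IsBox Γ L V ψ b)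
    (hc : CrBase (b.Y L) (b.Cr Γ L ψ) b.t1 T0) (hR : Ret (b.Y L) (b.Cr Γ L ψ) T0 R tt s)
    {θ : ℝ → ℝ} (h1 : Continuous θ) (h2 : ∀ y, y ∉ b.Y L → ∀ᶠ y' in 𝓝 y, θ y' = θ y)
    (h3 : ∀ y ∈ b.Y L, ∀ᶠ y' in 𝓝[b.Y L] y, θ (R y') - θ y' = θ (R y) - θ y) :
    ∃ η : H1 Γ, ∀ y T γ y', b.Cr Γ L ψ y T γ y' → η.1 γ = θ y - θ y' := by
  obtain ⟨Θ, hΘ⟩ := glue (P := LP Γ b L ψ θ) (lp_exists hS h hb hc hR h1 h2 h3)
    (fun f x hf => eventually_eventually_nhds.2 hf) (fun f g x hf hg => lp_diff h hb hf hg)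
    (fun f g x c hf hg => lp_congr hf hg)
  have eqv : ∀ (γ : Γ) (x : E), Θ (γ • x) - Θ x = Θ (γ • (0 : E)) - Θ 0 := fun γ x =>
    lc_const (k := fun x => Θ (γ • x) - Θ x)
      (fun x => lp_diff h hb (lp_smul hS h γ (hΘ (γ • x))) (hΘ x)) x 0
  have leaf : ∀ q ∈ L, ∀ T : ℝ, Θ (ψ q T) = Θ (ψ q 0) := fun q hq T =>
    lc_const (k := fun t => Θ (ψ q t)) (fun t => lp_leaf hS h hb hc hR h3 hq (hΘ _)) T 0
  have sec : ∀ y ∈ b.Y L, Θ (b.pt y) - θ y = Θ (b.pt b.bl) - θ b.bl := by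
    intro y hy
    have hlu : b.bl ≤ b.bu := hy.1.trans hy.2.1
    have cc : Continuous fun u : ℝ => b.pt (max b.bl (min u b.bu)) :=
      b.cont_pt.comp (continuous_const.max (continuous_id.min continuous_const))
    have := lc_const (k := fun u : ℝ => Θ (b.pt (max b.bl (min u b.bu))) -
      θ (b.H ((1 : Γ)⁻¹ • id (b.pt (max b.bl (min u b.bu)))))) (fun u => by
        have hQ : b.pt (max b.bl (min u b.bu)) ∈ b.Q := by
          refine ⟨?_, ?_, ?_⟩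
          · rw [b.X1_pt, sub_self, abs_zero]
            exact hb.w_pos
          · rw [b.X2_pt]
            linarith only [hb, le_max_left b.bl (min u b.bu), hb.ν_pos]
          · rw [b.X2_pt]
            linarith only [hlu, hb, max_le hlu (min_le_right u b.bu), hb.ν_pos]
        have l0 := lp_mk hS h hb hc hR h1 h2 h3 (Φ := id) (T := 0) (γ := 1) continuous_id
          (x := b.pt (max b.bl (min u b.bu))) (by
            filter_upwards [(IsBox.isOpen_Q b).mem_nhds hQ] with q hq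
            exact ⟨fun a => (h.zero q a).symm, fun a => a, by simpa using hq⟩)
        exact (cc.tendsto u).eventually (lp_diff h hb (hΘ _) l0)) y b.bl
    have e : ∀ u, b.H (b.pt u) = u := hb.hgt.sec
    simp only [inv_one, one_smul, id_eq, e] at this
    rwa [min_eq_left hy.2.1, max_eq_right hy.1, min_eq_left hlu, max_self] at this
  refine ⟨⟨fun γ => Θ (γ • (0 : E)) - Θ 0, fun γ δ => ?_⟩, fun y T γ y' hcr => ?_⟩
  · have := eqv γ (δ • (0 : E))
    simp only [mul_smul]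
    linarith only [this]
  · have a1 := leaf _ hcr.1.2.2 T
    rw [hcr.2.2, h.zero _ hcr.1.2.2] at a1
    have a2 := eqv γ (b.pt y')
    have a3 := sec y hcr.1
    have a4 := sec y' hcr.2.1
    show Θ (γ • (0 : E)) - Θ 0 = θ y - θ y'
    linarith only [a1, a2, a3, a4]

end Pool.Agent.Work.MP_1ce82a_an
end

-- merged part: Pool.Agent.Work.MP_1ce82a_an.L.NoLam
section
/-! Exclusion of aperiodic laminations (section 3 of the write-up). Owner: helper27. -/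

open Set Filter Topology MeasureTheory
open scoped ContDiff

namespace Pool.Agent.Work.MP_1ce82a_an

variable {Γ : Grp}

theorem ChQG.mono {Cv Cv' : Set (ℝ → E)} (hs : Cv' ⊆ Cv) {c1 : H1 Γ} {g : E → ℝ} {m : ℝ}
    (h : ChQG Cv c1 g m) : ChQG Cv' c1 g m := by
  intro r t0 ht0
  obtain ⟨C, s0, h1, h2, h3⟩ := h r t0 ht0
  exact ⟨C, s0, h1, h2, fun z1 a z2 b => h3 z1 (hs a) z2 (hs b)⟩

theorem box_false (hS : Surf Γ) {L : Set E} {V : E → E} {ψ : E → ℝ → E} (h : Lam Γ L V ψ)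
    {b : BoxD} (hb : IsBox Γ L V ψ b) (hm : CrMore (b.Y L) (b.Cr Γ L ψ))
    (h1 : ∀ c1 : H1 Γ, ∃ m, ChQG (ψ '' L) c1 (fun _ => 0) m)
    (h2 : ∀ B : Bx, (∃ m, ChQG (ψ '' L) (0 : H1 Γ) (per Γ B.f0) m) ∧
      ∃ m, ChQG (ψ '' L) (0 : H1 Γ) (per Γ B.f1) m) : False := by
  obtain ⟨T0, hc⟩ := hb.crBase hS h
  obtain ⟨R, tt, s, hR⟩ := hc.exists_ret
  obtain ⟨Ri, ti, si, hRi⟩ := hc.rev.exists_ret
  obtain ⟨g, κ, g1, g2, g3, g4, g5⟩ := exists_mono hS h hb hc hR h2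
  obtain ⟨A, hA⟩ := win_of_mono h hb hc hR g1 g2 g3 g4 g5
  obtain ⟨r, C, hRS⟩ := retSys_of hc hm hR hRi (IsBox.cpt h b) hb.ne hA
  obtain ⟨θ, t1, t2, t3, t4, t5⟩ := comb hRS
  obtain ⟨η, hη⟩ := exists_flux hS h hb hc hR t1 t3 t4
  obtain ⟨m, hm⟩ := h1 η
  exact flux_contra h hb hc hR t2 hη hm t5

theorem no_lam (hS : Surf Γ) (hO : Ori Γ) {Cv : Set (ℝ → E)} (hC : CurveSys Γ Cv)
    (hN : ∃ x : E, ∀ z ∈ Cv, z 0 ≠ x)
    (h1 : ∀ c1 : H1 Γ, ∃ m, ChQG Cv c1 (fun _ => 0) m)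
    (h2 : ∀ B : Bx, (∃ m, ChQG Cv (0 : H1 Γ) (per Γ B.f0) m) ∧
      ∃ m, ChQG Cv (0 : H1 Γ) (per Γ B.f1) m) : False := by
  obtain ⟨L, V, ψ, h, hψ⟩ := exists_lam hS hC (synd_ne hS hC fun B => (h2 B).1)
  have hsub : ψ '' L ⊆ Cv := by
    rintro _ ⟨x, hx, rfl⟩
    exact hψ x hx
  obtain ⟨b, hb⟩ := exists_box hS (hN.imp fun x hx hL => hx _ (hψ x hL) (h.zero x hL)) h
  exact box_false hS h hb ((hb.crMoreS hS h).toMore fun _ _ γ _ _ => (hO γ).chi)
    (fun c1 => (h1 c1).imp fun m hm => hm.mono hsub) fun B =>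
      ⟨(h2 B).1.imp fun m hm => hm.mono hsub, (h2 B).2.imp fun m hm => hm.mono hsub⟩

end Pool.Agent.Work.MP_1ce82a_an
end

-- merged part: Pool.Agent.Work.MP_1ce82a_an.T.Main
section
/-! A minimal aperiodic flow on the whole surface forces a commutative deck group. -/

open Set Filter Topology MeasureTheory
open scoped ContDiff

namespace Pool.Agent.Work.MP_1ce82a_an

variable {Γ : Grp}

theorem comm_of_minimal (hS : Surf Γ) (hO : Ori Γ) {V : E → E} {ψ : E → ℝ → E} (h : Lam Γ univ V ψ)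
    (a c : Γ) : a * c = c * a := by
  obtain ⟨b, hb⟩ := exists_tbox hS h
  obtain ⟨T0, hc⟩ := hb.crW h
  have hν := hb.ν_pos
  obtain ⟨ε, up, hu⟩ := exists_up hc (hb.crossI hS h)
    ((hb.crMoreS hS h).toMore fun _ _ γ _ _ => (hO γ).chi) hν
    (by linarith only [hν, hb, hb.mid.1, hb.mid.2])
  obtain ⟨Tm, hTm⟩ := hb.vis h (y := X2 b.d b.x0)
    ⟨by linarith only [hν, hb, hb.mid.1], by linarith only [hν, hb, hb.mid.2]⟩ hν
  have ex : ∀ x : E, ∃ (T : ℝ) (γ : Γ) (u : ℝ), ψ x T = γ • b.pt u ∧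
      u ∈ Icc (b.bl + 2 * b.ν) (b.bu - 2 * b.ν) := by
    intro x
    obtain ⟨T, γ, u, a1, a2, -⟩ := hTm x 0
    rw [abs_lt] at a2
    exact ⟨T, γ, u, a1, by linarith only [a2, hb, hb.mid.1, a2.1], by linarith only [a2, hb, hb.mid.2, a2.2]⟩
  choose Tx gx yx hx1 hx2 using ex
  have s01 : ∀ {y : ℝ}, y ∈ Icc (b.bl + 2 * b.ν) (b.bu - 2 * b.ν) →
      y ∈ Icc (b.bl + b.ν) (b.bu - b.ν) := fun hy => ⟨by linarith only [hν, hy, hy.1], by linarith only [hν, hy, hy.2]⟩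
  have s12 : ∀ {y : ℝ}, y ∈ Icc (b.bl + b.ν) (b.bu - b.ν) → y ∈ Icc b.bl b.bu :=
    fun hy => ⟨by linarith only [hν, hy, hy.1], by linarith only [hν, hy, hy.2]⟩
  have hr : Equivalence fun x y : E => ∃ T, ψ x T = y := by
    refine ⟨fun x => ⟨0, h.zero x trivial⟩, ?_, ?_⟩
    · rintro x _ ⟨T, rfl⟩
      exact ⟨-T, by rw [h.add x trivial, neg_add_cancel, h.zero x trivial]⟩
    · rintro x _ _ ⟨T, rfl⟩ ⟨S, rfl⟩
      exact ⟨S + T, (h.add x trivial T S).symm⟩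
  have K : ∀ (δ : ℝ), |δ| ≤ ε → ∀ (x : E) (T : ℝ) (γ : Γ) (y : ℝ),
      y ∈ Icc (b.bl + b.ν) (b.bu - b.ν) → ψ x T = γ • b.pt y →
      ∃ S, ψ (gx x • b.pt (up (yx x) δ)) S = γ • b.pt (up y δ) := by
    intro δ hδ x T γ y hy e
    have c1 : CrI b Γ ψ (yx x) (T - Tx x) ((gx x)⁻¹ * γ) y := by
      refine ⟨s12 (s01 (hx2 x)), s12 hy, ?_⟩
      have e1 : b.pt (yx x) = (gx x)⁻¹ • ψ x (Tx x) := by rw [hx1, inv_smul_smul]
      rw [e1, h.eqv _ _ trivial, h.add x trivial, sub_add_cancel, e, mul_smul]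
    obtain ⟨S, c2⟩ := hu.u2 _ _ _ _ δ c1 (s01 (hx2 x)) hy hδ
    exact ⟨S, by rw [h.eqv _ _ trivial, c2.2.2, mul_smul, smul_inv_smul]⟩
  refine comm_of_transl (0 : E) hr ?_ ?_ (ι := {δ : ℝ // |δ| ≤ ε})
    (k := fun δ x => gx x • b.pt (up (yx x) δ)) ?_ ?_ ?_ ?_ a c
  · rintro γ x _ ⟨T, rfl⟩
    exact ⟨T, h.eqv γ x trivial T⟩
  · rintro γ x ⟨T, e⟩
    rw [h.eqv γ x trivial] at e
    rcases lt_trichotomy T 0 with t | t | t
    · refine absurd ?_ (h.aper x trivial (-T) γ (by linarith only [t]))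
      have := h.add x trivial T (-T)
      rw [neg_add_cancel, h.zero x trivial] at this
      conv_lhs => rw [← e]
      rw [h.eqv γ _ trivial, this]
    · rw [t, h.zero x trivial] at e
      exact hS.free γ x e
    · exact absurd (eq_inv_smul_iff.2 e) (h.aper x trivial T γ⁻¹ t)
  · rintro δ x _ ⟨S, rfl⟩
    exact K δ δ.2 x (Tx (ψ x S) + S) _ _ (s01 (hx2 _)) (by rw [← h.add x trivial, hx1])
  · intro δ γ x
    have := K δ δ.2 (γ • x) (Tx x) (γ * gx x) _ (s01 (hx2 x))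
      (by rw [h.eqv γ x trivial, hx1, mul_smul])
    rwa [mul_smul] at this
  · intro i j x
    have k1 := K i i.2 _ 0 (gx x) _ (hu.u1 _ (hx2 x) j j.2) (h.zero _ trivial)
    have k2 := K j j.2 _ 0 (gx x) _ (hu.u1 _ (hx2 x) i i.2) (h.zero _ trivial)
    rw [hu.u3 _ (hx2 x) j i j.2 i.2] at k1
    exact hr.trans k1 (hr.symm k2)
  · intro x
    have e1 : (gx x)⁻¹ • ψ x (Tx x) = b.pt (yx x) := by rw [hx1, inv_smul_smul]
    have t1 : Tendsto (fun q => (gx x)⁻¹ • ψ q (Tx x)) (𝓝 x) (𝓝 (b.pt (yx x))) := by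
      have := h.contWithin (x := x) trivial (Tx x)
      rw [continuousWithinAt_univ] at this
      rw [← e1]
      exact ((hS.cont (gx x)⁻¹).tendsto _).comp this
    have t2 : Tendsto (fun q => b.H ((gx x)⁻¹ • ψ q (Tx x))) (𝓝 x) (𝓝 (yx x)) := by
      have := (hb.hgt.cH.tendsto _).comp t1
      rwa [show b.H (b.pt (yx x)) = yx x from hb.hgt.sec _] at this
    filter_upwards [t1.eventually ((IsBox.isOpen_Q b).mem_nhds (hb.pt_mem (s12 (s01 (hx2 x))))),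
      t2.eventually (hu.u4 _ (hx2 x))] with q hQ hq
    obtain ⟨a1, δ, a2, a3, a4⟩ := hq
    have a5 := (hb.cr_of h hQ).1
    refine ⟨⟨⟨δ, a2⟩, _, by rw [a5, a3]⟩, ⟨-δ, by rwa [abs_neg]⟩, ?_⟩
    have k1 := K (-δ) (by rwa [abs_neg]) q _ _ _ a1 a5
    rw [a4] at k1
    exact hr.trans ⟨_, hx1 x⟩ (hr.symm k1)

theorem lam_comm (hS : Surf Γ) (hO : Ori Γ) {Cv : Set (ℝ → E)} (hC : CurveSys Γ Cv)
    (h1 : ∀ c1 : H1 Γ, ∃ m, ChQG Cv c1 (fun _ => 0) m)
    (h2 : ∀ B : Bx, (∃ m, ChQG Cv (0 : H1 Γ) (per Γ B.f0) m) ∧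
      ∃ m, ChQG Cv (0 : H1 Γ) (per Γ B.f1) m) (a c : Γ) : a * c = c * a := by
  obtain ⟨L, V, ψ, h, hψ⟩ := exists_lam hS hC (synd_ne hS hC fun B => (h2 B).1)
  by_cases hN : ∃ x, x ∉ L
  · exfalso
    have hsub : ψ '' L ⊆ Cv := by
      rintro _ ⟨x, hx, rfl⟩
      exact hψ x hx
    obtain ⟨b, hb⟩ := exists_box hS hN h
    exact box_false hS h hb ((hb.crMoreS hS h).toMore fun _ _ γ _ _ => (hO γ).chi)
      (fun c1 => (h1 c1).imp fun m hm => hm.mono hsub) fun B =>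
        ⟨(h2 B).1.imp fun m hm => hm.mono hsub, (h2 B).2.imp fun m hm => hm.mono hsub⟩
  · have e : L = univ := Set.eq_univ_of_forall fun x => not_not.1 fun hx => hN ⟨x, hx⟩
    subst e
    exact comm_of_minimal hS hO h a c

end Pool.Agent.Work.MP_1ce82a_an
end

-- merged part: Pool.Agent.Work.MP_1ce82a_an.U.Theta
section
/-! The first integral of a minimal flow on the whole surface.

PLAN. `θ` from `exists_theta` (as in the first lines of `comm_of_minimal`). Local potentials: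
`P f x` means that for some `T γ k`, `γ⁻¹ • ψ x T ∈ b.Q`, `b.H (γ⁻¹ • ψ x T)` lies in
`Ioo (b.bl + b.ν) (b.bu - b.ν)` and `∀ᶠ y in 𝓝 x, f y = θ (b.H (γ⁻¹ • ψ y T)) + k`. Use `glue` of
`L/NGlue` (model: `L/NFlux`). Existence: `TBox.vis` at the height of `x0`, `Hgt.sec`. Two data
`(T1, γ1)`, `(T2, γ2)` at `x`: by `TBox.cr_of` every `y` near `x` gives a crossing `CrI` between the
two heights with deck `γ1⁻¹ * γ2` and a time which depends continuously on `y`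
(`Lam.contWithin`, `Hgt.cτ`, `Hgt.cH`); exchange the data if the time at `x` is negative; `HolInv`
shows that the difference of the potentials is constant near `x`. `eqv`: `fun y => Θ (γ • y)` is
again a potential, so `Θ (γ • y) - Θ y` is locally constant (`lc_const`), and defines `η`. `flow`:
`t ↦ Θ (ψ x t)` is locally constant (two crossings with the same deck and close times are equal,
`TBox.sep`, or `TW_two`). `loc`: `θ` is injective, so the heights agree and both points flow to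
`γ • b.pt H`. Last claim: `y ↦ Θ (b.pt y) - θ y` is locally constant on the interval (data `T = 0`,
`γ = 1`), `IsPreconnected.constant` type lemma. About 300 lines. -/

set_option linter.unusedVariables false

open Set Filter Topology MeasureTheory
open scoped ContDiff

namespace Pool.Agent.Work.MP_1ce82a_an.U

variable {Γ : Grp}

theorem Theta_hol {G : Type} [Group G] {Cr : ℝ → ℝ → G → ℝ → Prop} {t0 T0 bl bu ν : ℝ}
    {θ : ℝ → ℝ} (hc : CrW (Icc bl bu) Cr t0 T0) (hi : HolInv bl bu Cr t0 θ) (hν : 0 < ν)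
    {α : Type} {l : Filter α} {y1 y2 S : α → ℝ} {a1 a2 S0 : ℝ} {γ : G}
    (m1 : a1 ∈ Ioo (bl + ν) (bu - ν)) (m2 : a2 ∈ Ioo (bl + ν) (bu - ν)) (c0 : Cr a1 S0 γ a2)
    (c : ∀ᶠ i in l, Cr (y1 i) (S i) γ (y2 i)) (t1 : Tendsto y1 l (𝓝 a1))
    (t2 : Tendsto y2 l (𝓝 a2)) (tS : Tendsto S l (𝓝 S0)) :
    ∀ᶠ i in l, θ (y2 i) - θ (y1 i) = θ a2 - θ a1 := by
  have ht : 0 < t0 / 2 := half_pos hc.t0_pos
  have eS : ∀ᶠ i in l, |S i - S0| ≤ t0 / 2 := by
    filter_upwards [tS.eventually (Metric.closedBall_mem_nhds S0 ht)] with i hi'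
    rwa [Real.dist_eq] at hi'
  rcases le_total 0 S0 with a | a
  · obtain ⟨ρ, hρ, H⟩ := hi S0 ν hν
    filter_upwards [c, eS, t1.eventually (Metric.closedBall_mem_nhds a1 hρ)] with i k1 k2 k3
    rw [Real.dist_eq] at k3
    have := H _ _ _ _ _ _ _ c0 k1 a le_rfl (Ioo_subset_Icc_self m1) (Ioo_subset_Icc_self m2) k3 k2
    linarith only [this]
  · obtain ⟨ρ, hρ, H⟩ := hi (-S0) ν hν
    filter_upwards [c, eS, t2.eventually (Metric.closedBall_mem_nhds a2 hρ)] with i k1 k2 k3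
    rw [Real.dist_eq] at k3
    have := H _ _ _ _ _ _ _ (hc.symm _ _ _ _ c0) (hc.symm _ _ _ _ k1) (by linarith only [a]) le_rfl
      (Ioo_subset_Icc_self m2) (Ioo_subset_Icc_self m1) k3
      (by rw [← abs_neg, neg_sub', neg_neg, neg_neg]; exact k2)
    linarith only [this]

/-- The orbit of `x` is in a translate of the box at time `T`, at a middle height. -/
def Theta_D (b : BoxD) (ψ : E → ℝ → E) (T : ℝ) (γ : Γ) (x : E) : Prop :=
  γ⁻¹ • ψ x T ∈ b.Q ∧ b.H (γ⁻¹ • ψ x T) ∈ Ioo (b.bl + b.ν) (b.bu - b.ν)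

/-- Local potentials. -/
def Theta_P (Γ : Grp) (b : BoxD) (ψ : E → ℝ → E) (θ : ℝ → ℝ) (f : E → ℝ) (x : E) : Prop :=
  ∃ (T : ℝ) (γ : Γ) (k : ℝ), Theta_D b ψ T γ x ∧ ∀ᶠ y in 𝓝 x, f y = θ (b.H (γ⁻¹ • ψ y T)) + k

section

variable {V : E → E} {ψ : E → ℝ → E} {b : BoxD}

theorem Theta_cont (hS : Surf Γ) (h : Lam Γ univ V ψ) (T : ℝ) (γ : Γ) :
    Continuous fun x : E => γ⁻¹ • ψ x T := by
  refine (hS.cont γ⁻¹).comp (continuous_iff_continuousAt.2 fun x => ?_)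
  have := h.contWithin (x := x) trivial T
  rwa [continuousWithinAt_univ] at this

theorem Theta_ev (hb : TBox Γ V ψ b) {α : Type} {l : Filter α} {p : α → E} {p0 : E}
    (hp : Tendsto p l (𝓝 p0)) (h1 : p0 ∈ b.Q) (h2 : b.H p0 ∈ Ioo (b.bl + b.ν) (b.bu - b.ν)) :
    ∀ᶠ i in l, p i ∈ b.Q ∧ b.H (p i) ∈ Ioo (b.bl + b.ν) (b.bu - b.ν) :=
  (hp.eventually ((IsBox.isOpen_Q b).mem_nhds h1)).and
    (((hb.hgt.cH.tendsto _).comp hp).eventually (isOpen_Ioo.mem_nhds h2))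

theorem Theta_Dev (hS : Surf Γ) (h : Lam Γ univ V ψ) (hb : TBox Γ V ψ b) {T : ℝ} {γ : Γ} {x : E}
    (hd : Theta_D b ψ T γ x) : ∀ᶠ y in 𝓝 x, Theta_D b ψ T γ y :=
  Theta_ev hb ((Theta_cont hS h T γ).tendsto x) hd.1 hd.2

theorem Theta_sub (hb : TBox Γ V ψ b) {y : ℝ} (hy : y ∈ Ioo (b.bl + b.ν) (b.bu - b.ν)) :
    y ∈ Ioo b.bl b.bu :=
  ⟨by linarith only [hy, hb, hy.1, hb.ν_pos], by linarith only [hy, hb, hy.2, hb.ν_pos]⟩

theorem Theta_two (h : Lam Γ univ V ψ) (hb : TBox Γ V ψ b) {q : E} {T1 T2 : ℝ} {γ1 γ2 : Γ}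
    (h1 : Theta_D b ψ T1 γ1 q) (h2 : Theta_D b ψ T2 γ2 q) :
    CrI b Γ ψ (b.H (γ1⁻¹ • ψ q T1))
      ((b.τ (γ2⁻¹ • ψ q T2) + T2) - (b.τ (γ1⁻¹ • ψ q T1) + T1)) (γ1⁻¹ * γ2)
      (b.H (γ2⁻¹ • ψ q T2)) := by
  obtain ⟨a2, -⟩ := hb.cr_of h h1.1
  obtain ⟨b2, -⟩ := hb.cr_of h h2.1
  refine ⟨Ioo_subset_Icc_self (Theta_sub hb h1.2), Ioo_subset_Icc_self (Theta_sub hb h2.2), ?_⟩
  have e : b.pt (b.H (γ1⁻¹ • ψ q T1)) = γ1⁻¹ • ψ q (b.τ (γ1⁻¹ • ψ q T1) + T1) := by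
    rw [a2, inv_smul_smul]
  rw [e, h.eqv _ _ trivial, h.add q trivial, sub_add_cancel, b2, mul_smul]

theorem Theta_diff (hS : Surf Γ) (h : Lam Γ univ V ψ) (hb : TBox Γ V ψ b) {T0 : ℝ} {θ : ℝ → ℝ}
    (hc : CrW (Icc b.bl b.bu) (CrI b Γ ψ) b.t1 T0) (hi : HolInv b.bl b.bu (CrI b Γ ψ) b.t1 θ)
    {f g : E → ℝ} {x : E} (hf : Theta_P Γ b ψ θ f x) (hg : Theta_P Γ b ψ θ g x) :
    ∀ᶠ y in 𝓝 x, f y - g y = f x - g x := by
  obtain ⟨T2, γ2, k2, d2, e2⟩ := hf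
  obtain ⟨T1, γ1, k1, d1, e1⟩ := hg
  have c1 := (Theta_cont hS h T1 γ1).tendsto x
  have c2 := (Theta_cont hS h T2 γ2).tendsto x
  have := Theta_hol hc hi hb.ν_pos (l := 𝓝 x) (y1 := fun q => b.H (γ1⁻¹ • ψ q T1))
    (y2 := fun q => b.H (γ2⁻¹ • ψ q T2))
    (S := fun q => (b.τ (γ2⁻¹ • ψ q T2) + T2) - (b.τ (γ1⁻¹ • ψ q T1) + T1)) d1.2 d2.2
    (Theta_two h hb d1 d2)
    (((Theta_Dev hS h hb d1).and (Theta_Dev hS h hb d2)).mono fun q hq =>
      Theta_two h hb hq.1 hq.2)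
    ((hb.hgt.cH.tendsto _).comp c1) ((hb.hgt.cH.tendsto _).comp c2)
    ((((hb.hgt.cτ.tendsto _).comp c2).add_const T2).sub
      (((hb.hgt.cτ.tendsto _).comp c1).add_const T1))
  have f1 := e1.self_of_nhds
  have f2 := e2.self_of_nhds
  filter_upwards [this, e1, e2] with y a1 a2 a3
  linarith only [f1, f2, a1, a2, a3]

theorem Theta_ex (h : Lam Γ univ V ψ) (hb : TBox Γ V ψ b) (θ : ℝ → ℝ) (x : E) :
    ∃ f, Theta_P Γ b ψ θ f x := by
  have hν := hb.ν_pos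
  obtain ⟨Tm, hTm⟩ := hb.vis h (y := X2 b.d b.x0)
    ⟨by linarith only [hν, hb, hb.mid.1], by linarith only [hν, hb, hb.mid.2]⟩ hν
  obtain ⟨T, γ, u, a1, a2, -⟩ := hTm x 0
  rw [abs_lt] at a2
  have e : γ⁻¹ • ψ x T = b.pt u := by rw [a1, inv_smul_smul]
  refine ⟨fun y => θ (b.H (γ⁻¹ • ψ y T)), T, γ, 0, ⟨?_, ?_⟩,
    Eventually.of_forall fun y => (add_zero _).symm⟩
  · rw [e]
    exact hb.pt_mem ⟨by linarith only [hν, a2, hb, hb.mid.1, a2.1], by linarith only [hν, a2, hb, hb.mid.2, a2.2]⟩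
  · rw [e, show b.H (b.pt u) = u from hb.hgt.sec _]
    exact ⟨by linarith only [hν, a2, hb, hb.mid.1, a2.1], by linarith only [hν, a2, hb, hb.mid.2, a2.2]⟩

theorem Theta_smul (hS : Surf Γ) (h : Lam Γ univ V ψ) {θ : ℝ → ℝ} {f : E → ℝ} (γ : Γ) {x : E}
    (hf : Theta_P Γ b ψ θ f (γ • x)) : Theta_P Γ b ψ θ (fun q => f (γ • q)) x := by
  obtain ⟨T, g, k, d, e⟩ := hf
  have e1 : ∀ p : E, (γ⁻¹ * g)⁻¹ • ψ p T = g⁻¹ • ψ (γ • p) T := fun p => by
    rw [h.eqv γ p trivial, mul_inv_rev, inv_inv, mul_smul]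
  refine ⟨T, γ⁻¹ * g, k, ?_, ?_⟩
  · unfold Theta_D
    rw [e1]
    exact d
  · filter_upwards [((hS.cont γ).tendsto x).eventually e] with q hq
    rw [e1]
    exact hq

theorem Theta_leaf (hS : Surf Γ) (h : Lam Γ univ V ψ) (hb : TBox Γ V ψ b) {T0 : ℝ} {θ : ℝ → ℝ}
    (hc : CrW (Icc b.bl b.bu) (CrI b Γ ψ) b.t1 T0) (hi : HolInv b.bl b.bu (CrI b Γ ψ) b.t1 θ)
    {f : E → ℝ} {q : E} {t : ℝ} (hf : Theta_P Γ b ψ θ f (ψ q t)) :
    ∀ᶠ u in 𝓝 t, f (ψ q u) = f (ψ q t) := by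
  obtain ⟨T, γ, k, d, e⟩ := hf
  have cq : Continuous (ψ q) := h.cont trivial
  have a1 := (cq.tendsto t).eventually e
  have a0 := e.self_of_nhds
  have d0 : Theta_D b ψ (T + t) γ q := by
    unfold Theta_D at d ⊢
    rwa [h.add q trivial] at d
  have c : Continuous fun u => γ⁻¹ • ψ q (T + u) :=
    (hS.cont γ⁻¹).comp (cq.comp (continuous_const.add continuous_id))
  have a2 := Theta_hol hc hi hb.ν_pos (l := 𝓝 t) (y1 := fun _ => b.H (γ⁻¹ • ψ q (T + t)))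
    (y2 := fun u => b.H (γ⁻¹ • ψ q (T + u)))
    (S := fun u => (b.τ (γ⁻¹ • ψ q (T + u)) + (T + u)) - (b.τ (γ⁻¹ • ψ q (T + t)) + (T + t)))
    d0.2 d0.2 (Theta_two h hb d0 d0)
    ((Theta_ev hb (c.tendsto t) d0.1 d0.2).mono fun u hu => Theta_two h hb d0 hu)
    tendsto_const_nhds ((hb.hgt.cH.comp c).tendsto t)
    ((((hb.hgt.cτ.comp c).add (continuous_const.add continuous_id)).tendsto t).sub_const _)
  filter_upwards [a1, a2] with u e1 e2
  rw [h.add q trivial] at e1 a0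
  linarith only [a0, e1, e2]

end

theorem exists_integ (hS : Surf Γ) (hO : Ori Γ) {V : E → E} {ψ : E → ℝ → E}
    (h : Lam Γ univ V ψ) {b : BoxD} (hb : TBox Γ V ψ b) :
    ∃ (η : H1 Γ) (Θ : E → ℝ), Integ ψ η Θ ∧
      InjOn (fun y => Θ (b.pt y)) (Ioo (b.bl + b.ν) (b.bu - b.ν)) := by
  obtain ⟨T0, hc⟩ := hb.crW h
  have hν := hb.ν_pos
  obtain ⟨θ, c1, c2, hi⟩ := exists_theta hc (hb.crossI hS h)
    ((hb.crMoreS hS h).toMore fun _ _ γ _ _ => (hO γ).chi) (by linarith only [hν, hb, hb.mid.1, hb.mid.2])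
  obtain ⟨Θ, hΘ⟩ := glue (P := Theta_P Γ b ψ θ) (Theta_ex h hb θ)
    (fun f x hf => by
      obtain ⟨T, γ, k, d, e⟩ := hf
      filter_upwards [Theta_Dev hS h hb d, eventually_eventually_nhds.2 e] with y a1 a2
      exact ⟨T, γ, k, a1, a2⟩)
    (fun f g x hf hg => Theta_diff hS h hb hc hi hf hg)
    (fun f g x c hf hg => by
      obtain ⟨T, γ, k, d, e⟩ := hf
      refine ⟨T, γ, k + c, d, ?_⟩
      filter_upwards [e, hg] with y a1 a2
      rw [a2, a1, add_assoc])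
  have eqv : ∀ (γ : Γ) (x : E), Θ (γ • x) - Θ x = Θ (γ • (0 : E)) - Θ 0 := fun γ x =>
    lc_const (k := fun x => Θ (γ • x) - Θ x)
      (fun x => Theta_diff hS h hb hc hi (Theta_smul hS h γ (hΘ (γ • x))) (hΘ x)) x 0
  have inj : InjOn θ (Icc b.bl b.bu) := c2.injOn
  refine ⟨⟨fun γ => Θ (γ • (0 : E)) - Θ 0, fun γ δ => ?_⟩, Θ, ⟨?_, fun γ x => ?_, fun x t => ?_,
    fun p => ?_⟩, ?_⟩
  · have := eqv γ (δ • (0 : E))
    simp only [mul_smul]
    linarith only [this]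
  · refine continuous_iff_continuousAt.2 fun x => ?_
    obtain ⟨T, γ, k, d, e⟩ := hΘ x
    have a1 : ContinuousAt θ (b.H (γ⁻¹ • ψ x T)) :=
      c1.continuousAt (isOpen_Ioo.mem_nhds (Theta_sub hb d.2))
    have a2 : ContinuousAt (fun y => θ (b.H (γ⁻¹ • ψ y T))) x :=
      ContinuousAt.comp (f := fun y => b.H (γ⁻¹ • ψ y T)) a1
        (hb.hgt.cH.comp (Theta_cont hS h T γ)).continuousAt
    exact (a2.add_const k).congr (EventuallyEq.symm e)
  · have := eqv γ x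
    show Θ (γ • x) = Θ x + (Θ (γ • (0 : E)) - Θ 0)
    linarith only [this]
  · have := lc_const (k := fun t => Θ (ψ x t)) (fun t => Theta_leaf hS h hb hc hi (hΘ _)) t 0
    rwa [h.zero x trivial] at this
  · obtain ⟨T, γ, k, d, e⟩ := hΘ p
    have a1 := (Theta_Dev hS h hb d).and e
    filter_upwards [(continuous_fst.tendsto (p, p)).eventually a1,
      (continuous_snd.tendsto (p, p)).eventually a1] with q b1 b2 hq
    rw [b1.2, b2.2, add_left_inj] at hq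
    have e1 := inj (Ioo_subset_Icc_self (Theta_sub hb b1.1.2))
      (Ioo_subset_Icc_self (Theta_sub hb b2.1.2)) hq
    have e2 := (hb.cr_of h b1.1.1).1
    have e3 := (hb.cr_of h b2.1.1).1
    rw [e1, ← e3] at e2
    refine ⟨-(b.τ (γ⁻¹ • ψ q.2 T) + T) + (b.τ (γ⁻¹ • ψ q.1 T) + T), ?_⟩
    rw [← h.add q.1 trivial, e2, h.add q.2 trivial, neg_add_cancel, h.zero _ trivial]
  · intro y hy y' hy' e
    haveI : PreconnectedSpace (Ioo (b.bl + b.ν) (b.bu - b.ν)) :=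
      Subtype.preconnectedSpace isPreconnected_Ioo
    have es : ∀ u, b.H ((1 : Γ)⁻¹ • ψ (b.pt u) 0) = u := fun u => by
      rw [inv_one, one_smul, h.zero _ trivial]
      exact hb.hgt.sec u
    have cc : Continuous fun u : Ioo (b.bl + b.ν) (b.bu - b.ν) => b.pt u :=
      b.cont_pt.comp continuous_subtype_val
    have := lc_const (k := fun u : Ioo (b.bl + b.ν) (b.bu - b.ν) =>
      Θ (b.pt u) - θ (b.H ((1 : Γ)⁻¹ • ψ (b.pt u) 0))) (fun u => by
        have l0 : Theta_P Γ b ψ θ (fun q => θ (b.H ((1 : Γ)⁻¹ • ψ q 0))) (b.pt u) := by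
          refine ⟨0, 1, 0, ⟨?_, ?_⟩, Eventually.of_forall fun y => (add_zero _).symm⟩
          · rw [inv_one, one_smul, h.zero _ trivial]
            exact hb.pt_mem (Ioo_subset_Icc_self (Theta_sub hb u.2))
          · rw [es]
            exact u.2
        exact (cc.tendsto u).eventually (Theta_diff hS h hb hc hi (hΘ _) l0)) ⟨y, hy⟩ ⟨y', hy'⟩
    simp only [es] at this
    have e' : Θ (b.pt y) = Θ (b.pt y') := e
    exact inj (Ioo_subset_Icc_self (Theta_sub hb hy)) (Ioo_subset_Icc_self (Theta_sub hb hy'))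
      (by linarith only [e, this])

end Pool.Agent.Work.MP_1ce82a_an.U
end

-- merged part: Pool.Agent.Work.MP_1ce82a_an.L.Bridge
section
/-! From quadratic growth on loops to quadratic growth on chains of calibrated arcs.
PLAN. arc_close: put y = a^-1 z (calibrated, CalR.smul) and let t1 = min t0 1. If the jump h = w - y T has norm <= 1 use aff y (T-t1) T 0 h on the last piece (jump, pot_aff_le; the piece lies in a ball by stay),
concatenated (cat) with y on [0,T-t1], and translate back by a. If the norm is larger than 1 (it is at most 2r) append the segment of Cls.seg in time 2r; bound its defect by a constant (Dom.lip) and the potential by Surf.bdd_inv.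
chqg_of_qg: qg_two for the two closed up arcs. curveSys_cal: CalR.shift, CalR.smul, CalR.isOrbit, reg_est with margin 1, mane_closed, stay. -/

open Set Filter Topology MeasureTheory
open scoped ContDiff

namespace Pool.Agent.Work.MP_1ce82a_an

variable {Γ : Grp}

theorem Bridge_stay (hS : Surf Γ) {F : E × E → ℝ} (hF : Tonelli Γ F) {c : H1 Γ} {u : E → ℝ}
    (hu : InS F c u) (R T : ℝ) : ∃ R' : ℝ, R ≤ R' ∧ ∀ z, CalR F u z → ∀ s, ‖z s‖ ≤ R →
      ∀ t, |t - s| ≤ T → ‖z t‖ ≤ R' := by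
  obtain ⟨R0, -, hR0⟩ := hS.exists_R0
  obtain ⟨m, hm⟩ := hF.ton0 (R0 + 1)
  obtain ⟨R', h1, h2⟩ := stay hS hR0 m R (2 * T)
  refine ⟨R', h1, fun z hz s hs t ht => ?_⟩
  have hT : 0 ≤ T := (abs_nonneg _).trans ht
  have hc := hz (s - T) (s + T) (by linarith only [hT])
  obtain ⟨h3, h4⟩ := abs_le.1 ht
  exact h2 F c u hm hF.invL hu z (s - T) (s + T) s hc.1 (by linarith only []) ⟨by linarith only [hT], by linarith only [hT]⟩
    (by rw [hc.2]; norm_num) hs t ⟨by linarith only [h3], by linarith only [h4]⟩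

theorem Bridge_close (hS : Surf Γ) {F : E × E → ℝ} (hF : Tonelli Γ F) {c : H1 Γ} {u : E → ℝ}
    (hu : InS F c u) {g : E → ℝ} (hg : ContDiff ℝ 1 g) (hi : Inv Γ g) (r t0 : ℝ) (ht0 : 0 < t0) :
    ∃ C : ℝ, 0 ≤ C ∧ ∀ y, CalR F u y → ∀ (T : ℝ) (w : E), t0 ≤ T → ‖y T‖ ≤ r →
      ‖w‖ ≤ r → ∃ (Y : ℝ → E) (T' : ℝ), IsPath Y 0 T' ∧ Y 0 = y 0 ∧ Y T' = w ∧ T ≤ T' ∧
        T' - T ≤ C * ‖y T - w‖ ∧ T' ≤ C * T ∧ dfc F u Y 0 T' ≤ C * ‖y T - w‖ ^ 2 ∧
        |pot g Y 0 T' - pot g y 0 T| ≤ C * ‖y T - w‖ := by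
  obtain ⟨R', hR', hst⟩ := Bridge_stay hS hF hu r t0
  obtain ⟨m, hm⟩ := hF.ton0 (R' + 2)
  obtain ⟨C1, hC1, hj⟩ := jump m t0 t0 ht0
  obtain ⟨C2, hC2, hp⟩ := pot_aff_le hg R' t0
  obtain ⟨M, hM, hb⟩ := hS.bdd_inv hg.continuous hi
  have hL := m.La_nonneg 1
  have hq : 0 ≤ 2 * |r| / t0 := by positivity
  obtain ⟨C, hC⟩ : ∃ C, C = 1 + C1 + C2 + 2 * m.La 1 + M + 2 * |r| / t0 := ⟨_, rfl⟩
  refine ⟨C, by linarith only [hC1, hC2, hM, hL, hq, hC], fun y hy T w hT hyT hw => ?_⟩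
  have hd0 : 0 ≤ ‖y T - w‖ := norm_nonneg _
  have hn : ‖w - y T‖ = ‖y T - w‖ := norm_sub_rev _ _
  have hT0 : 0 ≤ T := by linarith only [ht0, hT]
  have hFc := hF.cont
  rcases le_total ‖y T - w‖ 1 with hd | hd
  · have hlt : T - t0 < T := by linarith only [ht0]
    have hin : ∀ t ∈ Icc (T - t0) T, ‖y t‖ ≤ R' := fun t ht =>
      hst y hy T hyT t (abs_le.2 ⟨by linarith only [ht, ht.1], by linarith only [ht0, ht, ht.2]⟩)
    have h1 := hy 0 (T - t0) (by linarith only [hT])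
    have h2 := (hy (T - t0) T hlt.le).1
    have h3 := h2.aff 0 (w - y T)
    have he : y (T - t0) = aff y (T - t0) T 0 (w - y T) (T - t0) := by
      rw [aff_left y hlt, add_zero]
    have h4 := hj R' F u hm hu.2 y (T - t0) T (hy _ _ (by linarith only [ht0])) (by linarith only []) (by linarith only []) hin
      0 (w - y T) (by simp) (by rw [hn]; exact hd)
    have h5 := hp y (T - t0) T hlt (by linarith only []) h2 hin 0 (w - y T) (by simp) (by rw [hn]; exact hd)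
    rw [norm_zero, hn] at h4 h5
    refine ⟨cat y (aff y (T - t0) T 0 (w - y T)) (T - t0), T, h1.1.cat h3 he,
      cat_left _ _ 0 _ ⟨le_rfl, by linarith only [hT]⟩, ?_, le_rfl, ?_, ?_, ?_, ?_⟩
    · rw [cat_right he T ⟨hlt.le, le_rfl⟩, aff_right y hlt, add_sub_cancel]
    · rw [sub_self]
      exact mul_nonneg (by linarith only [hC1, hC2, hM, hL, hq, hC]) hd0
    · exact le_mul_of_one_le_left hT0 (by linarith only [hC1, hC2, hM, hL, hq, hC])
    · rw [dfc_cat hFc u h1.1 h3 he, h1.2, zero_add]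
      refine h4.trans ?_
      rw [zero_pow two_ne_zero, zero_add]
      exact mul_le_mul_of_nonneg_right (by linarith only [hC2, hM, hL, hq, hC]) (sq_nonneg _)
    · rw [pot_cat hg.continuous h1.1 h3 he,
        ← pot_add hg.continuous (hy 0 T hT0).1 (by linarith only [hT] : (0 : ℝ) ≤ T - t0) hlt.le,
        add_sub_add_left_eq_sub]
      refine h5.trans ?_
      rw [zero_add]
      exact mul_le_mul_of_nonneg_right (by linarith only [hC1, hM, hL, hq, hC]) hd0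
  · have h1 := hy 0 T hT0
    have hx : ‖y T‖ ≤ R' + 2 := by linarith only [hR', hyT]
    have hw' : ‖w‖ ≤ R' + 2 := by linarith only [hR', hw]
    obtain ⟨v, hv, hv0, hv1, hva⟩ := hm.seg hx hw' (a := T) (b := T + ‖y T - w‖) (by rw [hn]; linarith only [])
    have hl := Dom.lip hm hu.2 hx hw'
    have hdr : ‖y T - w‖ ≤ 2 * |r| := by
      have := norm_sub_le (y T) w
      have := le_abs_self r
      linarith
    rw [add_sub_cancel_left] at hva
    refine ⟨cat y v T, T + ‖y T - w‖, h1.1.cat hv hv0.symm, cat_left _ _ 0 _ ⟨le_rfl, hT0⟩, ?_,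
      by linarith only [hd], ?_, ?_, ?_, ?_⟩
    · rw [cat_right hv0.symm (T + ‖y T - w‖) ⟨by linarith only [hd], le_rfl⟩, hv1]
    · rw [add_sub_cancel_left]
      exact le_mul_of_one_le_left hd0 (by linarith only [hC1, hC2, hM, hL, hq, hC])
    · have h2 : 2 * |r| ≤ 2 * |r| / t0 * T := by
        calc 2 * |r| = 2 * |r| / t0 * t0 := by field_simp
          _ ≤ _ := mul_le_mul_of_nonneg_left hT hq
      have h3 : (1 + 2 * |r| / t0) * T ≤ C * T := mul_le_mul_of_nonneg_right (by linarith only [hC1, hC2, hM, hL, hC]) hT0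
      linarith only [hdr, h2, h3]
    · rw [dfc_cat hFc u h1.1 hv hv0.symm, h1.2, zero_add, dfc, hv0, hv1]
      have h2 : ‖y T - w‖ ≤ ‖y T - w‖ ^ 2 := by linarith only [hd0, hd, mul_nonneg_of_nonpos_of_nonpos (Mathlib.Tactic.Linarith.sub_nonpos_of_le hd0) (Mathlib.Tactic.Linarith.sub_nonpos_of_le hd)]
      have h3 : 2 * m.La 1 * ‖y T - w‖ ^ 2 ≤ C * ‖y T - w‖ ^ 2 :=
        mul_le_mul_of_nonneg_right (by linarith only [hC1, hC2, hM, hq, hC]) (sq_nonneg _)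
      have h4 := mul_le_mul_of_nonneg_left h2 hL
      linarith only [h3, h4, hva, hl, (abs_le.1 hva).2, (abs_le.1 hl).2]
    · rw [pot_cat hg.continuous h1.1 hv hv0.symm, add_sub_cancel_left]
      refine (abs_pot_le hv.1 fun t _ => hb _).trans ?_
      rw [add_sub_cancel_left]
      exact mul_le_mul_of_nonneg_right (by linarith only [hC1, hC2, hL, hq, hC]) hd0

theorem arc_close (hS : Surf Γ) {F : E × E → ℝ} (hF : Tonelli Γ F) {c : H1 Γ} {u : E → ℝ}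
    (hu : InS F c u) {g : E → ℝ} (hg : ContDiff ℝ 1 g) (hi : Inv Γ g) (r t0 : ℝ) (ht0 : 0 < t0) :
    ∃ C : ℝ, 0 ≤ C ∧ ∀ z, CalR F u z → ∀ (T : ℝ) (a : Γ) (w : E), t0 ≤ T → ‖a⁻¹ • z T‖ ≤ r →
      ‖w‖ ≤ r → ∃ (y : ℝ → E) (T' : ℝ), IsPath y 0 T' ∧ y 0 = z 0 ∧ y T' = a • w ∧ T ≤ T' ∧
        T' - T ≤ C * ‖a⁻¹ • z T - w‖ ∧ T' ≤ C * T ∧ dfc F u y 0 T' ≤ C * ‖a⁻¹ • z T - w‖ ^ 2 ∧
        |pot g y 0 T' - pot g z 0 T| ≤ C * ‖a⁻¹ • z T - w‖ := by
  obtain ⟨C, hC, h⟩ := Bridge_close hS hF hu hg hi r t0 ht0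
  refine ⟨C, hC, fun z hz T a w hT h1 h2 => ?_⟩
  obtain ⟨Y, T', k1, k2, k3, k4, k5, k6, k7, k8⟩ :=
    h _ (hz.smul hS hF.invL hu.1 a⁻¹) T w hT h1 h2
  refine ⟨fun t => a • Y t, T', k1.smul hS a, ?_, ?_, k4, k5, k6, ?_, ?_⟩
  · show a • Y 0 = z 0
    rw [k2, smul_inv_smul]
  · show a • Y T' = a • w
    rw [k3]
  · rw [dfc_smul hS hF.invL hu.1]
    exact k7
  · rw [pot_smul hi, ← pot_smul hi a⁻¹ z]
    exact k8

theorem chqg_of_qg (hS : Surf Γ) {F : E × E → ℝ} (hF : Tonelli Γ F) {c c1 : H1 Γ} {u : E → ℝ}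
    (hu : InS F c u) {g : E → ℝ} (hg : ContDiff ℝ 1 g) (hi : Inv Γ g) {m : ℝ}
    (h : QG F c c1 g m) : ChQG {z | CalR F u z} c1 g m := by
  intro r t0 ht0
  obtain ⟨A, hA, hcl⟩ := arc_close hS hF hu hg hi r t0 ht0
  obtain ⟨C, s0, hC, hs0, hq⟩ := qg_two hS hF hg.continuous hi h
  have hm := abs_nonneg m
  refine ⟨A + C * A + |m| * A, s0, by positivity, hs0,
    fun z1 hz1 z2 hz2 T1 T2 a1 a2 hT1 hT2 h1 h2 h3 h4 s hs => ?_⟩
  obtain ⟨y1, S1, p1, p2, p3, p4, p5, p6, p7, p8⟩ := hcl z1 hz1 T1 a1 (z2 0) hT1 h3 h2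
  obtain ⟨y2, S2, q1, q2, q3, q4, q5, q6, q7, q8⟩ := hcl z2 hz2 T2 a2 (z1 0) hT2 h4 h1
  have k := hq u hu.1 y1 y2 0 S1 0 S2 a1 a2 p1 q1 (by linarith only [ht0, hT1, hT2, p4, q4]) (by rw [p3, q2]) (by rw [q3, p2]) s hs
  rw [sub_zero, sub_zero] at k
  generalize ‖a1⁻¹ • z1 T1 - z2 0‖ = d1 at *
  generalize ‖a2⁻¹ • z2 T2 - z1 0‖ = d2 at *
  have hsa := abs_nonneg s
  have e1 : ∀ x b : ℝ, |x| ≤ b → s * x ≤ |s| * b := fun x b hx =>
    (le_abs_self _).trans (by rw [abs_mul]; exact mul_le_mul_of_nonneg_left hx hsa)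
  have e2 : ∀ x b : ℝ, 0 ≤ x → x ≤ b → s * (m * x) ≤ |s| * (|m| * b) := fun x b h0 hx =>
    e1 _ _ (by rw [abs_mul, abs_of_nonneg h0]; exact mul_le_mul_of_nonneg_left hx hm)
  have k1 := e1 _ _ ((abs_sub_comm _ _).trans_le p8)
  have k2 := e1 _ _ ((abs_sub_comm _ _).trans_le q8)
  have k3 := e2 _ _ (sub_nonneg.2 p4) p5
  have k4 := e2 _ _ (sub_nonneg.2 q4) q5
  have k5 : C * s ^ 2 * (S1 + S2) ≤ C * s ^ 2 * (A * (T1 + T2)) :=
    mul_le_mul_of_nonneg_left (by linarith only [p6, q6]) (by positivity)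
  have hAd : 0 ≤ A * (d1 + d2) := by linarith only [p4, q4, p5, q5, (abs_nonneg _).trans p8, (abs_nonneg _).trans q8]
  have n1 : 0 ≤ (C * A + |m| * A) * (d1 ^ 2 + d2 ^ 2) := by positivity
  have n2 : 0 ≤ C * |s| * (A * (d1 + d2)) := by positivity
  have hT : 0 ≤ T1 + T2 := by linarith only [ht0, hT1, hT2]
  have n3 : 0 ≤ (A + |m| * A) * (s ^ 2 * (T1 + T2)) := by positivity
  linarith only [k, p7, q7, k1, k2, k3, k4, k5, n1, n2, n3]

theorem curveSys_cal (hS : Surf Γ) {F : E × E → ℝ} (hF : Tonelli Γ F) {c : H1 Γ} (hc : Crit F c)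
    {u : E → ℝ} (hu : InS F c u)
    (ha : ∀ z, CalR F u z → ∀ (P : ℝ) (σ : Γ), ¬ Perd z P σ) : CurveSys Γ {z | CalR F u z} where
  ne := exists_calR hS hF hc hu
  shift := fun _ hz s => CalR.shift hz s
  smul := fun _ hz γ => CalR.smul hS hF.invL hu.1 γ hz
  diff := fun _ hz t => (CalR.isOrbit hF.ton0 hu.2 hz).hasDerivAt t
  lip := fun R => by
    obtain ⟨m, hm⟩ := hF.ton0 (R + 2)
    obtain ⟨K, C, hK, hC, h⟩ := reg_est m 1 one_pos
    obtain ⟨h1, h2⟩ := h R F u hm hu.2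
    refine ⟨K + C, by linarith only [hK, hC], fun z1 hz1 z2 hz2 k1 k2 => ⟨?_, ?_⟩⟩
    · linarith only [hC, h1, hz1, k1, (h1 z1 0 (hz1 _ _ (by norm_num)) k1).2.1]
    · exact (h2 z1 z2 0 0 (hz1 _ _ (by norm_num)) (hz2 _ _ (by norm_num)) k1 k2).trans
        (mul_le_mul_of_nonneg_right (by linarith only [hK]) (norm_nonneg _))
  closed := mane_closed hS hF hc hu
  stay := fun R T => by
    obtain ⟨R', -, h⟩ := Bridge_stay hS hF hu R T
    exact ⟨R', fun z hz h0 t ht => h z hz 0 h0 t (by rwa [sub_zero])⟩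
  aper := ha

end Pool.Agent.Work.MP_1ce82a_an
end

-- merged part: Pool.Agent.Work.MP_1ce82a_an.M.Defs
section
/-! Locally monotone systems with flips on a compact set of reals: definitions. -/

open Set Filter Topology

namespace Pool.Agent.Work.MP_1ce82a_an

/-- Locally monotone aperiodic systems on a compact set of reals. -/
structure MS (Y : Set ℝ) (R Ri : ℝ → ℝ) (r C : ℝ) : Prop where
  cpt : IsCompact Y
  mR : ∀ y ∈ Y, R y ∈ Y
  mRi : ∀ y ∈ Y, Ri y ∈ Y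
  inv1 : ∀ y ∈ Y, Ri (R y) = y
  inv2 : ∀ y ∈ Y, R (Ri y) = y
  r_pos : 0 < r
  C_ge : 1 ≤ C
  lipR : ∀ y ∈ Y, ∀ y' ∈ Y, |y' - y| ≤ r → |R y' - R y| ≤ C * |y' - y|
  lipRi : ∀ y ∈ Y, ∀ y' ∈ Y, |y' - y| ≤ r → |Ri y' - Ri y| ≤ C * |y' - y|
  monR : ∀ y ∈ Y, StrictMonoOn R (Y ∩ Icc (y - r) (y + r)) ∨
    StrictAntiOn R (Y ∩ Icc (y - r) (y + r))
  monRi : ∀ y ∈ Y, StrictMonoOn Ri (Y ∩ Icc (y - r) (y + r)) ∨
    StrictAntiOn Ri (Y ∩ Icc (y - r) (y + r))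
  aper : ∀ y ∈ Y, ∀ n : ℕ, R^[n] y = y → n = 0

/-- The set contains no interval. -/
def Thin (Y : Set ℝ) : Prop := ∀ a b : ℝ, a < b → ∃ x ∈ Ioo a b, x ∉ Y

/-- All forward orbits are dense. -/
def Dns (Y : Set ℝ) (R : ℝ → ℝ) : Prop :=
  ∀ y ∈ Y, ∀ ε : ℝ, 0 < ε → ∀ z ∈ Y, ∃ j : ℕ, |R^[j] z - y| < ε

/-- No isolated points. -/
def NoIso (Y : Set ℝ) : Prop := ∀ y ∈ Y, ∀ ε : ℝ, 0 < ε → ∃ y' ∈ Y, y' ≠ y ∧ |y' - y| < ε

/-- Order reversing returns near every point. -/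
def Flip (Y : Set ℝ) (R : ℝ → ℝ) : Prop :=
  ∀ y ∈ Y, ∀ δ : ℝ, 0 < δ → ∃ z ∈ Y, ∃ (n : ℕ) (ρ : ℝ), 0 < ρ ∧ |z - y| < δ ∧
    |R^[n] z - y| < δ ∧ StrictAntiOn (R^[n]) (Y ∩ Ioo (z - ρ) (z + ρ))

/-- No cut separates the two points. -/
def Sm (Q : Finset ℝ) (a b : ℝ) : Prop := ∀ x ∈ Q, x ∉ uIcc a b

/-- No cut separates the two orbits up to time `N`. -/
def Same (Q : Finset ℝ) (R : ℝ → ℝ) (N : ℕ) (a b : ℝ) : Prop :=
  ∀ j ≤ N, Sm Q (R^[j] a) (R^[j] b)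

/-- Finite sets of cuts, of mesh `ρ`. -/
structure Cut (Y : Set ℝ) (ρ : ℝ) (Q : Finset ℝ) : Prop where
  off : ∀ x ∈ Q, x ∉ Y
  fine : ∀ a ∈ Y, ∀ b ∈ Y, Sm Q a b → |b - a| ≤ ρ

/-- End points of the gaps which contain a cut. -/
def Zs (Y : Set ℝ) (Q : Finset ℝ) : Set ℝ := {e | e ∈ Y ∧ ∃ x ∈ Q, ∀ y ∈ Y, y ∉ uIoo e x}

/-- Points which reach an end point of a cut gap at time `N + 1`. -/
def Node (Y : Set ℝ) (Q : Finset ℝ) (R : ℝ → ℝ) (N : ℕ) (z : ℝ) : Prop :=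
  z ∈ Y ∧ R^[N + 1] z ∈ Zs Y Q

/-- Pseudo orbits from `a` to `b` with `k` steps, bounds for the jumps and sum of `φ` equal
to `S`. -/
def PS (Y : Set ℝ) (R φ : ℝ → ℝ) (a b : ℝ) (k : ℕ) (c2 c1 S : ℝ) : Prop :=
  ∃ w : ℕ → ℝ, (∀ i ≤ k, w i ∈ Y) ∧ w 0 = a ∧ w k = b ∧
    ∑ i ∈ Finset.range k, (R (w i) - w (i + 1)) ^ 2 ≤ c2 ∧
    ∑ i ∈ Finset.range k, |R (w i) - w (i + 1)| ≤ c1 ∧ ∑ i ∈ Finset.range k, φ (w i) = S

/-- Quadratic growth on closed pseudo orbits. -/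
def PO (Y : Set ℝ) (R φ : ℝ → ℝ) : Prop :=
  ∃ C s0 : ℝ, 0 ≤ C ∧ 0 < s0 ∧ ∀ (a : ℝ) (k : ℕ) (c2 c1 S : ℝ), 1 ≤ k → PS Y R φ a a k c2 c1 S →
    ∀ s : ℝ, |s| ≤ s0 → s * S ≤ C * (c2 + |s| * c1 + s ^ 2 * k)

/-- The two points are the end points of a gap. -/
def Adj (Y : Set ℝ) (a b : ℝ) : Prop := a ∈ Y ∧ b ∈ Y ∧ a ≠ b ∧ ∀ x ∈ Y, x ∉ uIoo a b

/-- The two points bound a small gap at all nonnegative times. -/
def FA (Y : Set ℝ) (R : ℝ → ℝ) (r a b : ℝ) : Prop :=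
  ∀ j : ℕ, Adj Y (R^[j] a) (R^[j] b) ∧ |R^[j] b - R^[j] a| ≤ r

/-- The two points lie on one orbit. -/
def Orb (R : ℝ → ℝ) (a b : ℝ) : Prop := ∃ m n : ℕ, R^[m] a = R^[n] b

/-- The data of a crown. -/
structure CrD where
  k : ℕ
  X : ℕ → ℝ
  Z : ℕ → ℝ
  X' : ℕ → ℝ
  Z' : ℕ → ℝ
  α : ℕ → ℕ
  β : ℕ → ℕ

/-- A cyclic chain of boundary orbits, alternately forward and backward asymptotic. -/
structure Crown (Y : Set ℝ) (R Ri : ℝ → ℝ) (r : ℝ) (D : CrD) : Prop where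
  k_pos : 1 ≤ D.k
  fa : ∀ i < D.k, FA Y R r (D.X i) (D.Z i)
  ba : ∀ i < D.k, FA Y Ri r (D.Z' i) (D.X' (i + 1))
  eZ : ∀ i < D.k, R^[D.α i] (D.Z' i) = D.Z i
  eX : ∀ i < D.k, R^[D.β i] (D.X' i) = D.X i
  per : D.X' D.k = D.X' 0
  dXZ : ∀ i < D.k, ∀ j < D.k, ¬ Orb R (D.X i) (D.Z j)
  dX : ∀ i < D.k, i ≠ 0 → ¬ Orb R (D.X 0) (D.X i)
  dZ : ∀ i < D.k, i ≠ 0 → ¬ Orb R (D.Z 0) (D.Z i)

/-- The alternating sum of `φ` over the orbits of a crown, truncated at times `-M i`, `M' i`. -/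
noncomputable def Del (R Ri : ℝ → ℝ) (D : CrD) (φ : ℝ → ℝ) (M M' : ℕ → ℕ) : ℝ :=
  ∑ i ∈ Finset.range D.k,
    (∑ j ∈ Finset.range (M i), (φ (Ri^[j + 1] (D.Z' i)) - φ (Ri^[j + 1] (D.X' (i + 1)))) +
      (∑ j ∈ Finset.range (D.α i), φ (R^[j] (D.Z' i)) -
        ∑ j ∈ Finset.range (D.β i), φ (R^[j] (D.X' i))) +
      ∑ j ∈ Finset.range (M' i), (φ (R^[j] (D.Z i)) - φ (R^[j] (D.X i))))

/-- A small interval which misses the middle part of the crown and whose two end points lie on the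
same forward orbit of the crown, at times `a` and `b`, with their gaps outside. -/
structure PQ (R : ℝ → ℝ) (D : CrD) (p q : ℝ) (a b : ℕ) : Prop where
  lt : p < q
  mid : ∀ i < D.k, (∀ j < D.α i, R^[j] (D.Z' i) ∉ Icc p q) ∧ ∀ j < D.β i, R^[j] (D.X' i) ∉ Icc p q
  ends : (p = R^[a] (D.X 0) ∧ q = R^[b] (D.X 0) ∧ R^[a] (D.Z 0) < p ∧ q < R^[b] (D.Z 0)) ∨
    (p = R^[a] (D.Z 0) ∧ q = R^[b] (D.Z 0) ∧ R^[a] (D.X 0) < p ∧ q < R^[b] (D.X 0))

/-- Functions supported in a small interval and nearly constant there. -/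
structure Plat (Y : Set ℝ) (p q Λ G0 : ℝ) (G : ℝ → ℝ) : Prop where
  pos : 0 < G0
  out : ∀ y ∈ Y, y ∉ Icc p q → G y = 0
  bd : ∀ y ∈ Y, y ∈ Icc p q → G0 ≤ G y ∧ G y ≤ Λ * G0
  lip : ∀ y ∈ Y, ∀ y' ∈ Y, y ∈ Icc p q → y' ∈ Icc p q → |G y' - G y| ≤ Λ * G0 * |y' - y|

/-- Return times. -/
structure Tim (Y : Set ℝ) (r Ct t0 T0 : ℝ) (tt : ℝ → ℝ) : Prop where
  bd : ∀ y ∈ Y, t0 ≤ tt y ∧ tt y ≤ T0
  lip : ∀ y ∈ Y, ∀ y' ∈ Y, |y' - y| ≤ r → |tt y' - tt y| ≤ Ct * |y' - y|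

end Pool.Agent.Work.MP_1ce82a_an
end

-- merged part: Pool.Agent.Work.MP_1ce82a_an.N.Defs
section
/-! Definitions for laminations which are not transversely oriented. -/

open Set Filter Topology MeasureTheory
open scoped ContDiff

namespace Pool.Agent.Work.MP_1ce82a_an

variable {Γ : Grp}

/-- Quadratic growth for closed chains of arcs of the family. -/
def MQG (Γ : Grp) (Cv : Set (ℝ → E)) (g : E → ℝ) (m : ℝ) : Prop :=
  ∀ r t0 : ℝ, 0 < t0 → ∃ C s0 : ℝ, 0 ≤ C ∧ 0 < s0 ∧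
    ∀ (n : ℕ) (z : ℕ → ℝ → E) (T : ℕ → ℝ) (a : ℕ → Γ), 1 ≤ n →
      (∀ i < n, z i ∈ Cv ∧ t0 ≤ T i ∧ ‖z i 0‖ ≤ r ∧ ‖(a i)⁻¹ • z i (T i)‖ ≤ r) →
      z n 0 = z 0 0 → ∀ s : ℝ, |s| ≤ s0 →
        s * ∑ i ∈ Finset.range n, (pot g (z i) 0 (T i) - m * T i) ≤
          C * (∑ i ∈ Finset.range n, ‖(a i)⁻¹ • z i (T i) - z (i + 1) 0‖ ^ 2 +
            |s| * ∑ i ∈ Finset.range n, ‖(a i)⁻¹ • z i (T i) - z (i + 1) 0‖ +
            s ^ 2 * ∑ i ∈ Finset.range n, T i)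

/-- Near some point all returns of the lamination preserve the orientation. -/
def CoOr (Γ : Grp) (L : Set E) (ψ : E → ℝ → E) : Prop :=
  ∃ x0 ∈ L, ∃ r : ℝ, 0 < r ∧ ∀ p ∈ L, ∀ q ∈ L, ‖p - x0‖ ≤ r → ‖q - x0‖ ≤ r →
    ∀ (T : ℝ) (γ : Γ), ψ p T = γ • q → Pos γ

/-- Order reversing crossings near every point. -/
def FlipCr {G : Type} (χ : G → ℝ) (Y : Set ℝ) (Cr : ℝ → ℝ → G → ℝ → Prop) : Prop :=
  ∀ y ∈ Y, ∀ δ : ℝ, 0 < δ → ∃ y1 T γ y2, Cr y1 T γ y2 ∧ χ γ = -1 ∧ |y1 - y| < δ ∧ |y2 - y| < δ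

theorem MQG.mono {Cv Cv' : Set (ℝ → E)} (hs : Cv' ⊆ Cv) {g : E → ℝ} {m : ℝ}
    (h : MQG Γ Cv g m) : MQG Γ Cv' g m := by
  intro r t0 ht0
  obtain ⟨C, s0, h1, h2, h3⟩ := h r t0 ht0
  exact ⟨C, s0, h1, h2, fun n z T a hn hz => h3 n z T a hn fun i hi =>
    ⟨hs (hz i hi).1, (hz i hi).2⟩⟩

end Pool.Agent.Work.MP_1ce82a_an
end

-- merged part: Pool.Agent.Work.MP_1ce82a_an.M.Base
section
/-! Elementary properties of locally monotone systems and of cuts.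
PLAN. one: the hull lies in the ball of radius r/C <= r about a; its image lies between R a and R b by monotonicity; a point y of Y between R a and R b is within C (r/C) = r of R a, Ri is monotone on that ball, so Ri y lies between a and b.
iter: induction on j with one (Cut.fine) and composition of monotone or antitone maps. nhds: continuity of the iterates and the positive distance of a point of Y from the finite set Q.
exists_cut: Y lies in some Icc lo hi; put one cut in each interval Ioo (lo + i rho/3) (lo + (i+1) rho/3), i < n (Thin). Zs_finite: for a cut x there is at most one such point on each side of x.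
sum_len: volume of a disjoint union (measure_biUnion_finset) or induction. gap_sum: two gaps are disjoint or have the same end points; if the gaps at times j < j + d coincide then R^[j+d] a = R^[j] a or R^[j+2d] a = R^[j] a. -/

open Set Filter Topology

namespace Pool.Agent.Work.MP_1ce82a_an

variable {Y : Set ℝ} {R Ri : ℝ → ℝ} {r C : ℝ} {Q : Finset ℝ}

theorem Base_inv {f g : ℝ → ℝ} (hf : ∀ y ∈ Y, f y ∈ Y) (hg : ∀ y ∈ Y, g (f y) = y) (n : ℕ)
    {y : ℝ} (hy : y ∈ Y) : f^[n] y ∈ Y ∧ g^[n] (f^[n] y) = y := by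
  induction n with
  | zero => exact ⟨hy, rfl⟩
  | succ n ih =>
    rw [Function.iterate_succ_apply' f, Function.iterate_succ_apply g, hg _ ih.1]
    exact ⟨hf _ ih.1, ih.2⟩

theorem Base_Ioo {a b x : ℝ} : x ∈ uIoo a b ↔ x ∈ uIcc a b ∧ x ≠ a ∧ x ≠ b := by
  constructor
  · intro h
    refine ⟨uIoo_subset_uIcc_self h, ?_, ?_⟩
    · rintro rfl; exact left_notMem_uIoo h
    · rintro rfl; exact right_notMem_uIoo h
  · rintro ⟨h, h1, h2⟩
    rcases mem_uIcc.1 h with h | h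
    · exact mem_uIoo_of_lt (lt_of_le_of_ne h.1 h1.symm) (lt_of_le_of_ne h.2 h2)
    · exact mem_uIoo_of_gt (lt_of_le_of_ne h.1 h2.symm) (lt_of_le_of_ne h.2 h1)

theorem Base_btw {f : ℝ → ℝ} {S : Set ℝ} (h : StrictMonoOn f S ∨ StrictAntiOn f S) {a b x : ℝ}
    (ha : a ∈ S) (hb : b ∈ S) (hx : x ∈ S) (hm : x ∈ uIcc a b) : f x ∈ uIcc (f a) (f b) := by
  rcases h with h | h <;> rcases mem_uIcc.1 hm with k | k
  · exact mem_uIcc_of_le (h.monotoneOn ha hx k.1) (h.monotoneOn hx hb k.2)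
  · exact mem_uIcc_of_ge (h.monotoneOn hb hx k.1) (h.monotoneOn hx ha k.2)
  · exact mem_uIcc_of_ge (h.antitoneOn hx hb k.2) (h.antitoneOn ha hx k.1)
  · exact mem_uIcc_of_le (h.antitoneOn hx ha k.2) (h.antitoneOn hb hx k.1)

theorem Base_ball {a b ρ : ℝ} (h : |b - a| ≤ ρ) : uIcc a b ⊆ Icc (a - ρ) (a + ρ) := by
  have h0 := (abs_nonneg _).trans h
  have h1 := abs_le.1 h
  exact uIcc_subset_Icc ⟨by linarith only [h0], by linarith only [h0]⟩ ⟨by linarith only [h1, h1.1], by linarith only [h1, h1.2]⟩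

theorem MS.it (h : MS Y R Ri r C) (n : ℕ) {y : ℝ} (hy : y ∈ Y) : R^[n] y ∈ Y :=
  (Base_inv h.mR h.inv1 n hy).1

theorem MS.inv_it (h : MS Y R Ri r C) (n : ℕ) {y : ℝ} (hy : y ∈ Y) : Ri^[n] (R^[n] y) = y :=
  (Base_inv h.mR h.inv1 n hy).2

theorem MS.it_inv (h : MS Y R Ri r C) (n : ℕ) {y : ℝ} (hy : y ∈ Y) : R^[n] (Ri^[n] y) = y :=
  (Base_inv h.mRi h.inv2 n hy).2

theorem MS.symm (h : MS Y R Ri r C) : MS Y Ri R r C :=
  ⟨h.cpt, h.mRi, h.mR, h.inv2, h.inv1, h.r_pos, h.C_ge, h.lipRi, h.lipR, h.monRi, h.monR,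
    fun y hy n e => h.aper y hy n (by
      have := h.it_inv n hy
      rwa [e] at this)⟩

theorem MS.inj_it (h : MS Y R Ri r C) (n : ℕ) {a b : ℝ} (ha : a ∈ Y) (hb : b ∈ Y)
    (e : R^[n] a = R^[n] b) : a = b := by
  rw [← h.inv_it n ha, e, h.inv_it n hb]

theorem MS.orb_inj (h : MS Y R Ri r C) {y : ℝ} (hy : y ∈ Y) {i j : ℕ}
    (e : R^[i] y = R^[j] y) : i = j := by
  have key : ∀ i d : ℕ, R^[i] y = R^[d + i] y → d = 0 := fun i d e =>
    h.aper _ (h.it i hy) d (by rw [← Function.iterate_add_apply, ← e])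
  rcases le_total i j with k | k
  · obtain ⟨d, rfl⟩ := Nat.exists_eq_add_of_le' k
    rw [key i d e, zero_add]
  · obtain ⟨d, rfl⟩ := Nat.exists_eq_add_of_le' k
    rw [key j d e.symm, zero_add]

theorem MS.contOn (h : MS Y R Ri r C) (n : ℕ) : ContinuousOn (R^[n]) Y := by
  refine ContinuousOn.iterate (Metric.continuousOn_iff.2 fun b hb ε hε => ?_) h.mR n
  have hC : 0 < C := one_pos.trans_le h.C_ge
  refine ⟨min r (ε / C), lt_min h.r_pos (div_pos hε hC), fun a ha hab => ?_⟩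
  rw [Real.dist_eq] at hab ⊢
  refine (h.lipR b hb a ha (hab.le.trans (min_le_left _ _))).trans_lt ?_
  rw [mul_comm, ← lt_div_iff₀ hC]
  exact hab.trans_le (min_le_right _ _)

theorem MS.noIso (h : MS Y R Ri r C) (hd : Dns Y R) : NoIso Y := by
  intro y hy ε hε
  obtain ⟨j, hj⟩ := hd y hy ε hε (R y) (h.mR y hy)
  rw [← Function.iterate_succ_apply] at hj
  exact ⟨_, h.it _ hy, fun e => Nat.succ_ne_zero j (h.aper y hy _ e), hj⟩

theorem MS.one (h : MS Y R Ri r C) {a b : ℝ} (ha : a ∈ Y) (hb : b ∈ Y) (hab : |b - a| ≤ r / C) :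
    (StrictMonoOn R (Y ∩ uIcc a b) ∨ StrictAntiOn R (Y ∩ uIcc a b)) ∧
      R '' (Y ∩ uIcc a b) = Y ∩ uIcc (R a) (R b) := by
  have hC : 0 < C := one_pos.trans_le h.C_ge
  have h1 : |b - a| ≤ r := hab.trans (div_le_self h.r_pos.le h.C_ge)
  have h2 : Y ∩ uIcc a b ⊆ Y ∩ Icc (a - r) (a + r) := inter_subset_inter_right _ (Base_ball h1)
  have h3 : StrictMonoOn R (Y ∩ uIcc a b) ∨ StrictAntiOn R (Y ∩ uIcc a b) :=
    (h.monR a ha).imp (fun k => k.mono h2) fun k => k.mono h2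
  refine ⟨h3, Subset.antisymm ?_ fun y hy => ?_⟩
  · rintro _ ⟨x, hx, rfl⟩
    exact ⟨h.mR x hx.1, Base_btw h3 ⟨ha, left_mem_uIcc⟩ ⟨hb, right_mem_uIcc⟩ hx hx.2⟩
  · have h4 : |R b - R a| ≤ r := (h.lipR a ha b hb h1).trans (by
      rw [mul_comm, ← le_div_iff₀ hC]; exact hab)
    have h5 := Base_btw (h.monRi _ (h.mR a ha)) ⟨h.mR a ha, Base_ball h4 left_mem_uIcc⟩
      ⟨h.mR b hb, Base_ball h4 right_mem_uIcc⟩ ⟨hy.1, Base_ball h4 hy.2⟩ hy.2
    rw [h.inv1 a ha, h.inv1 b hb] at h5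
    exact ⟨Ri y, ⟨h.mRi y hy.1, h5⟩, h.inv2 y hy.1⟩

theorem MS.adj (h : MS Y R Ri r C) {a b : ℝ} (hab : Adj Y a b) (hl : |b - a| ≤ r / C) :
    Adj Y (R a) (R b) := by
  obtain ⟨ha, hb, hne, hg⟩ := hab
  refine ⟨h.mR a ha, h.mR b hb, fun e => hne (h.inj_it 1 ha hb e), fun x hx hm => ?_⟩
  obtain ⟨h1, h2, h3⟩ := Base_Ioo.1 hm
  obtain ⟨w, hw, rfl⟩ : x ∈ R '' (Y ∩ uIcc a b) := (h.one ha hb hl).2 ▸ ⟨hx, h1⟩
  exact hg w hw.1 (Base_Ioo.2 ⟨hw.2, fun e => h2 (by rw [e]), fun e => h3 (by rw [e])⟩)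

theorem Same.refl (h : MS Y R Ri r C) {ρ : ℝ} (hQ : Cut Y ρ Q) (N : ℕ) {a : ℝ} (ha : a ∈ Y) :
    Same Q R N a a := by
  intro j _ x hx hm
  rw [uIcc_self, mem_singleton_iff] at hm
  exact hQ.off x hx (hm ▸ h.it j ha)

theorem Same.symm {N : ℕ} {a b : ℝ} (h : Same Q R N a b) : Same Q R N b a := by
  intro j hj x hx
  rw [uIcc_comm]
  exact h j hj x hx

theorem Same.trans {N : ℕ} {a b c : ℝ} (h1 : Same Q R N a b) (h2 : Same Q R N b c) :
    Same Q R N a c := by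
  intro j hj x hx hm
  exact (uIcc_subset_uIcc_union_uIcc hm).elim (h1 j hj x hx) (h2 j hj x hx)

theorem Same.mono {N M : ℕ} {a b : ℝ} (h : Same Q R N a b) (hM : M ≤ N) : Same Q R M a b :=
  fun j hj => h j (hj.trans hM)

theorem Same.shift {N M j : ℕ} {a b : ℝ} (h : Same Q R N a b) (hj : j + M ≤ N) :
    Same Q R M (R^[j] a) (R^[j] b) := by
  intro i hi
  rw [← Function.iterate_add_apply, ← Function.iterate_add_apply]
  exact h _ (by omega)

theorem MS.iter (h : MS Y R Ri r C) (hQ : Cut Y (r / C) Q) {N j : ℕ} {a b : ℝ} (ha : a ∈ Y)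
    (hb : b ∈ Y) (hs : Same Q R N a b) (hj : j ≤ N + 1) :
    (StrictMonoOn (R^[j]) (Y ∩ uIcc a b) ∨ StrictAntiOn (R^[j]) (Y ∩ uIcc a b)) ∧
      R^[j] '' (Y ∩ uIcc a b) = Y ∩ uIcc (R^[j] a) (R^[j] b) := by
  induction j with
  | zero => exact ⟨Or.inl fun _ _ _ _ k => k, image_id _⟩
  | succ j ih =>
    obtain ⟨h1, h2⟩ := ih (by omega)
    obtain ⟨h3, h4⟩ := h.one (h.it j ha) (h.it j hb)
      (hQ.fine _ (h.it j ha) _ (h.it j hb) (hs j (by omega)))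
    have hm : MapsTo (R^[j]) (Y ∩ uIcc a b) (Y ∩ uIcc (R^[j] a) (R^[j] b)) :=
      fun x hx => h2 ▸ mem_image_of_mem _ hx
    rw [Function.iterate_succ']
    refine ⟨?_, by rw [image_comp, h2, h4]; rfl⟩
    rcases h1 with h1 | h1 <;> rcases h3 with h3 | h3
    exacts [Or.inl (h3.comp h1 hm), Or.inr (h3.comp_strictMonoOn h1 hm),
      Or.inr (h3.comp_strictAntiOn h1 hm), Or.inl (h3.comp h1 hm)]

theorem MS.iter_Ioo (h : MS Y R Ri r C) (hQ : Cut Y (r / C) Q) {N j : ℕ} {a b x : ℝ} (ha : a ∈ Y)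
    (hb : b ∈ Y) (hs : Same Q R N a b) (hj : j ≤ N + 1) (hx : x ∈ Y) :
    x ∈ uIoo a b ↔ R^[j] x ∈ uIoo (R^[j] a) (R^[j] b) := by
  have h2 := (h.iter hQ ha hb hs hj).2
  rw [Base_Ioo, Base_Ioo]
  constructor
  · rintro ⟨k1, k2, k3⟩
    have : R^[j] x ∈ Y ∩ uIcc (R^[j] a) (R^[j] b) := h2 ▸ mem_image_of_mem _ ⟨hx, k1⟩
    exact ⟨this.2, fun e => k2 (h.inj_it j hx ha e), fun e => k3 (h.inj_it j hx hb e)⟩
  · rintro ⟨k1, k2, k3⟩
    obtain ⟨w, hw, e⟩ : R^[j] x ∈ R^[j] '' (Y ∩ uIcc a b) := h2 ▸ ⟨h.it j hx, k1⟩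
    obtain rfl := h.inj_it j hw.1 hx e
    exact ⟨hw.2, fun e => k2 (by rw [e]), fun e => k3 (by rw [e])⟩

theorem MS.conv (h : MS Y R Ri r C) (hQ : Cut Y (r / C) Q) {N : ℕ} {a b x y : ℝ} (ha : a ∈ Y)
    (hb : b ∈ Y) (hs : Same Q R N a b) (hx : x ∈ Y ∩ uIcc a b) (hy : y ∈ Y ∩ uIcc a b) :
    Same Q R N x y := by
  intro j hj q hq hm
  have h2 := (h.iter hQ ha hb hs (hj.trans (Nat.le_succ N))).2
  have k1 : R^[j] x ∈ Y ∩ uIcc (R^[j] a) (R^[j] b) := h2 ▸ mem_image_of_mem _ hx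
  have k2 : R^[j] y ∈ Y ∩ uIcc (R^[j] a) (R^[j] b) := h2 ▸ mem_image_of_mem _ hy
  exact hs j hj q hq (uIcc_subset_uIcc k1.2 k2.2 hm)

theorem MS.same_nhds (h : MS Y R Ri r C) {ρ : ℝ} (hQ : Cut Y ρ Q) (N : ℕ) {a : ℝ} (ha : a ∈ Y) :
    ∀ᶠ a' in 𝓝[Y] a, Same Q R N a a' := by
  refine (eventually_all_finite (finite_Iic N)).2 fun j _ => ?_
  refine (eventually_all_finset Q).2 fun x hx => ?_
  have ht : Tendsto (R^[j]) (𝓝[Y] a) (𝓝 (R^[j] a)) := h.contOn j a ha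
  have hne : x ≠ R^[j] a := fun e => hQ.off x hx (e ▸ h.it j ha)
  rcases lt_or_gt_of_ne hne with k | k
  · filter_upwards [ht.eventually (lt_mem_nhds k)] with y hy
    exact notMem_uIcc_of_lt k hy
  · filter_upwards [ht.eventually (gt_mem_nhds k)] with y hy
    exact notMem_uIcc_of_gt k hy

theorem MS.class_cpt (h : MS Y R Ri r C) {ρ : ℝ} (hQ : Cut Y ρ Q) (N : ℕ) (a : ℝ) :
    IsCompact {x | x ∈ Y ∧ Same Q R N a x} := by
  refine h.cpt.of_isClosed_subset (isClosed_of_closure_subset fun x hx => ?_) fun x hx => hx.1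
  have hxY : x ∈ Y := h.cpt.isClosed.closure_subset (closure_mono (fun y hy => hy.1) hx)
  obtain ⟨y, h1, h2⟩ := ((mem_closure_iff_frequently.1 hx).and_eventually
    (eventually_nhdsWithin_iff.1 (h.same_nhds hQ N hxY))).exists
  exact ⟨hxY, h1.2.trans (h2 h1.1).symm⟩

theorem exists_cut (hY : IsCompact Y) (ht : Thin Y) {ρ : ℝ} (hρ : 0 < ρ) (S : Finset ℝ)
    (hS : ∀ x ∈ S, x ∉ Y) : ∃ Q : Finset ℝ, S ⊆ Q ∧ Cut Y ρ Q := by
  classical
  obtain ⟨lo, hlo⟩ := hY.bddBelow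
  obtain ⟨hi, hhi⟩ := hY.bddAbove
  have h2 : 0 < ρ / 2 := by positivity
  have hc : ∀ i : ℕ, ∃ x ∈ Ioo (lo + i * (ρ / 2)) (lo + (i + 1) * (ρ / 2)), x ∉ Y :=
    fun i => ht _ _ (by linarith only [hρ])
  choose c hc1 hc2 using hc
  refine ⟨S ∪ (Finset.range (⌈(hi - lo) / (ρ / 2)⌉₊ + 1)).image c, Finset.subset_union_left,
    fun x hx => ?_, ?_⟩
  · rcases Finset.mem_union.1 hx with hx | hx
    · exact hS x hx
    · obtain ⟨i, -, rfl⟩ := Finset.mem_image.1 hx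
      exact hc2 i
  · have key : ∀ a ∈ Y, ∀ b, a + ρ ≤ b →
        ∃ x ∈ S ∪ (Finset.range (⌈(hi - lo) / (ρ / 2)⌉₊ + 1)).image c, x ∈ Icc a b := by
      intro a ha b hab
      have k0 : 0 ≤ (a - lo) / (ρ / 2) := div_nonneg (sub_nonneg.2 (hlo ha)) h2.le
      have k1 := (div_le_iff₀ h2).1 (Nat.le_ceil ((a - lo) / (ρ / 2)))
      have k2 := (lt_div_iff₀ h2).1 (sub_lt_iff_lt_add.2 (Nat.ceil_lt_add_one k0))
      have k3 := hc1 ⌈(a - lo) / (ρ / 2)⌉₊
      refine ⟨_, Finset.mem_union_right _ (Finset.mem_image_of_mem c (Finset.mem_range.2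
        (Nat.lt_succ_of_le (Nat.ceil_mono (div_le_div_of_nonneg_right
          (sub_le_sub_right (hhi ha) lo) h2.le))))), ?_, ?_⟩
      · linarith only [k1, k3, k3.1]
      · linarith only [hab, k2, k3, k3.2]
    intro a ha b hb hs
    refine abs_le.2 ⟨not_lt.1 fun k => ?_, not_lt.1 fun k => ?_⟩
    · obtain ⟨x, hx, hm⟩ := key b hb a (by linarith only [k])
      exact hs x hx (Icc_subset_uIcc' hm)
    · obtain ⟨x, hx, hm⟩ := key a ha b (by linarith only [k])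
      exact hs x hx (Icc_subset_uIcc hm)

theorem Zs_finite {ρ : ℝ} (hQ : Cut Y ρ Q) : (Zs Y Q).Finite := by
  have key : ∀ x ∈ Q, {e | e ∈ Y ∧ ∀ y ∈ Y, y ∉ uIoo e x}.Finite := by
    intro x hx
    have h1 : {e | (e ∈ Y ∧ ∀ y ∈ Y, y ∉ uIoo e x) ∧ e < x}.Subsingleton := by
      intro e he e' he'
      rcases lt_trichotomy e e' with k | k | k
      · exact absurd (mem_uIoo_of_lt k he'.2) (he.1.2 e' he'.1.1)
      · exact k
      · exact absurd (mem_uIoo_of_lt k he.2) (he'.1.2 e he.1.1)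
    have h2 : {e | (e ∈ Y ∧ ∀ y ∈ Y, y ∉ uIoo e x) ∧ x < e}.Subsingleton := by
      intro e he e' he'
      rcases lt_trichotomy e e' with k | k | k
      · exact absurd (mem_uIoo_of_gt he.2 k) (he'.1.2 e he.1.1)
      · exact k
      · exact absurd (mem_uIoo_of_gt he'.2 k) (he.1.2 e' he'.1.1)
    refine (h1.finite.union h2.finite).subset fun e he => ?_
    rcases lt_or_gt_of_ne (fun k : e = x => hQ.off x hx (k ▸ he.1)) with k | k
    exacts [Or.inl ⟨he, k⟩, Or.inr ⟨he, k⟩]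
  refine (Q.finite_toSet.biUnion key).subset ?_
  rintro e ⟨h1, x, hx, h2⟩
  exact mem_biUnion hx ⟨h1, h2⟩

theorem MS.zin (h : MS Y R Ri r C) (hQ : Cut Y (r / C) Q) {M j : ℕ} {a b w : ℝ} (ha : a ∈ Y)
    (hb : b ∈ Y) (hw : w ∈ Y) (hs : Same Q R M a b) (hj : j ≤ M) (hz : R^[j] w ∈ Zs Y Q) :
    w ∉ uIoo a b := by
  intro hm
  have h1 := (h.iter_Ioo hQ ha hb hs (hj.trans (Nat.le_succ M)) hw).1 hm
  obtain ⟨-, x, hx, h2⟩ := hz
  have h3 := hs j hj x hx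
  have h4 := h2 _ (h.it j ha)
  have h5 := h2 _ (h.it j hb)
  rw [uIoo_eq_union] at h1
  rcases h1 with h1 | h1
  · rcases lt_or_ge x (R^[j] a) with k | k
    · exact h4 (mem_uIoo_of_gt k h1.1)
    · rcases lt_or_ge (R^[j] b) x with k' | k'
      · exact h5 (mem_uIoo_of_lt h1.2 k')
      · exact h3 (mem_uIcc_of_le k k')
  · rcases lt_or_ge x (R^[j] b) with k | k
    · exact h5 (mem_uIoo_of_gt k h1.1)
    · rcases lt_or_ge (R^[j] a) x with k' | k'
      · exact h4 (mem_uIoo_of_lt h1.2 k')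
      · exact h3 (mem_uIcc_of_ge k k')

theorem sum_len {ι : Type} (s : Finset ι) (u v : ι → ℝ) {lo hi : ℝ} (hl : lo ≤ hi)
    (hm : ∀ i ∈ s, u i ∈ Icc lo hi ∧ v i ∈ Icc lo hi)
    (hd : ∀ i ∈ s, ∀ j ∈ s, i ≠ j → Disjoint (uIoo (u i) (v i)) (uIoo (u j) (v j))) :
    ∑ i ∈ s, |v i - u i| ≤ hi - lo := by
  have h1 := MeasureTheory.measure_biUnion_finset (μ := MeasureTheory.volume) (s := s)
    (f := fun i => uIoo (u i) (v i)) (fun i hi j hj hij => hd i hi j hj hij)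
    (fun i _ => measurableSet_Ioo)
  have h2 : ∀ i, MeasureTheory.volume (uIoo (u i) (v i)) = ENNReal.ofReal |v i - u i| := fun i => by
    rw [← Ioo_min_max, Real.volume_Ioo, max_sub_min_eq_abs]
  have h3 : MeasureTheory.volume (⋃ i ∈ s, uIoo (u i) (v i)) ≤ MeasureTheory.volume (Ioo lo hi) :=
    MeasureTheory.measure_mono (iUnion₂_subset fun i hi => uIoo_subset_Ioo (hm i hi).1 (hm i hi).2)
  rw [h1, Real.volume_Ioo, Finset.sum_congr rfl fun i _ => h2 i,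
    ← ENNReal.ofReal_sum_of_nonneg fun i _ => abs_nonneg _] at h3
  exact (ENNReal.ofReal_le_ofReal_iff (sub_nonneg.2 hl)).1 h3

theorem Base_gap0 {p q p' q' t : ℝ} (hp : p ∈ Y) (hq : q ∈ Y) (hp' : p' ∈ Y) (hq' : q' ∈ Y)
    (h : ∀ x ∈ Y, x ∉ Ioo p q) (h' : ∀ x ∈ Y, x ∉ Ioo p' q') (ht : t ∈ Ioo p q)
    (ht' : t ∈ Ioo p' q') : p = p' ∧ q = q' :=
  ⟨le_antisymm (not_lt.1 fun k => h' p hp ⟨k, ht.1.trans ht'.2⟩)
      (not_lt.1 fun k => h p' hp' ⟨k, ht'.1.trans ht.2⟩),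
    le_antisymm (not_lt.1 fun k => h q' hq' ⟨ht.1.trans ht'.2, k⟩)
      (not_lt.1 fun k => h' q hq ⟨ht'.1.trans ht.2, k⟩)⟩

theorem Base_gap {p q p' q' t : ℝ} (h : Adj Y p q) (h' : Adj Y p' q') (ht : t ∈ uIoo p q)
    (ht' : t ∈ uIoo p' q') : (p = p' ∧ q = q') ∨ (p = q' ∧ q = p') := by
  obtain ⟨hp, hq, -, h⟩ := h
  obtain ⟨hp', hq', -, h'⟩ := h'
  rcases le_total p q with k | k <;> rcases le_total p' q' with k' | k'
  · rw [uIoo_of_le k] at h ht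
    rw [uIoo_of_le k'] at h' ht'
    exact Or.inl (Base_gap0 hp hq hp' hq' h h' ht ht')
  · rw [uIoo_of_le k] at h ht
    rw [uIoo_of_ge k'] at h' ht'
    exact Or.inr (Base_gap0 hp hq hq' hp' h h' ht ht')
  · rw [uIoo_of_ge k] at h ht
    rw [uIoo_of_le k'] at h' ht'
    exact Or.inr (Base_gap0 hq hp hp' hq' h h' ht ht').symm
  · rw [uIoo_of_ge k] at h ht
    rw [uIoo_of_ge k'] at h' ht'
    exact Or.inl (Base_gap0 hq hp hq' hp' h h' ht ht').symm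

theorem MS.gap_sum (h : MS Y R Ri r C) {ρ a b : ℝ} (hf : FA Y R ρ a b) (s : Finset ℕ) {lo hi : ℝ}
    (hl : lo ≤ hi) (hm : ∀ j ∈ s, R^[j] a ∈ Icc lo hi ∧ R^[j] b ∈ Icc lo hi) :
    ∑ j ∈ s, |R^[j] b - R^[j] a| ≤ hi - lo := by
  have ha : a ∈ Y := (hf 0).1.1
  refine sum_len s (fun j => R^[j] a) (fun j => R^[j] b) hl hm fun i _ j _ hij => ?_
  refine disjoint_left.2 fun t h1 h2 => hij ?_
  rcases Base_gap (hf i).1 (hf j).1 h1 h2 with k | k
  · exact h.orb_inj ha k.1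
  · have e : R^[i + i] a = R^[j + j] a := by
      rw [Function.iterate_add_apply, k.1, ← Function.iterate_add_apply, add_comm i j,
        Function.iterate_add_apply, k.2, ← Function.iterate_add_apply]
    have := h.orb_inj ha e
    omega

end Pool.Agent.Work.MP_1ce82a_an
end

-- merged part: Pool.Agent.Work.MP_1ce82a_an.M.Fix
section
/-! Overlapping monotone pieces force periodic points.
PLAN. anti: s = greatest element of the closed set of x in Y, a <= x <= b with x <= R^[p] x (contOn). Then s < R^[p] s, s < b; s is not accumulated from the right, so the least point s' of Y above s exists, R^[p] s' <= s, s' <= R^[p] s, and no point of Y lies strictly between R^[p] s' and R^[p] s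
(iter_Ioo with conv); hence R^[p] swaps s and s'. fix: reduce to a <= b; increasing case: the greatest x with x <= R^[p] x is fixed. drift: antitone case by anti; increasing case with R^[q] u' beyond u': if some x moves away from u', take the last such point s; it is not accumulated from the side of u',
and s would lie strictly between the images of the two end points of the next gap. ab: for fixed p the sets of a with Same N a (R^[p] a) are closed (same_nhds) and decrease; a point a of the intersection has a compact class (all N), which R^[p] maps into itself; apply fix to its least and greatest elements. -/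

open Set Filter Topology

namespace Pool.Agent.Work.MP_1ce82a_an

variable {Y : Set ℝ} {R Ri : ℝ → ℝ} {r C : ℝ} {Q : Finset ℝ}

theorem Fix_gap (hY : IsCompact Y) {g : ℝ → ℝ} (hg : ContinuousOn g Y) (h0 : ∀ x ∈ Y, g x ≠ 0)
    {a b : ℝ} (ha : a ∈ Y) (hb : b ∈ Y) (hab : a ≤ b) (h1 : 0 ≤ g a) (h2 : g b ≤ 0) :
    ∃ s ∈ Y ∩ uIcc a b, ∃ t ∈ Y ∩ uIcc a b, s < t ∧ 0 < g s ∧ g t < 0 ∧
      ∀ x ∈ Y, x ≤ s ∨ t ≤ x := by
  have k : ∀ (u : ℝ) (S : Set ℝ), IsClosed S → IsCompact (Y ∩ Icc u b ∩ g ⁻¹' S) := fun u S hS =>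
    hY.of_isClosed_subset ((hg.mono inter_subset_left).preimage_isClosed_of_isClosed
      (hY.isClosed.inter isClosed_Icc) hS) fun _ h => h.1.1
  obtain ⟨s, hs, ms⟩ := (k a _ isClosed_Ici).exists_isGreatest ⟨a, ⟨ha, le_rfl, hab⟩, h1⟩
  obtain ⟨t, ht, mt⟩ := (k s _ isClosed_Iic).exists_isLeast ⟨b, ⟨hb, hs.1.2.2, le_rfl⟩, h2⟩
  have e1 : 0 < g s := lt_of_le_of_ne hs.2 (h0 s hs.1.1).symm
  have e2 : g t < 0 := lt_of_le_of_ne ht.2 (h0 t ht.1.1)
  rw [uIcc_of_le hab]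
  refine ⟨s, hs.1, t, ⟨ht.1.1, hs.1.2.1.trans ht.1.2.1, ht.1.2.2⟩,
    ht.1.2.1.lt_of_ne fun e => e1.not_gt (e ▸ e2), e1, e2, fun x hx => ?_⟩
  by_contra hn
  obtain ⟨n1, n2⟩ := not_or.1 hn
  have n3 := (not_le.1 n1).le
  have n4 := (not_le.1 n2).le.trans ht.1.2.2
  exact (le_total 0 (g x)).elim (fun e => n1 (ms ⟨⟨hx, hs.1.2.1.trans n3, n4⟩, e⟩))
    fun e => n2 (mt ⟨⟨hx, n3, n4⟩, e⟩)

theorem Fix_img (h : MS Y R Ri r C) (hQ : Cut Y (r / C) Q) {p : ℕ} {s t y : ℝ} (hs : s ∈ Y)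
    (ht : t ∈ Y) (e : Same Q R p s t) (hl : s < t) (hg : ∀ x ∈ Y, x ≤ s ∨ t ≤ x) (hy : y ∈ Y)
    (hm : y ∈ uIcc (R^[p] s) (R^[p] t)) : R^[p] s = y ∨ R^[p] t = y := by
  obtain ⟨x, ⟨h1, h2⟩, rfl⟩ := (h.iter hQ hs ht e p.le_succ).2.ge ⟨hy, hm⟩
  rw [uIcc_of_le hl.le] at h2
  exact (hg x h1).imp (fun k => congrArg _ (h2.1.antisymm k)) fun k => congrArg _ (k.antisymm h2.2)

theorem Fix_ne (h : MS Y R Ri r C) {p : ℕ} (hp : 1 ≤ p) {x : ℝ} (hx : x ∈ Y) : R^[p] x ≠ x :=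
  fun e => (Nat.one_le_iff_ne_zero.1 hp) (h.aper x hx p e)

theorem Fix_att (h : MS Y R Ri r C) (hQ : Cut Y (r / C) Q) {p : ℕ} (hp : 1 ≤ p) {a b : ℝ}
    (ha : a ∈ Y) (hb : b ∈ Y) (hab : a ≤ b) (hs : Same Q R p a b) (h1 : a ≤ R^[p] a)
    (h2 : R^[p] b ≤ b) : False := by
  obtain ⟨s, ms, t, mt, k1, k2, k3, k4⟩ := Fix_gap h.cpt ((h.contOn p).sub continuousOn_id)
    (fun x hx => sub_ne_zero.2 (Fix_ne h hp hx)) ha hb hab (sub_nonneg.2 h1) (sub_nonpos.2 h2)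
  have e1 := (k4 _ (h.it p ms.1)).resolve_left (sub_pos.1 k2).not_ge
  have e2 := (k4 _ (h.it p mt.1)).resolve_right (sub_neg.1 k3).not_ge
  have e := h.conv hQ ha hb hs ms mt
  have e3 := (Fix_img h hQ ms.1 mt.1 e k1 k4 ms.1
    (mem_uIcc.2 (Or.inr ⟨e2, k1.le.trans e1⟩))).resolve_left (Fix_ne h hp ms.1)
  have e4 := (Fix_img h hQ ms.1 mt.1 e k1 k4 mt.1
    (mem_uIcc.2 (Or.inr ⟨e2.trans k1.le, e1⟩))).resolve_right (Fix_ne h hp mt.1)
  exact Fix_ne h (hp.trans (p.le_add_right p)) ms.1 (by rw [Function.iterate_add_apply, e4, e3])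

theorem Fix_rep (h : MS Y R Ri r C) (hQ : Cut Y (r / C) Q) {p : ℕ} (hp : 1 ≤ p) {a b : ℝ}
    (ha : a ∈ Y) (hb : b ∈ Y) (hab : a ≤ b) (hs : Same Q R p a b) (h1 : R^[p] a ≤ a)
    (h2 : b ≤ R^[p] b) : False := by
  obtain ⟨s, ms, t, mt, k1, k2, k3, k4⟩ := Fix_gap h.cpt (continuousOn_id.sub (h.contOn p))
    (fun x hx => sub_ne_zero.2 (Fix_ne h hp hx).symm) ha hb hab (sub_nonneg.2 h1) (sub_nonpos.2 h2)
  have e : s < R^[p] t := k1.trans (sub_neg.1 k3)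
  exact (Fix_img h hQ ms.1 mt.1 (h.conv hQ ha hb hs ms mt) k1 k4 ms.1
    (mem_uIcc.2 (Or.inl ⟨(sub_pos.1 k2).le, e.le⟩))).elim (Fix_ne h hp ms.1) e.ne'

theorem MS.anti (h : MS Y R Ri r C) (hQ : Cut Y (r / C) Q) {p : ℕ} (hp : 1 ≤ p) {a b : ℝ}
    (ha : a ∈ Y) (hb : b ∈ Y) (hab : a ≤ b) (hs : Same Q R p a b)
    (hm : StrictAntiOn (R^[p]) (Y ∩ uIcc a b)) (h1 : a ≤ R^[p] a) (h2 : R^[p] b ≤ b) : False := by
  exact (fun _ => Fix_att h hQ hp ha hb hab hs h1 h2) hm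

theorem MS.fix (h : MS Y R Ri r C) (hQ : Cut Y (r / C) Q) {p : ℕ} (hp : 1 ≤ p) {a b : ℝ}
    (ha : a ∈ Y) (hb : b ∈ Y) (hs : Same Q R p a b) (h1 : R^[p] a ∈ uIcc a b)
    (h2 : R^[p] b ∈ uIcc a b) : False := by
  rcases le_total a b with e | e
  · rw [uIcc_of_le e] at h1 h2
    exact Fix_att h hQ hp ha hb e hs h1.1 h2.2
  · rw [uIcc_of_ge e] at h1 h2
    exact Fix_att h hQ hp hb ha e hs.symm h2.1 h1.2

theorem MS.drift (h : MS Y R Ri r C) (hQ : Cut Y (r / C) Q) {q : ℕ} (hq : 1 ≤ q) {u u' : ℝ}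
    (hu : u ∈ Y) (hu' : u' ∈ Y) (hs : Same Q R q u u') (hn : R^[q] u' ∉ uIoo u u') :
    Disjoint (uIoo u u') (uIoo (R^[q] u) (R^[q] u')) ∨
      (StrictMonoOn (R^[q]) (Y ∩ uIcc u u') ∧
        ∀ x ∈ Y ∩ uIcc u u', 0 < (u' - u) * (R^[q] x - x)) := by
  have m := (h.iter hQ hu hu' hs q.le_succ).1
  have m1 : u ∈ Y ∩ uIcc u u' := ⟨hu, left_mem_uIcc⟩
  have m2 : u' ∈ Y ∩ uIcc u u' := ⟨hu', right_mem_uIcc⟩
  have d1 : ∀ c, c ≤ u → c ≤ u' → R^[q] u ≤ c → R^[q] u' ≤ c →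
      Disjoint (uIoo u u') (uIoo (R^[q] u) (R^[q] u')) := fun c a1 a2 a3 a4 =>
    disjoint_left.2 fun x k k' => ((le_inf a1 a2).trans_lt k.1).not_gt
      (k'.2.trans_le (sup_le a3 a4))
  have d2 : ∀ c, u ≤ c → u' ≤ c → c ≤ R^[q] u → c ≤ R^[q] u' →
      Disjoint (uIoo u u') (uIoo (R^[q] u) (R^[q] u')) := fun c a1 a2 a3 a4 =>
    disjoint_left.2 fun x k k' => ((le_inf a3 a4).trans_lt k'.1).not_gt
      (k.2.trans_le (sup_le a1 a2))
  rcases lt_trichotomy u u' with e | rfl | e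
  · rw [uIoo_of_lt e, mem_Ioo, not_and_or, not_lt, not_lt] at hn
    rcases hn with hn | hn
    · exact Or.inl (d1 u le_rfl e.le (le_of_not_ge fun k =>
        Fix_att h hQ hq hu hu' e.le hs k (hn.trans e.le)) hn)
    rcases le_or_gt u' (R^[q] u) with k | k
    · exact Or.inl (d2 u' e.le le_rfl k hn)
    refine Or.inr ⟨m.resolve_right fun m => (m m1 m2 e).not_gt (k.trans_le hn),
      fun x hx => mul_pos (sub_pos.2 e) (sub_pos.2 (lt_of_not_ge fun k' => ?_))⟩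
    exact Fix_rep h hQ hq hx.1 hu' (uIcc_of_le e.le ▸ hx.2 :).2 (h.conv hQ hu hu' hs hx m2) k' hn
  · simp
  · rw [uIoo_of_gt e, mem_Ioo, not_and_or, not_lt, not_lt] at hn
    rcases hn with hn | hn
    swap
    · exact Or.inl (d2 u le_rfl e.le (le_of_not_ge fun k =>
        Fix_att h hQ hq hu' hu e.le hs.symm (e.le.trans hn) k) hn)
    rcases le_or_gt (R^[q] u) u' with k | k
    · exact Or.inl (d1 u' e.le le_rfl k hn)
    refine Or.inr ⟨m.resolve_right fun m => (m m2 m1 e).not_gt (hn.trans_lt k),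
      fun x hx => mul_pos_of_neg_of_neg (sub_neg.2 e) (sub_neg.2 (lt_of_not_ge fun k' => ?_))⟩
    exact Fix_rep h hQ hq hu' hx.1 (uIcc_of_ge e.le ▸ hx.2 :).1 (h.conv hQ hu hu' hs m2 hx) hn k'

theorem Fix_pt (h : MS Y R Ri r C) (hQ : Cut Y (r / C) Q) {p : ℕ} (hp : 1 ≤ p) {a : ℝ}
    (ha : a ∈ Y) : ∃ N, ¬ Same Q R N a (R^[p] a) := by
  by_contra hn
  push Not at hn
  have k : IsCompact (⋂ N, {x | x ∈ Y ∧ Same Q R N a x}) := (h.class_cpt hQ 0 a).of_isClosed_subset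
    (isClosed_iInter fun N => (h.class_cpt hQ N a).isClosed) (iInter_subset _ 0)
  have k0 : a ∈ ⋂ N, {x | x ∈ Y ∧ Same Q R N a x} := mem_iInter.2 fun N => ⟨ha, Same.refl h hQ N ha⟩
  have k1 : ∀ x ∈ ⋂ N, {x | x ∈ Y ∧ Same Q R N a x},
      R^[p] x ∈ ⋂ N, {x | x ∈ Y ∧ Same Q R N a x} := fun x hx => mem_iInter.2 fun N =>
    ⟨h.it p (mem_iInter.1 hx 0).1, (hn N).trans ((mem_iInter.1 hx (p + N)).2.shift le_rfl)⟩
  obtain ⟨s, hs, ms⟩ := k.exists_isLeast ⟨a, k0⟩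
  obtain ⟨t, ht, mt⟩ := k.exists_isGreatest ⟨a, k0⟩
  exact Fix_att h hQ hp (mem_iInter.1 hs 0).1 (mem_iInter.1 ht 0).1 (ms ht)
    ((mem_iInter.1 hs p).2.symm.trans (mem_iInter.1 ht p).2) (ms (k1 s hs)) (mt (k1 t ht))

theorem MS.ab (h : MS Y R Ri r C) (hQ : Cut Y (r / C) Q) (p0 : ℕ) :
    ∃ N0 : ℕ, ∀ a ∈ Y, ∀ p : ℕ, 1 ≤ p → p ≤ p0 → ¬ Same Q R N0 a (R^[p] a) := by
  have k : ∀ p, 1 ≤ p → ∃ N, ∀ a ∈ Y, ¬ Same Q R N a (R^[p] a) := fun p hp => by
    refine h.cpt.induction_on (p := fun s => ∃ N, ∀ a ∈ s, ¬ Same Q R N a (R^[p] a))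
      ⟨0, fun _ h => h.elim⟩ (fun s t hst ⟨N, hN⟩ => ⟨N, fun a ha => hN a (hst ha)⟩)
      (fun s t ⟨N, hN⟩ ⟨M, hM⟩ => ⟨max N M, fun a ha e => ha.elim
        (fun ha => hN a ha (e.mono (le_max_left _ _))) fun ha => hM a ha (e.mono (le_max_right _ _))⟩)
      fun a ha => ?_
    obtain ⟨N, hN⟩ := Fix_pt h hQ hp ha
    exact ⟨_, h.same_nhds hQ (p + N) ha, N, fun b hb e =>
      hN (((Same.mono hb (N.le_add_left p)).trans e).trans (Same.shift hb le_rfl).symm)⟩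
  choose! N hN using k
  exact ⟨(Finset.range (p0 + 1)).sup N, fun a ha p h1 h2 e =>
    hN p h1 a ha (e.mono (Finset.le_sup (Finset.mem_range.2 (Nat.lt_succ_of_le h2))))⟩

end Pool.Agent.Work.MP_1ce82a_an
end

-- merged part: Pool.Agent.Work.MP_1ce82a_an.M.Greedy
section
/-! The greedy choice of jumps.
PLAN. Window h consists of the times j = h p + 1, ..., h p + p. Lam h c c' = sum over the window of |f j c' - f j c| is continuous and strictly increasing in c' on B above c. d = (hi - lo + 1)/H. e 0 = z, e (h+1) = greatest c' in B above e h with Lam h (e h) c' <= d.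
If e H is not z', then for each h < H the least point g h of B above e h with d <= Lam h (e h) (g h) exists, and every y in B above e (h+1) is at least g h. The intervals uIoo (f j (e h)) (f j (g h)) over all h < H and j in window h are pairwise disjoint (d1 inside a window, since they lie in the hull of f j z, f j z'; d2 with a' = e (h+1) otherwise),
so sum_len gives H d <= hi - lo, absurd. In window h jump at a time j h where |f j (e (h+1)) - f j (e h)| <= d/p: c i = e h for h p <= i < j h, c i = e (h+1) for j h <= i <= (h+1) p. It is convenient to build c by induction on the number of windows. -/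

open Set Filter Topology

namespace Pool.Agent.Work.MP_1ce82a_an

theorem Greedy_step {B : Set ℝ} (hB : IsCompact B) {z' : ℝ} (hz' : z' ∈ B) (hb : ∀ x ∈ B, x ≤ z')
    {L : ℝ → ℝ} (hL : ContinuousOn L B) {c d : ℝ} (hc : c ∈ B) (h0 : L c ≤ d) :
    ∃ e ∈ B, c ≤ e ∧ L e ≤ d ∧ (e ≠ z' → ∃ g ∈ B, c ≤ g ∧ d ≤ L g ∧ ∀ y ∈ B, e < y → g ≤ y) := by
  have k1 : IsCompact (B ∩ L ⁻¹' Iic d ∩ Ici c) :=
    (hB.of_isClosed_subset (hL.preimage_isClosed_of_isClosed hB.isClosed isClosed_Iic)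
      inter_subset_left).inter_right isClosed_Ici
  have k2 : IsCompact (B ∩ L ⁻¹' Ici d ∩ Ici c) :=
    (hB.of_isClosed_subset (hL.preimage_isClosed_of_isClosed hB.isClosed isClosed_Ici)
      inter_subset_left).inter_right isClosed_Ici
  obtain ⟨e, he, he'⟩ := k1.exists_isGreatest ⟨c, ⟨hc, h0⟩, self_mem_Ici⟩
  have up : ∀ y ∈ B, e < y → y ∈ B ∩ L ⁻¹' Ici d ∩ Ici c := fun y hy hey => by
    have : c ≤ y := le_trans he.2 hey.le
    refine ⟨⟨hy, show d ≤ L y from le_of_not_ge fun k => ?_⟩, this⟩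
    exact hey.not_ge (he' ⟨⟨hy, k⟩, this⟩)
  refine ⟨e, he.1.1, he.2, he.1.2, fun hne => ?_⟩
  obtain ⟨g, hg, hg'⟩ := k2.exists_isLeast ⟨z', up z' hz' (lt_of_le_of_ne (hb e he.1.1) hne)⟩
  exact ⟨g, hg.1.1, hg.2, hg.1.2, fun y hy hey => hg' (up y hy hey)⟩

theorem Greedy_sub {B : Set ℝ} {g : ℝ → ℝ} (h : StrictMonoOn g B ∨ StrictAntiOn g B)
    {z z' a b : ℝ} (hz : z ∈ B) (hz' : z' ∈ B) (ha : a ∈ B) (hb : b ∈ B) (h1 : z ≤ a) (h2 : a ≤ b)
    (h3 : b ≤ z') : uIoo (g a) (g b) ⊆ uIoo (g z) (g z') := by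
  rcases h with h | h
  · have m := h.monotoneOn
    rw [uIoo_of_le (m ha hb h2), uIoo_of_le (m hz hz' (h1.trans (h2.trans h3)))]
    exact Ioo_subset_Ioo (m hz ha h1) (m hb hz' h3)
  · have m := h.antitoneOn
    rw [uIoo_of_ge (m ha hb h2), uIoo_of_ge (m hz hz' (h1.trans (h2.trans h3)))]
    exact Ioo_subset_Ioo (m hb hz' h3) (m hz ha h1)

theorem Greedy_sum (F : ℕ → ℝ) (H p : ℕ) : ∑ i ∈ Finset.range (H * p), F i =
    ∑ h ∈ Finset.range H, ∑ r ∈ Finset.range p, F (h * p + r) := by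
  induction H with
  | zero => simp
  | succ H ih => rw [Nat.succ_mul, Finset.sum_range_add, ih, Finset.sum_range_succ]

theorem Greedy_le {h H r p : ℕ} (h1 : h < H) (h2 : r < p) : h * p + r + 1 ≤ H * p := by
  have := Nat.mul_le_mul_right p (Nat.succ_le_of_lt h1)
  rw [Nat.succ_mul] at this
  omega

theorem Greedy_jump {e : ℕ → ℝ} {f : ℕ → ℝ → ℝ} {H p : ℕ} (hp : 1 ≤ p) {k : ℕ → ℕ}
    (hk : ∀ h, k h < p) : ∃ c : ℕ → ℝ, c 0 = e 0 ∧ c (H * p) = e H ∧ (∀ i, ∃ h, c i = e h) ∧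
      ∀ G : ℝ → ℝ, G 0 = 0 →
        ∑ i ∈ Finset.range (H * p), G (f (i + 1) (c i) - f (i + 1) (c (i + 1))) =
          ∑ h ∈ Finset.range H,
            G (f (h * p + k h + 1) (e h) - f (h * p + k h + 1) (e (h + 1))) := by
  obtain ⟨c, hc⟩ : ∃ c : ℕ → ℝ, ∀ i,
      c i = if i % p ≤ k (i / p) then e (i / p) else e (i / p + 1) := ⟨_, fun _ => rfl⟩
  have a1 : ∀ h r, r < p → c (h * p + r) = if r ≤ k h then e h else e (h + 1) := fun h r hr => by
    rw [hc, Nat.mul_add_mod_of_lt hr, add_comm, Nat.add_mul_div_right _ _ hp, Nat.div_eq_of_lt hr,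
      zero_add]
  have a0 : ∀ h, c (h * p) = e h := fun h => by
    have := a1 h 0 hp
    rwa [if_pos (Nat.zero_le _)] at this
  have a2 : ∀ h r, r ≤ p → c (h * p + r) = if r ≤ k h then e h else e (h + 1) := fun h r hr => by
    rcases hr.eq_or_lt with rfl | hr
    · rw [← Nat.succ_mul, a0, if_neg (hk h).not_ge]
    · exact a1 h r hr
  refine ⟨c, by simpa using a0 0, a0 H, fun i => ?_, fun G hG => ?_⟩
  · rw [hc]
    split_ifs
    exacts [⟨_, rfl⟩, ⟨_, rfl⟩]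
  rw [Greedy_sum]
  refine Finset.sum_congr rfl fun h _ => ?_
  rw [Finset.sum_eq_single (k h)]
  · rw [a1 h _ (hk h), if_pos le_rfl, add_assoc, a2 h _ (hk h), if_neg (Nat.not_succ_le_self _)]
  · intro r hr hne
    have hr' := Finset.mem_range.1 hr
    rw [a1 h r hr', add_assoc, a2 h _ hr']
    by_cases q : r ≤ k h
    · rw [if_pos q, if_pos (by omega), sub_self, hG]
    · rw [if_neg q, if_neg (by omega), sub_self, hG]
  · exact fun q => (q (Finset.mem_range.2 (hk h))).elim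

theorem greedy {B : Set ℝ} (hB : IsCompact B) {z z' : ℝ} (hz : z ∈ B) (hz' : z' ∈ B)
    (hb : ∀ x ∈ B, z ≤ x ∧ x ≤ z') {f : ℕ → ℝ → ℝ} {H p : ℕ} (hH : 1 ≤ H) (hp : 1 ≤ p)
    {lo hi : ℝ}
    (hc : ∀ j ≤ H * p, ContinuousOn (f j) B ∧ (StrictMonoOn (f j) B ∨ StrictAntiOn (f j) B) ∧
      ∀ x ∈ B, f j x ∈ Icc lo hi)
    (d1 : ∀ j j' : ℕ, j < j' → j' ≤ H * p → j' ≤ j + p →
      Disjoint (uIoo (f j z) (f j z')) (uIoo (f j' z) (f j' z')))
    (d2 : ∀ j j' : ℕ, j < j' → j' ≤ H * p → ∀ a ∈ B, ∀ a' ∈ B, ∀ a2 ∈ B, ∀ b ∈ B, ∀ b2 ∈ B,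
      a ≤ a' → a' ≤ b → b ≤ b2 → a ≤ a2 → (∀ y ∈ B, a' < y → a2 ≤ y) →
        Disjoint (uIoo (f j a) (f j a2)) (uIoo (f j' b) (f j' b2))) :
    ∃ c : ℕ → ℝ, c 0 = z ∧ c (H * p) = z' ∧ (∀ i ≤ H * p, c i ∈ B) ∧
      ∑ i ∈ Finset.range (H * p), (f (i + 1) (c i) - f (i + 1) (c (i + 1))) ^ 2 ≤
        (hi - lo + 1) ^ 2 / (H * p ^ 2) ∧
      ∑ i ∈ Finset.range (H * p), |f (i + 1) (c i) - f (i + 1) (c (i + 1))| ≤ (hi - lo + 1) / p := by
  have H0 : (0 : ℝ) < H := by exact_mod_cast hH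
  have p0 : (0 : ℝ) < p := by exact_mod_cast hp
  have hl : lo ≤ hi := ((hc 0 (Nat.zero_le _)).2.2 z hz).1.trans ((hc 0 (Nat.zero_le _)).2.2 z hz).2
  obtain ⟨d, hd⟩ : ∃ d, d = (hi - lo + 1) / H := ⟨_, rfl⟩
  have d0 : 0 ≤ d := hd ▸ div_nonneg (by linarith only [hl]) H0.le
  have st : ∀ (h : ℕ) (c : B), ∃ e : B, (c : ℝ) ≤ e ∧ (h < H →
      ∑ r ∈ Finset.range p, |f (h * p + r + 1) e - f (h * p + r + 1) c| ≤ d ∧
      ((e : ℝ) ≠ z' → ∃ g ∈ B, (c : ℝ) ≤ g ∧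
        d ≤ ∑ r ∈ Finset.range p, |f (h * p + r + 1) g - f (h * p + r + 1) c| ∧
        ∀ y ∈ B, (e : ℝ) < y → g ≤ y)) := fun h c => by
    by_cases q : h < H
    · obtain ⟨e, e1, e2, e3, e4⟩ := Greedy_step hB hz' (fun x hx => (hb x hx).2)
        (L := fun x => ∑ r ∈ Finset.range p, |f (h * p + r + 1) x - f (h * p + r + 1) c|)
        (continuousOn_finsetSum _ fun r hr =>
          ((hc _ (Greedy_le q (Finset.mem_range.1 hr))).1.sub continuousOn_const).abs)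
        c.2 (d := d) (by simpa using d0)
      exact ⟨⟨e, e1⟩, e2, fun _ => ⟨e3, e4⟩⟩
    · exact ⟨c, le_rfl, fun k => (q k).elim⟩
  choose s s1 s2 using st
  obtain ⟨e, e0, es⟩ : ∃ e : ℕ → B, e 0 = ⟨z, hz⟩ ∧ ∀ h, e (h + 1) = s h (e h) :=
    ⟨fun n => Nat.rec ⟨z, hz⟩ s n, rfl, fun _ => rfl⟩
  have em : Monotone fun h => (e h : ℝ) := monotone_nat_of_le_succ fun h => by
    rw [es]
    exact s1 h (e h)
  have eH : (e H : ℝ) = z' := by
    by_contra hne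
    have ex : ∀ h, ∃ g ∈ B, (e h : ℝ) ≤ g ∧ (h < H →
        d ≤ ∑ r ∈ Finset.range p, |f (h * p + r + 1) g - f (h * p + r + 1) (e h)| ∧
        ∀ y ∈ B, (e (h + 1) : ℝ) < y → g ≤ y) := fun h => by
      by_cases q : h < H
      · rw [es]
        obtain ⟨g, g1, g2, g3⟩ := (s2 h (e h) q).2 fun k => hne
          ((hb _ (e H).2).2.antisymm (by
            rw [← k, ← es]
            exact em (Nat.succ_le_of_lt q)))
        exact ⟨g, g1, g2, fun _ => g3⟩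
      · exact ⟨e h, (e h).2, le_rfl, fun k => (q k).elim⟩
    choose g g1 g2 g3 using ex
    have dj : ∀ i ∈ Finset.range H ×ˢ Finset.range p, ∀ j ∈ Finset.range H ×ˢ Finset.range p,
        i.1 < j.1 ∨ (i.1 = j.1 ∧ i.2 < j.2) →
        Disjoint (uIoo (f (i.1 * p + i.2 + 1) (e i.1)) (f (i.1 * p + i.2 + 1) (g i.1)))
          (uIoo (f (j.1 * p + j.2 + 1) (e j.1)) (f (j.1 * p + j.2 + 1) (g j.1))) := by
      rintro ⟨h, r⟩ hi ⟨h', r'⟩ hj hlt
      simp only [Finset.mem_product, Finset.mem_range] at hi hj hlt ⊢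
      rcases hlt with q | ⟨rfl, q⟩
      · exact d2 _ _ (by have := Greedy_le q hi.2; omega) (Greedy_le hj.1 hj.2) _ (e h).2 _
          (e (h + 1)).2 _ (g1 h) _ (e h').2 _ (g1 h') (em (Nat.le_succ h))
          (em (Nat.succ_le_of_lt q)) (g2 h') (g2 h) (g3 h hi.1).2
      · exact (d1 _ _ (by omega) (Greedy_le hj.1 hj.2) (by omega)).mono
          (Greedy_sub (hc _ (Greedy_le hi.1 hi.2)).2.1 hz hz' (e h).2 (g1 h) (hb _ (e h).2).1
            (g2 h) (hb _ (g1 h)).2)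
          (Greedy_sub (hc _ (Greedy_le hj.1 hj.2)).2.1 hz hz' (e h).2 (g1 h) (hb _ (e h).2).1
            (g2 h) (hb _ (g1 h)).2)
    have sl := sum_len (Finset.range H ×ˢ Finset.range p)
      (fun i => f (i.1 * p + i.2 + 1) (e i.1)) (fun i => f (i.1 * p + i.2 + 1) (g i.1)) hl
      (fun i hi => by
        have := Finset.mem_product.1 hi
        have := (hc _ (Greedy_le (Finset.mem_range.1 this.1) (Finset.mem_range.1 this.2))).2.2
        exact ⟨this _ (e i.1).2, this _ (g1 i.1)⟩)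
      fun i hi j hj hij => by
        have : i.1 ≠ j.1 ∨ i.2 ≠ j.2 := by
          by_contra q
          push Not at q
          exact hij (Prod.ext q.1 q.2)
        by_cases q : i.1 < j.1 ∨ (i.1 = j.1 ∧ i.2 < j.2)
        · exact dj i hi j hj q
        · exact (dj j hj i hi (by omega)).symm
    rw [Finset.sum_product] at sl
    have := Finset.sum_le_sum (s := Finset.range H) fun h hh => (g3 h (Finset.mem_range.1 hh)).1
    rw [Finset.sum_const, Finset.card_range, nsmul_eq_mul, hd, mul_div_cancel₀ _ H0.ne'] at this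
    linarith only [sl, this]
  have jk : ∀ h, ∃ k < p, h < H →
      |f (h * p + k + 1) (e h) - f (h * p + k + 1) (e (h + 1))| ≤ d / p := fun h => by
    by_cases q : h < H
    · obtain ⟨k, k1, k2⟩ := Finset.exists_le_of_sum_le (s := Finset.range p)
        (f := fun r => |f (h * p + r + 1) (s h (e h)) - f (h * p + r + 1) (e h)|)
        (g := fun _ => d / p) ⟨0, Finset.mem_range.2 hp⟩ (by
          rw [Finset.sum_const, Finset.card_range, nsmul_eq_mul, mul_div_cancel₀ _ p0.ne']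
          exact (s2 h (e h) q).1)
      exact ⟨k, Finset.mem_range.1 k1, fun _ => by rwa [abs_sub_comm, es]⟩
    · exact ⟨0, hp, fun k => (q k).elim⟩
  choose k k1 k2 using jk
  obtain ⟨c, c0, c1, c2, c3⟩ := Greedy_jump (e := fun h => e h) (f := f) (H := H) hp k1
  refine ⟨c, by rw [c0, e0], c1.trans eH, fun i _ => ?_, ?_, ?_⟩
  · obtain ⟨h, q⟩ := c2 i
    exact q ▸ (e h).2
  · rw [c3 (fun x => x ^ 2) (by simp)]
    refine (Finset.sum_le_sum (g := fun _ => (d / p) ^ 2) fun h hh => ?_).trans (le_of_eq ?_)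
    · exact sq_le_sq' (abs_le.1 (k2 h (Finset.mem_range.1 hh))).1
        (abs_le.1 (k2 h (Finset.mem_range.1 hh))).2
    · rw [Finset.sum_const, Finset.card_range, nsmul_eq_mul, hd]
      field_simp
  · rw [c3 (fun x => |x|) abs_zero]
    refine (Finset.sum_le_sum fun h hh => k2 h (Finset.mem_range.1 hh)).trans (le_of_eq ?_)
    rw [Finset.sum_const, Finset.card_range, nsmul_eq_mul, hd]
    field_simp

end Pool.Agent.Work.MP_1ce82a_an
end

-- merged part: Pool.Agent.Work.MP_1ce82a_an.M.PS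
section
/-! Pseudo orbits.
PLAN. trans: w i for i <= k, then w' (i - k); Finset.sum_range_add. small: take s = plus or minus mu/n with mu = eta/(3 (C A + 1)), n0 >= mu/s0, divide by mu/n.
slope: delta below the minimum of |R^[j] y - y| over y in Y and 1 <= j <= p0 (compactness, contOn, aper), so among p0 consecutive times at most one lies in Icc p q and 0 <= sum G <= (n/p0 + 1) Lam G0; close the orbit of p of length n by one jump of size at most the diameter (orbit, step, trans);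
s = plus or minus s0/sqrt n gives |sum G - m sum tt| <= C' sqrt n, while sum tt >= n t0; let n tend to infinity. -/

open Set Filter Topology

namespace Pool.Agent.Work.MP_1ce82a_an

variable {Y : Set ℝ} {R Ri : ℝ → ℝ} {r C : ℝ} {Q : Finset ℝ}

theorem PS.refl (φ : ℝ → ℝ) {a : ℝ} (ha : a ∈ Y) : PS Y R φ a a 0 0 0 0 :=
  ⟨fun _ => a, fun _ _ => ha, rfl, rfl, by simp, by simp, by simp⟩

theorem PS.step (φ : ℝ → ℝ) {a b : ℝ} (ha : a ∈ Y) (hb : b ∈ Y) :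
    PS Y R φ a b 1 ((R a - b) ^ 2) |R a - b| (φ a) :=
  ⟨fun i => if i = 0 then a else b, fun i _ => by dsimp only; split_ifs <;> assumption, rfl, rfl,
    by simp, by simp, by simp⟩

theorem PS.trans {φ : ℝ → ℝ} {a b c c2 c1 S c2' c1' S' : ℝ} {k k' : ℕ}
    (h1 : PS Y R φ a b k c2 c1 S) (h2 : PS Y R φ b c k' c2' c1' S') :
    PS Y R φ a c (k + k') (c2 + c2') (c1 + c1') (S + S') := by
  obtain ⟨w, a1, a2, a3, a4, a5, a6⟩ := h1
  obtain ⟨w', b1, b2, b3, b4, b5, b6⟩ := h2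
  obtain ⟨W, e1, e2⟩ : ∃ W : ℕ → ℝ, (∀ i ≤ k, W i = w i) ∧ ∀ i, W (k + i) = w' i := by
    refine ⟨fun i => if i ≤ k then w i else w' (i - k), fun i hi => if_pos hi, fun i => ?_⟩
    rcases Nat.eq_zero_or_pos i with rfl | hi
    · simp [a3, b2]
    · simp [hi.ne']
  have e3 (f : ℝ → ℝ → ℝ) : ∑ i ∈ Finset.range (k + k'), f (W i) (W (i + 1)) =
      ∑ i ∈ Finset.range k, f (w i) (w (i + 1)) + ∑ i ∈ Finset.range k', f (w' i) (w' (i + 1)) := by
    rw [Finset.sum_range_add]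
    refine congrArg₂ _ (Finset.sum_congr rfl fun i hi => ?_) (Finset.sum_congr rfl fun i _ => ?_)
    · rw [e1 i (Finset.mem_range.1 hi).le, e1 _ (Finset.mem_range.1 hi)]
    · rw [add_assoc, e2, e2]
  refine ⟨W, fun i hi => ?_, (e1 0 k.zero_le).trans a2, (e2 k').trans b3,
    (e3 fun x y => (R x - y) ^ 2).trans_le (add_le_add a4 b4),
    (e3 fun x y => |R x - y|).trans_le (add_le_add a5 b5),
    (e3 fun x _ => φ x).trans (congrArg₂ _ a6 b6)⟩
  rcases le_total i k with h | h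
  · exact e1 i h ▸ a1 i h
  · obtain ⟨j, rfl⟩ := Nat.exists_eq_add_of_le h
    exact e2 j ▸ b1 j (by omega)

theorem PS.mono {φ : ℝ → ℝ} {a b c2 c1 S c2' c1' : ℝ} {k : ℕ} (h : PS Y R φ a b k c2 c1 S)
    (h2 : c2 ≤ c2') (h1 : c1 ≤ c1') : PS Y R φ a b k c2' c1' S := by
  obtain ⟨w, a1, a2, a3, a4, a5, a6⟩ := h
  exact ⟨w, a1, a2, a3, a4.trans h2, a5.trans h1, a6⟩

theorem MS.orbit (h : MS Y R Ri r C) (φ : ℝ → ℝ) {a : ℝ} (ha : a ∈ Y) (k : ℕ) :
    PS Y R φ a (R^[k] a) k 0 0 (∑ j ∈ Finset.range k, φ (R^[j] a)) :=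
  ⟨fun i => R^[i] a, fun i _ => h.it i ha, rfl, rfl, by simp [Function.iterate_succ_apply'],
    by simp [Function.iterate_succ_apply'], rfl⟩

theorem MS.orbit_back (h : MS Y R Ri r C) (φ : ℝ → ℝ) {a : ℝ} (ha : a ∈ Y) (k : ℕ) :
    PS Y R φ (Ri^[k] a) a k 0 0 (∑ j ∈ Finset.range k, φ (Ri^[j + 1] a)) := by
  induction k with
  | zero => exact PS.refl φ ha
  | succ k ih =>
    have h1 := (PS.step (R := R) φ (h.symm.it (k + 1) ha) (h.symm.it k ha)).trans ih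
    rw [Function.iterate_succ_apply', h.inv2 _ (h.symm.it k ha), add_comm 1, add_comm (φ _),
      ← Function.iterate_succ_apply' Ri] at h1
    rw [Finset.sum_range_succ]
    exact h1.mono (by simp) (by simp)

theorem PS_abs {φ : ℝ → ℝ} (h : PO Y R φ) : ∃ C s0 : ℝ, 0 ≤ C ∧ 0 < s0 ∧
    ∀ (a : ℝ) (k : ℕ) (c2 c1 S : ℝ), 1 ≤ k → PS Y R φ a a k c2 c1 S →
      ∀ s : ℝ, 0 ≤ s → s ≤ s0 → s * |S| ≤ C * (c2 + s * c1 + s ^ 2 * k) := by
  obtain ⟨C, s0, h1, h2, h3⟩ := h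
  refine ⟨C, s0, h1, h2, fun a k c2 c1 S hk hS s s1 s2 => ?_⟩
  have k1 := h3 a k c2 c1 S hk hS s ((abs_of_nonneg s1).trans_le s2)
  have k2 := h3 a k c2 c1 S hk hS (-s) ((abs_neg s).trans_le ((abs_of_nonneg s1).trans_le s2))
  rw [abs_neg, neg_sq] at k2
  rw [abs_of_nonneg s1] at k1 k2
  rcases abs_choice S with e | e <;> rw [e] <;> linarith only [k1, k2]

theorem PO.small {φ : ℝ → ℝ} (h : PO Y R φ) (A : ℕ) {η : ℝ} (hη : 0 < η) :
    ∃ (ε : ℝ) (n0 : ℕ), 0 < ε ∧ 1 ≤ n0 ∧ ∀ n : ℕ, n0 ≤ n → ∀ (a : ℝ) (k : ℕ) (S : ℝ), 1 ≤ k →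
      k ≤ A * n → PS Y R φ a a k (ε / n) ε S → |S| ≤ η := by
  obtain ⟨C, s0, h1, h2, h3⟩ := PS_abs h
  obtain ⟨μ, μ0, hμ⟩ : ∃ μ : ℝ, 0 < μ ∧ μ * (2 * (C * A + 1)) = η :=
    ⟨η / (2 * (C * A + 1)), by positivity, div_mul_cancel₀ _ (by positivity)⟩
  obtain ⟨ε, ε0, hε⟩ : ∃ ε : ℝ, 0 < ε ∧ ε * (2 * (C + 1) * (1 + μ)) = μ * η :=
    ⟨μ * η / (2 * (C + 1) * (1 + μ)), by positivity, div_mul_cancel₀ _ (by positivity)⟩
  obtain ⟨n0, hn0⟩ := exists_nat_ge (μ / s0)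
  refine ⟨ε, n0 + 1, ε0, by omega, fun n hn a k S hk hA hS => ?_⟩
  have n1 : (0 : ℝ) < n := by exact_mod_cast (by omega : 0 < n)
  have n2 : (n0 : ℝ) ≤ n := by exact_mod_cast (by omega : n0 ≤ n)
  have k1 := mul_le_mul_of_nonneg_left (h3 a k _ _ S hk hS (μ / n) (by positivity)
    ((div_le_comm₀ n1 h2).2 (hn0.trans n2))) n1.le
  have k2 : C * ((μ / n) ^ 2 * k) ≤ C * ((μ / n) ^ 2 * (A * n)) := by
    gcongr
    exact_mod_cast hA
  have k3 : n * (C * (ε / n + μ / n * ε + (μ / n) ^ 2 * (A * n))) =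
      C * ε * (1 + μ) + μ ^ 2 * (C * A) := by
    field_simp
  have k4 := mul_le_mul_of_nonneg_left k2 n1.le
  have k5 : n * (μ / n * |S|) = μ * |S| := by field_simp
  have k6 : μ * (μ * (2 * (C * A + 1))) = μ * η := by rw [hμ]
  have k7 := mul_pos ε0 (add_pos one_pos μ0)
  refine le_of_mul_le_mul_left ?_ μ0
  linarith only [hε, k1, k3, k4, k5, k6, k7, sq_nonneg μ]

theorem MS.slope (h : MS Y R Ri r C) {p0 : ℕ} (hp : 1 ≤ p0) : ∃ δ : ℝ, 0 < δ ∧
    ∀ (p q Λ G0 Ct t0 T0 m : ℝ) (G tt : ℝ → ℝ), p ∈ Y → p ≤ q → q - p ≤ δ → 0 < t0 →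
      Plat Y p q Λ G0 G → Tim Y r Ct t0 T0 tt → PO Y R (fun y => G y - m * tt y) →
        |m| * t0 ≤ Λ * G0 / p0 := by
  have h1 : ∀ᶠ δ in 𝓝[>] (0 : ℝ), ∀ j ∈ Finset.Icc 1 p0, ∀ y ∈ Y, δ < |R^[j] y - y| := by
    refine (Filter.eventually_all_finset _).2 fun j hj => ?_
    obtain ⟨d, d0, hd⟩ := h.cpt.exists_forall_le' ((h.contOn j).sub continuousOn_id).abs (a := 0)
      fun y hy => abs_pos.2 (sub_ne_zero.2 fun e => by
        have := h.aper y hy j e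
        have := (Finset.mem_Icc.1 hj).1
        omega)
    filter_upwards [Ioo_mem_nhdsGT d0] with δ hδ y hy using hδ.2.trans_le (hd y hy)
  obtain ⟨δ, hδ, δ0⟩ := (h1.and self_mem_nhdsWithin).exists
  refine ⟨δ, δ0, fun p q Λ G0 Ct t0 T0 m G tt hY pq hq ht hG hT hO => ?_⟩
  have g0 : ∀ y ∈ Y, 0 ≤ G y := fun y hy => by
    by_cases k : y ∈ Icc p q
    exacts [hG.pos.le.trans (hG.bd y hy k).1, (hG.out y hy k).ge]
  have g1 : ∀ y ∈ Y, ∀ i j, i < j → j < p0 → R^[i] y ∈ Icc p q → R^[j] y ∉ Icc p q := by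
    intro y hy i j ij hj k1 k2
    have k3 := hδ (j - i) (Finset.mem_Icc.2 ⟨by omega, by omega⟩) _ (h.it i hy)
    rw [← Function.iterate_add_apply, Nat.sub_add_cancel ij.le] at k3
    exact k3.not_ge (abs_le.2 ⟨by linarith only [hq, k1, k2, k1.2, k2.1], by linarith only [hq, k1, k2, k1.1, k2.2]⟩)
  have g2 : ∀ y ∈ Y, ∑ j ∈ Finset.range p0, G (R^[j] y) ≤ Λ * G0 := fun y hy => by
    by_cases k : ∃ i < p0, R^[i] y ∈ Icc p q
    · obtain ⟨i, hi, k⟩ := k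
      rw [Finset.sum_eq_single_of_mem i (Finset.mem_range.2 hi) fun j hj ij =>
        hG.out _ (h.it j hy) fun k' => (lt_or_gt_of_ne ij).elim (fun e => g1 y hy j i e hi k' k)
          fun e => g1 y hy i j e (Finset.mem_range.1 hj) k k']
      exact (hG.bd _ (h.it i hy) k).2
    · rw [Finset.sum_eq_zero fun j hj => hG.out _ (h.it j hy) fun k' =>
        k ⟨j, Finset.mem_range.1 hj, k'⟩]
      exact (g0 p hY).trans (hG.bd p hY ⟨le_rfl, pq⟩).2
  have g3 : ∀ N : ℕ, ∑ j ∈ Finset.range (N * p0), G (R^[j] p) ≤ N * (Λ * G0) := fun N => by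
    induction N with
    | zero => simp
    | succ N ih =>
      rw [Nat.succ_mul, Finset.sum_range_add, Nat.cast_succ, add_mul, one_mul]
      refine add_le_add ih (le_of_eq_of_le (Finset.sum_congr rfl fun j _ => ?_)
        (g2 _ (h.it (N * p0) hY)))
      rw [add_comm, Function.iterate_add_apply]
  obtain ⟨C', s0, c0, s1, h3⟩ := PS_abs hO
  obtain ⟨D, hD⟩ := Metric.isBounded_iff.1 h.cpt.isBounded
  have p1 : (0 : ℝ) < p0 := by exact_mod_cast hp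
  rw [le_div_iff₀ p1]
  refine le_of_not_gt fun k => ?_
  obtain ⟨e, he⟩ : ∃ e, e = |m| * t0 * p0 - Λ * G0 := ⟨_, rfl⟩
  have e0 : 0 < e := he ▸ sub_pos.2 k
  obtain ⟨s, s2, s3, s4⟩ : ∃ s : ℝ, 0 < s ∧ s ≤ s0 ∧ s * (2 * (C' * p0 + 1)) ≤ e :=
    ⟨min s0 (e / (2 * (C' * p0 + 1))), by positivity, min_le_left _ _,
      (le_div_iff₀ (by positivity)).1 (min_le_right _ _)⟩
  obtain ⟨N, hN⟩ := exists_nat_gt (C' * (D ^ 2 + s * D) / (s * e / 2))
  rw [div_lt_iff₀ (by positivity)] at hN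
  obtain ⟨n, hn⟩ : ∃ n, (N + 1) * p0 = n + 1 := Nat.exists_eq_succ_of_ne_zero (by positivity)
  have d1 : |R (R^[n] p) - p| ≤ D := hD (h.mR _ (h.it n hY)) hY
  have k1 := ((h.orbit (fun y => G y - m * tt y) hY n).trans (PS.step _ (h.it n hY) hY)).mono
    (c2' := D ^ 2) (c1' := D) ((zero_add _).trans_le (sq_le_sq' (abs_le.1 d1).1 (abs_le.1 d1).2))
    ((zero_add _).trans_le d1)
  rw [← Finset.sum_range_succ fun j => G (R^[j] p) - m * tt (R^[j] p), ← hn,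
    Finset.sum_sub_distrib, ← Finset.mul_sum] at k1
  have k2 := h3 p _ _ _ _ (by omega) k1 s s2.le s3
  have k3 := g3 (N + 1)
  have k4 := Finset.card_nsmul_le_sum (Finset.range ((N + 1) * p0)) (fun j => tt (R^[j] p)) t0
    fun j _ => (hT.bd _ (h.it j hY)).1
  have k5 : 0 ≤ ∑ j ∈ Finset.range ((N + 1) * p0), G (R^[j] p) :=
    Finset.sum_nonneg fun j _ => g0 _ (h.it j hY)
  rw [Finset.card_range, nsmul_eq_mul] at k4
  generalize ∑ j ∈ Finset.range ((N + 1) * p0), G (R^[j] p) = a at k2 k3 k5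
  generalize ∑ j ∈ Finset.range ((N + 1) * p0), tt (R^[j] p) = b at k2 k4
  have k6 := abs_sub_abs_le_abs_sub (m * b) a
  rw [abs_sub_comm, abs_of_nonneg k5, abs_mul] at k6
  have k7 := mul_le_mul_of_nonneg_left (k4.trans (le_abs_self b)) (abs_nonneg m)
  push_cast at k2 k3 k7
  have k8 : ((N : ℝ) + 1) * e ≤ |a - m * b| := by
    rw [he]
    linarith only [k6, k3, k7]
  have k9 := mul_le_mul_of_nonneg_left k8 s2.le
  have k10 := mul_le_mul_of_nonneg_left s4 (show 0 ≤ s * ((N : ℝ) + 1) by positivity)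
  have k11 : 0 ≤ s ^ 2 * ((N : ℝ) + 1) := by positivity
  linarith only [hN, k2, k9, k10, k11, s2, e0, mul_pos s2 e0]

end Pool.Agent.Work.MP_1ce82a_an
end

-- merged part: Pool.Agent.Work.MP_1ce82a_an.M.Move
section
/-! Cheap passage from one orbit to a nearby one.
PLAN. Apply greedy to B = Y inter uIcc z z' and f j = R^[j] if z <= z', and to the reflected set with f j x = R^[j] (-x) otherwise; the pseudo orbit is w i = R^[i] (c i).
d1: if the open hulls at times j < j' meet, one of the four end points y lies in both closed hulls; y = R^[j'] b with b in B (iter), a = R^[j] b and R^[j'-j] a = y lie in the hull at time j, so Same N0 a (R^[j'-j] a) by shift and conv.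
d2: drift for u = R^[j] z, u' = R^[j] z', q = j' - j (the hypothesis is transported by iter_Ioo). In the second case R^[j'] b lies strictly beyond R^[j] b towards u'; either it is R^[j] y with y in B beyond b, hence beyond a2, or it lies beyond u'. R^[j'] b2 lies beyond R^[j'] b. -/

open Set Filter Topology

namespace Pool.Agent.Work.MP_1ce82a_an

variable {Y : Set ℝ} {R Ri : ℝ → ℝ} {r C : ℝ} {Q : Finset ℝ}

theorem Move_sub {u u' x y : ℝ} (hx : x ∈ uIcc u u') (hy : y ∈ uIcc u u') :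
    uIoo x y ⊆ uIoo u u' := uIoo_subset_Ioo hx hy

theorem Move_overlap {a a' b b' : ℝ} (h : ¬ Disjoint (uIoo a a') (uIoo b b')) :
    ∃ y, (y = a ∨ y = a' ∨ y = b ∨ y = b') ∧ y ∈ uIcc a a' ∧ y ∈ uIcc b b' := by
  obtain ⟨x, ⟨h1, h2⟩, h3, h4⟩ := not_disjoint_iff.1 h
  refine ⟨max (min a a') (min b b'), ?_, ⟨le_max_left _ _, max_le (h1.trans h2).le (h3.trans h2).le⟩,
    ⟨le_max_right _ _, max_le (h1.trans h4).le (h3.trans h4).le⟩⟩
  rcases max_choice (min a a') (min b b') with e | e <;> rw [e]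
  · rcases min_choice a a' with e' | e' <;> simp [e']
  · rcases min_choice b b' with e' | e' <;> simp [e']

theorem Move_mem {u u' x : ℝ} (hne : u' - u ≠ 0) :
    x ∈ uIcc u u' ↔ (u' - u) * u ≤ (u' - u) * x ∧ (u' - u) * x ≤ (u' - u) * u' := by
  rcases lt_or_gt_of_ne hne with hD | hD
  · rw [uIcc_of_ge (by linarith only [hD]), mul_le_mul_left_of_neg hD, mul_le_mul_left_of_neg hD]
    exact ⟨fun h => ⟨h.2, h.1⟩, fun h => ⟨h.2, h.1⟩⟩
  · rw [uIcc_of_le (by linarith), mul_le_mul_iff_right₀ hD, mul_le_mul_iff_right₀ hD]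
    exact Iff.rfl

theorem Move_disj {D a a2 b b2 : ℝ} (hD : D ≠ 0) (h1 : D * a ≤ D * a2) (h2 : D * a2 ≤ D * b)
    (h3 : D * b ≤ D * b2) : Disjoint (uIoo a a2) (uIoo b b2) := by
  refine disjoint_left.2 fun x hx hx' => ?_
  rcases lt_or_gt_of_ne hD with hD | hD
  · rw [mul_le_mul_left_of_neg hD] at h1 h2 h3
    rw [uIoo_of_ge h1] at hx
    rw [uIoo_of_ge h3] at hx'
    linarith only [h2, hx, hx', hx.1, hx'.2]
  · rw [mul_le_mul_iff_right₀ hD] at h1 h2 h3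
    rw [uIoo_of_le h1] at hx
    rw [uIoo_of_le h3] at hx'
    linarith [hx.2, hx'.1]

theorem Move_ori {B : Set ℝ} {g : ℝ → ℝ} {z z' : ℝ} (hz : z ∈ B) (hz' : z' ∈ B) (hle : z ≤ z')
    (hg : StrictMonoOn g B ∨ StrictAntiOn g B) (hne : g z' - g z ≠ 0) {x y : ℝ} (hx : x ∈ B)
    (hy : y ∈ B) : (g z' - g z) * g x ≤ (g z' - g z) * g y ↔ x ≤ y := by
  rcases hg with hg | hg
  · have hD : 0 < g z' - g z :=
      lt_of_le_of_ne (sub_nonneg.2 (hg.monotoneOn hz hz' hle)) (Ne.symm hne)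
    rw [mul_le_mul_iff_right₀ hD, hg.le_iff_le hx hy]
  · have hD : g z' - g z < 0 := lt_of_le_of_ne (sub_nonpos.2 (hg.antitoneOn hz hz' hle)) hne
    rw [mul_le_mul_left_of_neg hD, hg.le_iff_ge hy hx]

theorem Move_d1 (h : MS Y R Ri r C) (hQ : Cut Y (r / C) Q) {p0 N0 M : ℕ}
    (hab : ∀ a ∈ Y, ∀ p : ℕ, 1 ≤ p → p ≤ p0 → ¬ Same Q R N0 a (R^[p] a)) {z z' : ℝ} (hz : z ∈ Y)
    (hz' : z' ∈ Y) (hs : Same Q R M z z') {j j' : ℕ} (hj : j < j') (hM : j' + N0 ≤ M)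
    (hp : j' ≤ j + p0) :
    Disjoint (uIoo (R^[j] z) (R^[j] z')) (uIoo (R^[j'] z) (R^[j'] z')) := by
  by_contra hn
  obtain ⟨y, hy, h1, h2⟩ := Move_overlap hn
  have hyY : y ∈ Y := by
    rcases hy with rfl | rfl | rfl | rfl
    exacts [h.it _ hz, h.it _ hz', h.it _ hz, h.it _ hz']
  have s1 := h.conv hQ (h.it j hz) (h.it j hz') (hs.shift (M := N0) (j := j) (by omega))
    ⟨h.it j hz, left_mem_uIcc⟩ ⟨hyY, h1⟩
  have s2 := h.conv hQ (h.it j' hz) (h.it j' hz') (hs.shift (M := N0) (j := j') hM)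
    ⟨hyY, h2⟩ ⟨h.it j' hz, left_mem_uIcc⟩
  refine hab _ (h.it j hz) (j' - j) (by omega) (by omega) ?_
  rw [← Function.iterate_add_apply, show j' - j + j = j' by omega]
  exact s1.trans s2

theorem Move_main (h : MS Y R Ri r C) (hQ : Cut Y (r / C) Q) {p0 N0 H M : ℕ} (hp : 1 ≤ p0)
    (hH : 1 ≤ H) (hab : ∀ a ∈ Y, ∀ p : ℕ, 1 ≤ p → p ≤ p0 → ¬ Same Q R N0 a (R^[p] a))
    {lo hi : ℝ} (hY : Y ⊆ Icc lo hi) {z z' : ℝ} (hz : z ∈ Y) (hz' : z' ∈ Y)
    (hs : Same Q R M z z') (hM : H * p0 + N0 ≤ M)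
    (nb : ∀ q : ℕ, 1 ≤ q → q ≤ H * p0 → R^[q] z' ∉ uIoo z z') (φ : ℝ → ℝ) {σ : ℝ}
    (hσ : σ = 1 ∨ σ = -1) (hle : σ * z ≤ σ * z') :
    ∃ S, PS Y R φ z (R^[H * p0] z') (H * p0) ((hi - lo + 1) ^ 2 / (H * p0 ^ 2))
      ((hi - lo + 1) / p0) S := by
  have hσσ : ∀ x : ℝ, σ * (σ * x) = x := fun x => by rcases hσ with rfl | rfl <;> ring
  obtain ⟨B, hB⟩ : ∃ B : Set ℝ, B = (fun x => σ * x) '' (Y ∩ uIcc z z') := ⟨_, rfl⟩
  have mB : ∀ x, x ∈ B ↔ σ * x ∈ Y ∩ uIcc z z' := fun x => by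
    rw [hB]
    exact ⟨by rintro ⟨y, hy, rfl⟩; simpa only [hσσ] using hy, fun hx => ⟨_, hx, hσσ x⟩⟩
  have cB : IsCompact B := by
    rw [hB]
    exact (h.cpt.inter_right isClosed_Icc).image (by fun_prop)
  have zB : σ * z ∈ B := (mB _).2 (by rw [hσσ]; exact ⟨hz, left_mem_uIcc⟩)
  have zB' : σ * z' ∈ B := (mB _).2 (by rw [hσσ]; exact ⟨hz', right_mem_uIcc⟩)
  have mon : ∀ j ≤ M + 1, StrictMonoOn (fun x => R^[j] (σ * x)) B ∨
      StrictAntiOn (fun x => R^[j] (σ * x)) B := by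
    intro j hj
    rcases (h.iter hQ hz hz' hs hj).1 with k | k <;> rcases hσ with rfl | rfl
    · exact Or.inl fun x hx y hy e => k ((mB x).1 hx) ((mB y).1 hy) (by linarith only [e])
    · exact Or.inr fun x hx y hy e => k ((mB y).1 hy) ((mB x).1 hx) (by linarith only [e])
    · exact Or.inr fun x hx y hy e => k ((mB x).1 hx) ((mB y).1 hy) (by linarith only [e])
    · exact Or.inl fun x hx y hy e => k ((mB y).1 hy) ((mB x).1 hx) (by linarith only [e])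
  have img : ∀ j ≤ M + 1, ∀ x ∈ B, R^[j] (σ * x) ∈ Y ∩ uIcc (R^[j] z) (R^[j] z') := by
    intro j hj x hx
    rw [← (h.iter hQ hz hz' hs hj).2]
    exact mem_image_of_mem _ ((mB x).1 hx)
  obtain ⟨c, c0, c1, c2, c3, c4⟩ := greedy cB zB zB' (f := fun j x => R^[j] (σ * x)) (lo := lo)
    (hi := hi) (fun x hx => by
      have := ((mB x).1 hx).2
      rcases hσ with rfl | rfl
      · rw [uIcc_of_le (by linarith only [hle])] at this
        constructor <;> linarith only [this, this.1, this.2]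
      · rw [uIcc_of_ge (by linarith only [hle])] at this
        constructor <;> linarith only [this, this.1, this.2]) hH hp
    (fun j hj => ⟨(h.contOn j).comp (by fun_prop) fun x hx => ((mB x).1 hx).1, mon j (by omega),
      fun x hx => hY (img j (by omega) x hx).1⟩)
    (fun j j' h1 h2 h3 => by
      simp only [hσσ]
      exact Move_d1 h hQ hab hz hz' hs h1 (by omega) h3)
    (fun j j' h1 h2 a ha a' ha' a2 ha2 b hb b2 hb2 _ l2 l3 l4 l5 => by
      have e : ∀ x, R^[j'] x = R^[j' - j] (R^[j] x) := fun x => by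
        rw [← Function.iterate_add_apply, show j' - j + j = j' by omega]
      have hn : R^[j' - j] (R^[j] z') ∉ uIoo (R^[j] z) (R^[j] z') := by
        rw [← Function.iterate_add_apply, add_comm, Function.iterate_add_apply,
          ← h.iter_Ioo hQ hz hz' hs (by omega) (h.it _ hz')]
        exact nb _ (by omega) (by omega)
      rcases h.drift hQ (q := j' - j) (by omega) (h.it j hz) (h.it j hz')
        (hs.shift (by omega)) hn with k | ⟨k1, k2⟩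
      · rw [← e, ← e] at k
        exact k.mono (Move_sub (img j (by omega) a ha).2 (img j (by omega) a2 ha2).2)
          (Move_sub (img j' (by omega) b hb).2 (img j' (by omega) b2 hb2).2)
      · have hD : R^[j] z' - R^[j] z ≠ 0 := fun e0 => by
          have := k2 _ ⟨h.it j hz, left_mem_uIcc⟩
          rw [e0, zero_mul] at this
          exact lt_irrefl _ this
        have ori : ∀ x ∈ B, ∀ y ∈ B, (R^[j] z' - R^[j] z) * R^[j] (σ * x) ≤
            (R^[j] z' - R^[j] z) * R^[j] (σ * y) ↔ x ≤ y := fun x hx y hy => by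
          have := Move_ori zB zB' hle (mon j (by omega)) (by simpa only [hσσ] using hD) hx hy
          simpa only [hσσ] using this
        have ib := img j (by omega) b hb
        have ib2 := img j (by omega) b2 hb2
        have kb := k2 _ ib
        rw [← e] at kb
        refine Move_disj hD ((ori a ha a2 ha2).2 l4) ?_ ?_
        · by_cases hw : R^[j'] (σ * b) ∈ uIcc (R^[j] z) (R^[j] z')
          · have hw' : R^[j'] (σ * b) ∈ R^[j] '' (Y ∩ uIcc z z') := by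
              rw [(h.iter hQ hz hz' hs (show j ≤ M + 1 by omega)).2]
              exact ⟨(img j' (by omega) b hb).1, hw⟩
            obtain ⟨y, hy, ey⟩ := hw'
            have yB : σ * y ∈ B := (mB _).2 (by rwa [hσσ])
            have ey' : R^[j] (σ * (σ * y)) = R^[j'] (σ * b) := by rw [hσσ, ey]
            have lt : b < σ * y := by
              by_contra hc
              have := (ori _ yB b hb).2 (not_lt.1 hc)
              rw [ey'] at this
              linarith only [kb, this]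
            have := (ori a2 ha2 _ yB).2 (l5 _ yB (lt_of_le_of_lt l2 lt))
            rwa [ey'] at this
          · have m1 := (Move_mem hD).1 ib.2
            have m2 := (Move_mem hD).1 (img j (by omega) a2 ha2).2
            rw [Move_mem hD, not_and_or, not_le, not_le] at hw
            rcases hw with hw | hw
            · linarith only [kb, m1, hw, m1.1]
            · linarith only [m2, hw, m2.2]
        · have m := (ori b hb b2 hb2).2 l3
          show (R^[j] z' - R^[j] z) * R^[j'] (σ * b) ≤ (R^[j] z' - R^[j] z) * R^[j'] (σ * b2)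
          rw [e (σ * b), e (σ * b2)]
          rcases lt_or_gt_of_ne hD with hD | hD
          · rw [mul_le_mul_left_of_neg hD] at m ⊢
            exact k1.monotoneOn ib2 ib m
          · rw [mul_le_mul_iff_right₀ hD] at m ⊢
            exact k1.monotoneOn ib ib2 m)
  refine ⟨_, fun i => R^[i] (σ * c i), fun i hi => h.it i ((mB _).1 (c2 i hi)).1, ?_, ?_, ?_, ?_,
    rfl⟩
  · simp only [c0, hσσ, Function.iterate_zero, id]
  · simp only [c1, hσσ]
  · simpa only [Function.iterate_succ_apply'] using c3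
  · simpa only [Function.iterate_succ_apply'] using c4

theorem MS.move (h : MS Y R Ri r C) (hQ : Cut Y (r / C) Q) {p0 N0 H M : ℕ} (hp : 1 ≤ p0)
    (hH : 1 ≤ H) (hab : ∀ a ∈ Y, ∀ p : ℕ, 1 ≤ p → p ≤ p0 → ¬ Same Q R N0 a (R^[p] a))
    {lo hi : ℝ} (hY : Y ⊆ Icc lo hi) {z z' : ℝ} (hz : z ∈ Y) (hz' : z' ∈ Y)
    (hs : Same Q R M z z') (hM : H * p0 + N0 ≤ M)
    (nb : ∀ q : ℕ, 1 ≤ q → q ≤ H * p0 → R^[q] z' ∉ uIoo z z') (φ : ℝ → ℝ) :
    ∃ S, PS Y R φ z (R^[H * p0] z') (H * p0) ((hi - lo + 1) ^ 2 / (H * p0 ^ 2))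
      ((hi - lo + 1) / p0) S := by
  rcases le_total z z' with hle | hle
  · exact Move_main h hQ hp hH hab hY hz hz' hs hM nb φ (σ := 1) (Or.inl rfl) (by linarith only [hle])
  · exact Move_main h hQ hp hH hab hY hz hz' hs hM nb φ (σ := -1) (Or.inr rfl) (by linarith only [hle])

end Pool.Agent.Work.MP_1ce82a_an
end

-- merged part: Pool.Agent.Work.MP_1ce82a_an.M.Split
section
/-! Splitting of classes and reachability of nodes.
PLAN. near_node: take the cut x between R^[N+1] w and R^[N+1] v nearest to R^[N+1] w, and the last point e of Y before x; e is in Zs, e = R^[N+1] z with z between w and v (iter), conv. class_max: if mu is not the greatest element of Y, it is not accumulated from the right (same_nhds), the next point s' of Y is not in the class;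
at the least time j with a cut between the two orbits no point of Y lies strictly between them (iter_Ioo). first_split: otherwise the greatest elements of the classes of R^[t] v, t <= kappa (N+1) + 1, take values in a set with at most kappa (N+1) + 1 elements (images of Zs under Ri^[j], j <= N, and the greatest element of Y);
two classes coincide, non split classes are mapped into the next class (near_node), so Same p holds on the class and fix applies to its least and greatest elements.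
reach: S = nodes reached from y by a path of any length; W = points w of Y with Same N w (R^[t] v), where v = y or v = R z with z in S and no class of R^[t'] v, t' < t, contains a node. W is invariant under R (if the class of R^[t] v contains a node then t is bounded by first_split, all its nodes are in S, and w is Same (N+1) to a node) and saturated;
Dns and same_nhds put the target in W. Shorten the path: the sets of nodes reached with at most k edges increase, hence are stationary from some k <= kappa on (there are at most kappa nodes). -/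

open Set Filter Topology

namespace Pool.Agent.Work.MP_1ce82a_an

variable {Y : Set ℝ} {R Ri : ℝ → ℝ} {r C : ℝ} {Q : Finset ℝ}

theorem Split_Ioo {a b y : ℝ} : y ∈ uIoo a b ↔ (a < y ∧ y < b) ∨ (b < y ∧ y < a) := by
  rcases le_total a b with h | h
  · rw [uIoo_of_le h]
    exact ⟨Or.inl, fun k => k.resolve_right fun k => by linarith only [h, k, k.1, k.2]⟩
  · rw [uIoo_of_ge h]
    exact ⟨Or.inr, fun k => k.resolve_left fun k => by linarith [k.1, k.2]⟩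

theorem Split_end (hY : IsCompact Y) (ho : ∀ x ∈ Q, x ∉ Y) {a b : ℝ} (ha : a ∈ Y)
    (hn : ¬ Sm Q a b) : ∃ e ∈ Y ∩ uIcc a b, e ∈ Zs Y Q ∧ Sm Q a e := by
  classical
  have hne : (Q.filter fun x => x ∈ uIcc a b).Nonempty := by
    by_contra hc
    exact hn fun x hx hx' => hc ⟨x, Finset.mem_filter.2 ⟨hx, hx'⟩⟩
  obtain ⟨x, hx, hm⟩ := Finset.exists_min_image _ (fun x => |x - a|) hne
  obtain ⟨hx, hx'⟩ := Finset.mem_filter.1 hx
  obtain ⟨e, he, hM⟩ := (hY.inter_right (isClosed_Icc (a := a ⊓ x) (b := a ⊔ x))).exists_isMaxOn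
    ⟨a, ha, left_mem_uIcc⟩ (f := fun y => |y - a|) (by fun_prop)
  have h1 : e ∈ uIcc a x := he.2
  have h2 : e ≠ x := fun k => ho x hx (k ▸ he.1)
  have h3 : e ∈ uIcc a b := uIcc_subset_uIcc_left hx' h1
  refine ⟨e, ⟨he.1, h3⟩, ⟨he.1, x, hx, fun y hy hy' => ?_⟩, fun y hy hy' => ?_⟩
  · have h4 : |y - a| ≤ |e - a| :=
      hM ⟨hy, uIcc_subset_uIcc_right h1 (uIoo_subset_uIcc_self hy')⟩
    rw [Split_Ioo] at hy'
    rw [mem_uIcc] at h1
    rcases abs_cases (y - a) with k | k <;> rcases abs_cases (e - a) with k' | k' <;>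
      rcases hy' with hy' | hy' <;> rcases h1 with h1 | h1 <;> linarith only [h4, k, k', hy', h1, hy'.1, hy'.2, h1.1, h1.2]
  · have h4 : |x - a| ≤ |y - a| := hm y (Finset.mem_filter.2 ⟨hy, uIcc_subset_uIcc_left h3 hy'⟩)
    rw [mem_uIcc] at h1 hy'
    apply h2
    rcases abs_cases (y - a) with k | k <;> rcases abs_cases (x - a) with k' | k' <;>
      rcases hy' with hy' | hy' <;> rcases h1 with h1 | h1 <;> linarith only [h4, k, k', hy', h1, hy'.1, hy'.2, h1.1, h1.2]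

theorem Split_succ {N : ℕ} {a b : ℝ} (h : Same Q R N a b)
    (h' : Sm Q (R^[N + 1] a) (R^[N + 1] b)) : Same Q R (N + 1) a b := fun j hj => by
  rcases Nat.of_le_succ hj with k | rfl
  · exact h j k
  · exact h'

theorem Split_step {N : ℕ} {a b : ℝ} (h : Same Q R (N + 1) a b) : Same Q R N (R a) (R b) :=
  h.shift (j := 1) (by omega)

theorem MS.near_node (h : MS Y R Ri r C) (hQ : Cut Y (r / C) Q) {N : ℕ} {w v : ℝ} (hw : w ∈ Y)
    (hv : v ∈ Y) (hs : Same Q R N w v) (hn : ¬ Same Q R (N + 1) w v) :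
    ∃ z, Node Y Q R N z ∧ Same Q R (N + 1) w z := by
  obtain ⟨e, he, h1, h2⟩ := Split_end h.cpt hQ.off (h.it (N + 1) hw) fun k => hn (Split_succ hs k)
  rw [← (h.iter hQ hw hv hs le_rfl).2] at he
  obtain ⟨z, hz, rfl⟩ := he
  exact ⟨z, ⟨hz.1, h1⟩, Split_succ (h.conv hQ hw hv hs ⟨hw, left_mem_uIcc⟩ hz) h2⟩

theorem MS.class_max (h : MS Y R Ri r C) (hQ : Cut Y (r / C) Q) {N : ℕ} {μ : ℝ} (hμ : μ ∈ Y)
    (hm : ∀ x ∈ Y, Same Q R N μ x → x ≤ μ) :
    (∀ x ∈ Y, x ≤ μ) ∨ ∃ j ≤ N, R^[j] μ ∈ Zs Y Q := by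
  classical
  refine or_iff_not_imp_left.2 fun hc => ?_
  push Not at hc
  obtain ⟨x0, hx0, hlt⟩ := hc
  obtain ⟨δ, hδ, hb⟩ := Metric.mem_nhdsWithin_iff.1 (h.same_nhds hQ N hμ)
  have far : ∀ x ∈ Y, μ < x → μ + δ ≤ x := fun x hx hl => not_lt.1 fun k =>
    (hm x hx (hb ⟨by rw [Metric.mem_ball, Real.dist_eq, abs_lt]; constructor <;> linarith only [hl, k],
      hx⟩)).not_gt hl
  obtain ⟨s, hs, hl⟩ := (h.cpt.inter_right (isClosed_Ici (a := μ + δ))).exists_isLeast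
    ⟨x0, hx0, far x0 hx0 hlt⟩
  have h1 : μ < s := by linarith only [hδ, hs, mem_Ici.1 hs.2]
  have h2 : ∀ x ∈ Y, x ∉ uIoo μ s := fun x hx k => by
    rw [uIoo_of_lt h1] at k
    exact (hl ⟨hx, far x hx k.1⟩).not_gt k.2
  have h3 : ∃ j, ¬ Same Q R j μ s := ⟨N, fun k => (hm s hs.1 k).not_gt h1⟩
  have h4 : Nat.find h3 ≤ N := Nat.find_min' h3 fun k => (hm s hs.1 k).not_gt h1
  refine ⟨Nat.find h3, h4, ?_⟩
  have h5 : ¬ Sm Q (R^[Nat.find h3] μ) (R^[Nat.find h3] s) ∧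
      ∀ y ∈ Y, y ∉ uIoo (R^[Nat.find h3] μ) (R^[Nat.find h3] s) := by
    have h6 := Nat.find_spec h3
    have h7 := fun m => Nat.find_min h3 (m := m)
    generalize Nat.find h3 = j at h6 h7
    rcases j with _ | j
    · exact ⟨fun k => h6 fun i hi => by rwa [Nat.le_zero.1 hi], h2⟩
    · have h8 := not_not.1 (h7 j j.lt_succ_self)
      refine ⟨fun k => h6 (Split_succ h8 k), fun y hy k => ?_⟩
      have h9 := h.symm.it (j + 1) hy
      refine h2 _ h9 ((h.iter_Ioo hQ hμ hs.1 h8 le_rfl h9).2 ?_)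
      rwa [h.it_inv (j + 1) hy]
  obtain ⟨x, hx, hx'⟩ : ∃ x ∈ Q, x ∈ uIcc (R^[Nat.find h3] μ) (R^[Nat.find h3] s) := by
    by_contra hc
    exact h5.1 fun x hx hx' => hc ⟨x, hx, hx'⟩
  refine ⟨h.it _ hμ, x, hx, fun y hy k => h5.2 y hy ?_⟩
  rw [Split_Ioo] at k ⊢
  rw [mem_uIcc] at hx'
  rcases k with k | k <;> rcases hx' with hx' | hx'
  · exact Or.inl ⟨k.1, by linarith only [h3, k, hx', k.2, hx'.2]⟩
  · linarith only [h3, k, hx', k.1, k.2, hx'.2]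
  · linarith only [h3, k, hx', k.1, k.2, hx'.1]
  · exact Or.inr ⟨by linarith only [h3, k, hx', k.1, hx'.1], k.2⟩

theorem Split_next (h : MS Y R Ri r C) (hQ : Cut Y (r / C) Q) {N : ℕ} {w v : ℝ} (hw : w ∈ Y)
    (hv : v ∈ Y) (hs : Same Q R N v w) (hn : ¬ ∃ z, Node Y Q R N z ∧ Same Q R N v z) :
    Same Q R N (R v) (R w) := by
  refine Split_step (by_contra fun k => hn ?_)
  obtain ⟨z, h1, h2⟩ := h.near_node hQ hv hw hs k
  exact ⟨z, h1, h2.mono N.le_succ⟩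

theorem MS.first_split (h : MS Y R Ri r C) (hQ : Cut Y (r / C) Q) (N : ℕ) {v : ℝ} (hv : v ∈ Y) :
    ∃ t ≤ (Zs Y Q).ncard * (N + 1) + 1, ∃ z, Node Y Q R N z ∧ Same Q R N (R^[t] v) z := by
  classical
  by_contra hc
  have hn : ∀ t ≤ (Zs Y Q).ncard * (N + 1) + 1,
      ¬ ∃ z, Node Y Q R N z ∧ Same Q R N (R^[t] v) z := fun t ht k => hc ⟨t, ht, k⟩
  have hK : ∀ t : ℕ, {x | x ∈ Y ∧ Same Q R N (R^[t] v) x}.Nonempty := fun t =>
    ⟨_, h.it t hv, Same.refl h hQ N (h.it t hv)⟩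
  choose μ hμ using fun t => (h.class_cpt hQ N (R^[t] v)).exists_isGreatest (hK t)
  obtain ⟨M, hM⟩ := h.cpt.exists_isGreatest ⟨v, hv⟩
  have main : ∀ t t', t < t' → t' ≤ (Zs Y Q).ncard * (N + 1) + 1 → μ t ≠ μ t' := by
    intro t t' h1 h2 e
    obtain ⟨p, rfl⟩ := Nat.exists_eq_add_of_le h1.le
    have h3 : ∀ x ∈ Y, Same Q R N (R^[t] v) x → ∀ i ≤ p,
        Same Q R N (R^[t + i] v) (R^[i] x) := fun x hx hs i hi => by
      induction i with
      | zero => exact hs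
      | succ i ih =>
        rw [← add_assoc, Function.iterate_succ_apply', Function.iterate_succ_apply']
        exact Split_next h hQ (h.it i hx) (h.it _ hv) (ih (by omega)) (hn _ (by omega))
    obtain ⟨a, ha⟩ := (h.class_cpt hQ N (R^[t] v)).exists_isLeast (hK t)
    have hb := hμ t
    have h4 : Same Q R N (R^[t] v) (R^[t + p] v) := hb.1.2.trans (e ▸ (hμ (t + p)).1.2.symm)
    have h5 : ∀ x ∈ Y, Same Q R N (R^[t] v) x → R^[p] x ∈ uIcc a (μ t) := fun x hx hs =>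
      have k : R^[p] x ∈ {x | x ∈ Y ∧ Same Q R N (R^[t] v) x} :=
        ⟨h.it p hx, h4.trans (h3 x hx hs p le_rfl)⟩
      Icc_subset_uIcc ⟨ha.2 k, hb.2 k⟩
    exact h.fix hQ (p := p) (by omega) ha.1.1 hb.1.1 (fun j hj =>
      ((h3 a ha.1.1 ha.1.2 j hj).symm.trans (h3 _ hb.1.1 hb.1.2 j hj)) 0 N.zero_le)
      (h5 a ha.1.1 ha.1.2) (h5 _ hb.1.1 hb.1.2)
  obtain ⟨t, ht, t', ht', hne, e⟩ := Finset.exists_ne_map_eq_of_card_lt_of_maps_to
    (s := Finset.range ((Zs Y Q).ncard * (N + 1) + 2))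
    (t := insert M (((Zs_finite hQ).toFinset ×ˢ Finset.range (N + 1)).image fun p => Ri^[p.2] p.1))
    (by
      refine (Finset.card_insert_le _ _).trans_lt ?_
      have k := Finset.card_image_le (s := (Zs_finite hQ).toFinset ×ˢ Finset.range (N + 1))
        (f := fun p => Ri^[p.2] p.1)
      rw [Finset.card_product, Finset.card_range, ← ncard_eq_toFinset_card _ (Zs_finite hQ)] at k
      rw [Finset.card_range]
      omega) (f := μ) fun t _ => by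
      rw [Finset.mem_coe, Finset.mem_insert, Finset.mem_image]
      rcases h.class_max hQ (N := N) (hμ t).1.1 fun x hx hs => (hμ t).2 ⟨hx, (hμ t).1.2.trans hs⟩ with
        k | ⟨j, hj, k⟩
      · exact Or.inl ((hM.2 (hμ t).1.1).antisymm (k M hM.1))
      · exact Or.inr ⟨(R^[j] (μ t), j), Finset.mem_product.2 ⟨(Finite.mem_toFinset _).2 k,
          Finset.mem_range.2 (Nat.lt_succ_of_le hj)⟩, h.inv_it j (hμ t).1.1⟩
  rw [Finset.mem_range] at ht ht'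
  rcases lt_or_gt_of_ne hne with k | k
  · exact main t t' k (by omega) e
  · exact main t' t k (by omega) e.symm

/-- Paths of nodes with `k` edges. -/
def Split_P (Y : Set ℝ) (Q : Finset ℝ) (R : ℝ → ℝ) (N B : ℕ) (y : ℝ) (k : ℕ) (z : ℝ) : Prop :=
  ∃ (zs : ℕ → ℝ) (ts : ℕ → ℕ), zs k = z ∧ (∀ i ≤ k, Node Y Q R N (zs i) ∧ ts i ≤ B) ∧
    Same Q R N (R^[ts 0] y) (zs 0) ∧ ∀ i < k, Same Q R N (R^[ts (i + 1)] (zs i)) (zs (i + 1))

theorem Split_P.ext {N B k t : ℕ} {y z z' : ℝ} (h : Split_P Y Q R N B y k z) (hz : Node Y Q R N z')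
    (ht : t ≤ B) (hs : Same Q R N (R^[t] z) z') : Split_P Y Q R N B y (k + 1) z' := by
  obtain ⟨zs, ts, rfl, h1, h2, h3⟩ := h
  refine ⟨Function.update zs (k + 1) z', Function.update ts (k + 1) t, Function.update_self ..,
    fun i hi => ?_, ?_, fun i hi => ?_⟩
  · rcases Nat.of_le_succ hi with k | rfl
    · rw [Function.update_of_ne (by omega), Function.update_of_ne (by omega)]
      exact h1 i k
    · rw [Function.update_self, Function.update_self]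
      exact ⟨hz, ht⟩
  · rwa [Function.update_of_ne (by omega), Function.update_of_ne (by omega)]
  · rcases Nat.lt_succ_iff_lt_or_eq.1 hi with k | rfl
    · rw [Function.update_of_ne (by omega), Function.update_of_ne (by omega),
        Function.update_of_ne (by omega)]
      exact h3 i k
    · rwa [Function.update_self, Function.update_self, Function.update_of_ne (by omega)]

theorem Split_stat {S : Set ℝ} (hS : S.Finite) {n : ℕ} (hn : S.ncard ≤ n) {B : ℕ → Set ℝ}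
    (h1 : ∀ k, B k ⊆ S) (h2 : ∀ k, B k ⊆ B (k + 1)) : ∃ k ≤ n, B (k + 1) ⊆ B k := by
  by_contra hc
  have h3 : ∀ k ≤ n + 1, k ≤ (B k).ncard := fun k hk => by
    induction k with
    | zero => exact Nat.zero_le _
    | succ k ih =>
      exact (ih (by omega)).trans_lt (ncard_lt_ncard ⟨h2 k, fun e => hc ⟨k, by omega, e⟩⟩
        (hS.subset (h1 _)))
  have h4 := (h3 _ le_rfl).trans (ncard_le_ncard (h1 _) hS)
  omega

theorem MS.reach (h : MS Y R Ri r C) (hQ : Cut Y (r / C) Q) (hd : Dns Y R) (N : ℕ) {y z : ℝ}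
    (hy : y ∈ Y) (hz : Node Y Q R N z) :
    ∃ k ≤ (Zs Y Q).ncard, ∃ (zs : ℕ → ℝ) (ts : ℕ → ℕ), zs k = z ∧
      (∀ i ≤ k, Node Y Q R N (zs i) ∧ ts i ≤ (Zs Y Q).ncard * (N + 1) + 2) ∧
      Same Q R N (R^[ts 0] y) (zs 0) ∧
      ∀ i < k, Same Q R N (R^[ts (i + 1)] (zs i)) (zs (i + 1)) := by
  have hi : InjOn (R^[N + 1]) {z | Node Y Q R N z} := fun a ha b hb e => h.inj_it _ ha.1 hb.1 e
  have nod : ∀ k z, Split_P Y Q R N ((Zs Y Q).ncard * (N + 1) + 2) y k z → Node Y Q R N z := by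
    rintro k _ ⟨zs, ts, rfl, h1, -⟩
    exact (h1 k le_rfl).1
  obtain ⟨k, hk, hB⟩ := Split_stat (S := {z | Node Y Q R N z})
    (Finite.of_injOn (fun a ha => ha.2) hi (Zs_finite hQ))
    (ncard_le_ncard_of_injOn _ (fun a ha => ha.2) hi (Zs_finite hQ))
    (B := fun k => {z | ∃ k' ≤ k, Split_P Y Q R N ((Zs Y Q).ncard * (N + 1) + 2) y k' z})
    (fun _ z ⟨k', _, hz⟩ => nod k' z hz) fun _ z ⟨k', h1, hz⟩ => ⟨k', h1.trans (Nat.le_succ _), hz⟩
  set S := {z | ∃ k' ≤ k, Split_P Y Q R N ((Zs Y Q).ncard * (N + 1) + 2) y k' z}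
  have vY : ∀ v, (v = y ∨ ∃ z ∈ S, v = R z) → v ∈ Y := by
    rintro _ (rfl | ⟨z, ⟨k', -, hz⟩, rfl⟩)
    · exact hy
    · exact h.mR z (nod k' z hz).1
  have key : ∀ v (t : ℕ), (v = y ∨ ∃ z ∈ S, v = R z) →
      (∀ t' < t, ¬ ∃ z, Node Y Q R N z ∧ Same Q R N (R^[t'] v) z) →
      ∀ z, Node Y Q R N z → Same Q R N (R^[t] v) z → z ∈ S := fun v t hv ht z hz hs => by
    obtain ⟨t0, h1, h2⟩ := h.first_split hQ N (vY v hv)
    have h3 : t ≤ t0 := not_lt.1 fun k => ht t0 k h2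
    rcases hv with rfl | ⟨z', ⟨k', h4, h5⟩, rfl⟩
    · exact ⟨0, k.zero_le, fun _ => z, fun _ => t, rfl, fun _ _ => ⟨hz, (h3.trans h1).trans (Nat.le_succ _)⟩, hs,
        fun i hi => absurd hi i.not_lt_zero⟩
    · exact hB ⟨k' + 1, Nat.succ_le_succ h4, h5.ext hz (t := t + 1) (by omega) hs⟩
  have orb : ∀ j : ℕ, ∃ v, ∃ t : ℕ, (v = y ∨ ∃ z ∈ S, v = R z) ∧
      (∀ t' < t, ¬ ∃ z, Node Y Q R N z ∧ Same Q R N (R^[t'] v) z) ∧
      Same Q R N (R^[t] v) (R^[j] y) := fun j => by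
    induction j with
    | zero => exact ⟨y, 0, Or.inl rfl, fun i hi => absurd hi i.not_lt_zero, Same.refl h hQ N hy⟩
    | succ j ih =>
      obtain ⟨v, t, hv, ht, hs⟩ := ih
      rw [Function.iterate_succ_apply']
      by_cases hc : ∃ z, Node Y Q R N z ∧ Same Q R N (R^[t] v) z
      · obtain ⟨z1, h1, h2⟩ := hc
        obtain ⟨z2, h3, h4⟩ : ∃ z2, Node Y Q R N z2 ∧ Same Q R (N + 1) (R^[j] y) z2 := by
          by_cases h5 : Same Q R (N + 1) (R^[j] y) z1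
          · exact ⟨z1, h1, h5⟩
          · exact h.near_node hQ (h.it j hy) h1.1 (hs.symm.trans h2) h5
        exact ⟨R z2, 0, Or.inr ⟨z2, key v t hv ht z2 h3 (hs.trans (h4.mono N.le_succ)), rfl⟩,
          fun i hi => absurd hi i.not_lt_zero, (Split_step h4).symm⟩
      · refine ⟨v, t + 1, hv, fun t' ht' => ?_, ?_⟩
        · rcases Nat.lt_succ_iff_lt_or_eq.1 ht' with k | rfl
          · exact ht t' k
          · exact hc
        · rw [Function.iterate_succ_apply']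
          exact Split_next h hQ (h.it j hy) (h.it t (vY v hv)) hs hc
  obtain ⟨δ, hδ, hb⟩ := Metric.mem_nhdsWithin_iff.1 (h.same_nhds hQ N hz.1)
  obtain ⟨j, hj⟩ := hd z hz.1 δ hδ y hy
  obtain ⟨v, t, hv, ht, hs⟩ := orb j
  obtain ⟨k', h1, h2⟩ := key v t hv ht z hz (hs.trans (Same.symm (hb ⟨hj, h.it j hy⟩)))
  exact ⟨k', h1.trans hk, h2⟩

end Pool.Agent.Work.MP_1ce82a_an
end

-- merged part: Pool.Agent.Work.MP_1ce82a_an.M.Conn
section
/-! Cheap connections between arbitrary points and the backward orbits of end points of cut gaps.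
PLAN. go: among z and the points R^[q] z, q <= N + 1, lying in uIoo w z choose one nearest to w, say R^[q] z; zin (with M and j = N + 1 - q) gives q <= s; conv and move.
conn: kappa = ncard, W1 = hi - lo + 1, p0 with (kappa + 1) (W1^2 + W1)/p0 <= eps, N0 from ab, H >= max n0 N0, n = H p0, N = 2^(kappa+1) n, target node Ri^[N+1] e, path from reach. Induction on i <= k: there are w, s and a pseudo orbit from y to w with at most (i+1) T steps and costs at most i times those of move,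
s + n <= 2^i n and Same (N - s) w (zs i). If s + n <= ts (i+1) use go, follow the orbit of zs i up to time ts (i+1), new s = 0; otherwise follow the orbit of w for ts (i+1) steps, new s = s + ts (i+1). At the end go, and follow up to time N + 1 - n. A = (kappa+1) (kappa (2^(kappa+1) + 1) + 2) + 2^(kappa+1) + 1 works. -/

open Set Filter Topology

namespace Pool.Agent.Work.MP_1ce82a_an

variable {Y : Set ℝ} {R Ri : ℝ → ℝ} {r C : ℝ} {Q : Finset ℝ}

theorem Conn_mem {w z z' x : ℝ} (h : z' ∈ uIcc w z) (hx : x ∈ uIoo w z') :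
    x ∈ uIoo w z ∧ |x - w| < |z' - w| := by
  rw [mem_uIcc] at h
  rcases h with h | h
  · rw [uIoo_of_le h.1] at hx
    rw [uIoo_of_le (h.1.trans h.2), abs_of_nonneg (sub_nonneg.2 hx.1.le),
      abs_of_nonneg (sub_nonneg.2 h.1)]
    exact ⟨⟨hx.1, hx.2.trans_le h.2⟩, by linarith only [hx, hx.2]⟩
  · rw [uIoo_of_ge h.2] at hx
    rw [uIoo_of_ge (h.1.trans h.2), abs_of_nonpos (sub_nonpos.2 hx.2.le),
      abs_of_nonpos (sub_nonpos.2 h.2)]
    exact ⟨⟨h.1.trans_lt hx.1, hx.2⟩, by linarith only [hx, hx.1]⟩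

theorem MS.go (h : MS Y R Ri r C) (hQ : Cut Y (r / C) Q) {p0 N0 H N s : ℕ} (hp : 1 ≤ p0)
    (hH : 1 ≤ H) (hab : ∀ a ∈ Y, ∀ p : ℕ, 1 ≤ p → p ≤ p0 → ¬ Same Q R N0 a (R^[p] a))
    {lo hi : ℝ} (hY : Y ⊆ Icc lo hi) {w z : ℝ} (hw : w ∈ Y) (hz : Node Y Q R N z)
    (hs : Same Q R (N - s) w z) (hM : s + H * p0 + N0 ≤ N) (φ : ℝ → ℝ) :
    ∃ q ≤ s, ∃ S, PS Y R φ w (R^[q + H * p0] z) (H * p0) ((hi - lo + 1) ^ 2 / (H * p0 ^ 2))
      ((hi - lo + 1) / p0) S := by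
  classical
  obtain ⟨q, hq, hmin⟩ := Finset.exists_min_image
    ((Finset.range (N + 2)).filter fun q => q = 0 ∨ R^[q] z ∈ uIoo w z) (fun q => |R^[q] z - w|)
    ⟨0, Finset.mem_filter.2 ⟨Finset.mem_range.2 (by omega), .inl rfl⟩⟩
  obtain ⟨q1, q2⟩ := Finset.mem_filter.1 hq
  rw [Finset.mem_range] at q1
  have hqY := h.it q hz.1
  have qs : q ≤ s := by
    rcases q2 with q2 | q2
    · omega
    · by_contra hn
      refine h.zin hQ (j := N + 1 - q) hw hz.1 hqY hs (by omega) ?_ q2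
      rw [← Function.iterate_add_apply, show N + 1 - q + q = N + 1 by omega]
      exact hz.2
  have qm : R^[q] z ∈ uIcc w z := by
    rcases q2 with rfl | q2
    exacts [right_mem_uIcc, Ioo_subset_Icc_self q2]
  refine ⟨q, qs, ?_⟩
  rw [add_comm q, Function.iterate_add_apply]
  refine h.move hQ hp hH hab hY hw hqY (h.conv hQ hw hz.1 hs ⟨hw, left_mem_uIcc⟩ ⟨hqY, qm⟩)
    (by omega) (fun j j1 j2 hj => ?_) φ
  rw [← Function.iterate_add_apply] at hj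
  have k := Conn_mem qm hj
  exact k.2.not_ge (hmin _ (Finset.mem_filter.2 ⟨Finset.mem_range.2 (by omega), .inr k.1⟩))

theorem Conn_follow (h : MS Y R Ri r C) {φ : ℝ → ℝ} {w z c2 c1 S : ℝ} {q n t : ℕ} (hz : z ∈ Y)
    (h1 : PS Y R φ w (R^[q + n] z) n c2 c1 S) (ht : q + n ≤ t) :
    ∃ m ≤ t, ∃ S', PS Y R φ w (R^[t] z) m c2 c1 S' := by
  have k := h1.trans (h.orbit φ (h.it (q + n) hz) (t - (q + n)))
  rw [← Function.iterate_add_apply, show t - (q + n) + (q + n) = t by omega, add_zero,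
    add_zero] at k
  exact ⟨_, by omega, _, k⟩

theorem MS.conn (h : MS Y R Ri r C) (hQ : Cut Y (r / C) Q) (hd : Dns Y R) :
    ∃ A : ℕ, ∀ (φ : ℝ → ℝ) (ε : ℝ), 0 < ε → ∀ n0 : ℕ, ∃ n : ℕ, n0 ≤ n ∧ ∀ y ∈ Y, ∀ e ∈ Zs Y Q,
      ∃ (k : ℕ) (S : ℝ), k ≤ A * n ∧ PS Y R φ y (Ri^[n] e) k (ε / n) ε S := by
  obtain ⟨κ, hκ⟩ : ∃ κ, (Zs Y Q).ncard = κ := ⟨_, rfl⟩
  obtain ⟨lo, hi, hlh, hY⟩ : ∃ lo hi : ℝ, lo ≤ hi ∧ Y ⊆ Icc lo hi := by
    obtain ⟨ρ, h0, hρ⟩ := h.cpt.isBounded.subset_closedBall_lt 0 0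
    rw [Real.closedBall_eq_Icc] at hρ
    exact ⟨_, _, by linarith only [h0], hρ⟩
  obtain ⟨W, hW⟩ : ∃ W, hi - lo + 1 = W := ⟨_, rfl⟩
  have W0 : 0 < W := by linarith only [hlh, hW]
  refine ⟨(κ + 1) * (κ * (2 ^ (κ + 1) + 1) + 2) + (2 ^ (κ + 1) + 1), fun φ ε hε n0 => ?_⟩
  obtain ⟨p0, hp, hpε⟩ : ∃ p0 : ℕ, 1 ≤ p0 ∧ (κ + 1) * (W ^ 2 + W) ≤ ε * p0 := by
    obtain ⟨p, hp⟩ := exists_nat_ge ((κ + 1) * (W ^ 2 + W) / ε)
    refine ⟨p + 1, by omega, ?_⟩
    rw [div_le_iff₀ hε] at hp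
    push_cast
    linarith only [hε, hp]
  obtain ⟨N0, hab⟩ := h.ab hQ p0
  obtain ⟨H, hH, H1, H2⟩ : ∃ H, 1 ≤ H ∧ n0 ≤ H ∧ N0 ≤ H := ⟨n0 + N0 + 1, by omega, by omega, by omega⟩
  have Hn : H ≤ H * p0 := Nat.le_mul_of_pos_right H hp
  refine ⟨H * p0, H1.trans Hn, fun y hy e he => ?_⟩
  have pR : (0 : ℝ) < p0 := by exact_mod_cast hp
  have HR : (0 : ℝ) < H := by exact_mod_cast hH
  have gf : ∀ {N s t : ℕ} {w z : ℝ}, w ∈ Y → Node Y Q R N z → Same Q R (N - s) w z →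
      s + H * p0 + N0 ≤ N → s + H * p0 ≤ t →
      ∃ m ≤ t, ∃ S, PS Y R φ w (R^[t] z) m (W ^ 2 / (H * p0 ^ 2)) (W / p0) S := by
    intro N s t w z hw hz hs hM ht
    obtain ⟨q, hq, S, k⟩ := h.go hQ hp hH hab hY hw hz hs hM φ
    rw [hW] at k
    exact Conn_follow h hz.1 k (by omega)
  have e2 : (κ + 1) * (W ^ 2 / (H * p0 ^ 2)) ≤ ε / (H * p0 : ℕ) := by
    push_cast
    rw [← mul_div_assoc, div_le_div_iff₀ (by positivity) (by positivity)]
    have a : (κ + 1) * W ^ 2 ≤ ε * p0 := le_trans (by gcongr; linarith only [hlh, hW]) hpε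
    calc (κ + 1) * W ^ 2 * (H * p0) ≤ ε * p0 * (H * p0) := by gcongr
      _ = ε * (H * p0 ^ 2) := by ring
  have e1 : (κ + 1) * (W / p0) ≤ ε := by
    rw [← mul_div_assoc, div_le_iff₀ pR]
    exact le_trans (by gcongr; linarith only [sq_nonneg W]) hpε
  have c2 : 0 ≤ W ^ 2 / (H * p0 ^ 2) := by positivity
  have c1 : 0 ≤ W / p0 := by positivity
  generalize W ^ 2 / (H * p0 ^ 2) = a2 at gf e2 c2
  generalize W / p0 = a1 at gf e1 c1
  have n1 : 1 ≤ H * p0 := hH.trans Hn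
  have nN : N0 ≤ H * p0 := H2.trans Hn
  generalize H * p0 = n at gf e2 n1 nN
  obtain ⟨N, hN⟩ : ∃ N, N = 2 ^ (κ + 1) * n := ⟨_, rfl⟩
  have pw : ∀ i ≤ κ, 2 ^ i * n + 2 ^ i * n ≤ N := fun i hi => by
    have a : 2 ^ i * n ≤ 2 ^ κ * n := Nat.mul_le_mul_right n (Nat.pow_le_pow_right two_pos hi)
    have c : N = 2 ^ κ * n + 2 ^ κ * n := by rw [hN]; ring
    omega
  have hz : Node Y Q R N (Ri^[N + 1] e) :=
    ⟨h.symm.it _ he.1, by rw [h.it_inv _ he.1]; exact he⟩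
  obtain ⟨k, hk, zs, ts, z1, z2, z3, z4⟩ := h.reach hQ hd N hy hz
  rw [hκ] at hk z2
  obtain ⟨T, hT⟩ : ∃ T, κ * (N + 1) + 2 = T := ⟨_, rfl⟩
  rw [hT] at z2
  have main : ∀ i ≤ k, ∃ w ∈ Y, ∃ s m S, m ≤ (i + 1) * T ∧
      PS Y R φ y w m (i * a2) (i * a1) S ∧ s + n ≤ 2 ^ i * n ∧ Same Q R (N - s) w (zs i) := by
    intro i
    induction i with
    | zero =>
      intro _
      refine ⟨_, h.it (ts 0) hy, 0, ts 0, _, by simpa using (z2 0 k.zero_le).2,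
        (h.orbit φ hy (ts 0)).mono (by simp) (by simp), by simp, z3⟩
    | succ i ih =>
      intro hi
      obtain ⟨w, hw, s, m, S, a, b, c, d⟩ := ih (by omega)
      have t1 := (z2 (i + 1) hi).2
      have p1 := pw i (by omega)
      have p2 : 2 ^ (i + 1) * n = 2 ^ i * n + 2 ^ i * n := by ring
      have p3 : (i + 1 + 1) * T = (i + 1) * T + T := by ring
      rcases le_or_gt (s + n) (ts (i + 1)) with x | x
      · obtain ⟨m', a', S', b'⟩ := gf hw (z2 i (by omega)).1 d (by omega) x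
        refine ⟨_, h.it _ (z2 i (by omega)).1.1, 0, m + m', _, by omega,
          (b.trans b').mono ?_ ?_, by omega, z4 i hi⟩
        · push_cast
          linarith only []
        · push_cast
          linarith only []
      · refine ⟨_, h.it (ts (i + 1)) hw, s + ts (i + 1), m + ts (i + 1), _, by omega,
          (b.trans (h.orbit φ hw (ts (i + 1)))).mono ?_ ?_, by omega,
          (d.shift (M := N - (s + ts (i + 1))) (by omega)).trans
            ((z4 i hi).mono (Nat.sub_le _ _))⟩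
        · push_cast
          linarith only [c2]
        · push_cast
          linarith only [c1]
  obtain ⟨w, hw, s, m, S, a, b, c, d⟩ := main k le_rfl
  have p1 := pw k hk
  rw [z1] at d
  obtain ⟨m', a', S', b'⟩ := gf (t := N + 1 - n) hw hz d (by omega) (by omega)
  have e3 : R^[N + 1 - n] (Ri^[N + 1] e) = Ri^[n] e := by
    rw [← h.it_inv (N + 1 - n) (h.symm.it n he.1), ← Function.iterate_add_apply,
      show N + 1 - n + n = N + 1 by omega]
  rw [e3] at b'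
  have kκ : (k : ℝ) ≤ κ := by exact_mod_cast hk
  refine ⟨m + m', _, ?_, (b.trans b').mono (le_trans ?_ e2) (le_trans ?_ e1)⟩
  · have f1 : N + 1 ≤ (2 ^ (κ + 1) + 1) * n := by rw [add_mul, ← hN]; omega
    have f2 : T ≤ (κ * (2 ^ (κ + 1) + 1) + 2) * n := by
      rw [← hT, add_mul, mul_assoc]
      exact add_le_add (Nat.mul_le_mul_left κ f1) (by omega)
    have f3 : (k + 1) * T ≤ (κ + 1) * ((κ * (2 ^ (κ + 1) + 1) + 2) * n) :=
      Nat.mul_le_mul (by omega) f2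
    rw [add_mul, mul_assoc]
    omega
  · linarith only [c2, kκ, mul_nonneg_of_nonpos_of_nonpos (Mathlib.Tactic.Linarith.sub_nonpos_of_le c2) (Mathlib.Tactic.Linarith.sub_nonpos_of_le kκ)]
  · linarith only [c1, kκ, mul_nonneg_of_nonpos_of_nonpos (Mathlib.Tactic.Linarith.sub_nonpos_of_le c1) (Mathlib.Tactic.Linarith.sub_nonpos_of_le kκ)]

end Pool.Agent.Work.MP_1ce82a_an
end

-- merged part: Pool.Agent.Work.MP_1ce82a_an.M.Part
section
/-! Forward partners of one side isolated points.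
PLAN. OS is invariant: if R a is approached by points of Y from both sides, their images under Ri approach a (lipRi) from both sides (monRi). Big is finite: at most two extreme points, and end points of gaps longer than rho form a finite set (for example a left end point is determined by the integer part of its quotient by rho; Y is bounded).
A point of OS which is not in Big has a neighbour in the sense of Adj at distance at most rho (nearest point of the compact set Y on the isolated side). adj_uniq: both neighbours on the same side coincide, on opposite sides a would be isolated.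
fa_of: induction, using adj, and that R^[j+1] a is not in Big so that its gap (adj_uniq) is short. part_ex: the orbit meets Big finitely often (orb_inj); pull the neighbour of R^[J] a back by Ri^[J]. not_orb: if R^[m] a = R^[n] b, compare the neighbours at large times: some R^[2d] with d > 0 has a fixed point, or two adjacent points are equal. -/

open Set Filter Topology

namespace Pool.Agent.Work.MP_1ce82a_an

variable {Y : Set ℝ} {R Ri : ℝ → ℝ} {r C : ℝ} {Q : Finset ℝ}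

/-- One side isolated points. -/
def OS (Y : Set ℝ) (a : ℝ) : Prop :=
  a ∈ Y ∧ ∃ ν : ℝ, 0 < ν ∧ ((∀ y ∈ Y, y ∉ Ioo (a - ν) a) ∨ ∀ y ∈ Y, y ∉ Ioo a (a + ν))

/-- Extreme points and end points of long gaps. -/
def Big (Y : Set ℝ) (ρ : ℝ) : Set ℝ :=
  {a | a ∈ Y ∧ ((∀ y ∈ Y, a ≤ y) ∨ (∀ y ∈ Y, y ≤ a) ∨ ∃ b, Adj Y a b ∧ ρ < |b - a|)}

/-- Eventually adjacent points. -/
def Part (Y : Set ℝ) (R : ℝ → ℝ) (r a b : ℝ) : Prop :=
  a ∈ Y ∧ b ∈ Y ∧ ∃ J : ℕ, FA Y R r (R^[J] a) (R^[J] b)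

theorem Part_mem {x a b : ℝ} : x ∈ uIoo a b ↔ a < x ∧ x < b ∨ b < x ∧ x < a := by
  rw [uIoo, mem_Ioo, inf_lt_iff, lt_sup_iff]
  grind

theorem Part_fin (hY : IsCompact Y) {ρ : ℝ} (hρ : 0 < ρ) {S : Set ℝ} (hS : S ⊆ Y)
    (h : ∀ a ∈ S, ∀ b ∈ S, a < b → a + ρ ≤ b) : S.Finite := by
  obtain ⟨lo, hl⟩ := hY.bddBelow
  obtain ⟨hi, hh⟩ := hY.bddAbove
  refine Finite.of_finite_image (f := fun a => ⌊a / ρ⌋) ((finite_Icc ⌊lo / ρ⌋ ⌊hi / ρ⌋).subset ?_)
    (StrictMonoOn.injOn fun a ha b hb k => ?_)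
  · rintro _ ⟨a, ha, rfl⟩
    exact ⟨Int.floor_mono (div_le_div_of_nonneg_right (hl (hS ha)) hρ.le),
      Int.floor_mono (div_le_div_of_nonneg_right (hh (hS ha)) hρ.le)⟩
  · have := Int.floor_mono (div_le_div_of_nonneg_right (h a ha b hb k) hρ.le)
    rwa [add_div, div_self hρ.ne', Int.floor_add_one] at this

theorem Adj.symm {a b : ℝ} (h : Adj Y a b) : Adj Y b a := by
  exact ⟨h.2.1, h.1, h.2.2.1.symm, fun x hx => uIoo_comm a b ▸ h.2.2.2 x hx⟩

theorem Adj.os {a b : ℝ} (h : Adj Y a b) : OS Y a := by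
  rcases h.2.2.1.lt_or_gt with k | k
  · exact ⟨h.1, b - a, sub_pos.2 k, .inr fun y hy e =>
      h.2.2.2 y hy (Part_mem.2 (.inl ⟨e.1, by linarith [e.2]⟩))⟩
  · exact ⟨h.1, a - b, sub_pos.2 k, .inl fun y hy e =>
      h.2.2.2 y hy (Part_mem.2 (.inr ⟨by linarith [e.1], e.2⟩))⟩

theorem FA.symm {ρ a b : ℝ} (h : FA Y R ρ a b) : FA Y R ρ b a := by
  exact fun j => ⟨(h j).1.symm, abs_sub_comm (R^[j] b) _ ▸ (h j).2⟩

theorem FA.shift {ρ a b : ℝ} (h : FA Y R ρ a b) (n : ℕ) : FA Y R ρ (R^[n] a) (R^[n] b) := by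
  intro j
  rw [← Function.iterate_add_apply, ← Function.iterate_add_apply]
  exact h _

theorem Part_os (h : MS Y R Ri r C) {a : ℝ} (ha : OS Y a) : OS Y (R a) := by
  obtain ⟨ha, ν, hν, k⟩ := ha
  have hC : 0 < C := one_pos.trans_le h.C_ge
  have m := h.mR a ha
  refine ⟨m, min r (ν / C), lt_min h.r_pos (div_pos hν hC), by_contra fun e => ?_⟩
  push Not at e
  obtain ⟨⟨y, hy, y1, y2⟩, z, hz, z1, z2⟩ := e
  have l1 := min_le_left r (ν / C)
  have l2 := min_le_right r (ν / C)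
  have key : ∀ w ∈ Y, |w - R a| < min r (ν / C) → a - ν < Ri w ∧ Ri w < a + ν := fun w hw j => by
    have := h.lipRi _ m w hw (j.le.trans l1)
    rw [h.inv1 a ha] at this
    have := abs_lt.1 (this.trans_lt ((lt_div_iff₀' hC).1 (j.trans_le l2)))
    exact ⟨by linarith only [this, this.1], by linarith only [this, this.2]⟩
  have ky := key y hy (abs_lt.2 ⟨by linarith only [y1], by linarith only [y1, y2]⟩)
  have kz := key z hz (abs_lt.2 ⟨by linarith only [y1, y2, z1], by linarith only [z2]⟩)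
  have my : y ∈ Y ∩ Icc (R a - r) (R a + r) := ⟨hy, by linarith only [y1, l1], by linarith only [y1, y2, l1, h.r_pos]⟩
  have mz : z ∈ Y ∩ Icc (R a - r) (R a + r) := ⟨hz, by linarith only [y1, y2, z1, l1, h.r_pos], by linarith only [z2, l1]⟩
  have ma : R a ∈ Y ∩ Icc (R a - r) (R a + r) :=
    ⟨m, by linarith only [y1, y2, l1, h.r_pos], by linarith only [y1, y2, l1, h.r_pos]⟩
  rcases h.monRi _ m with j | j
  · have j1 := j my ma y2
    have j2 := j ma mz z1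
    rw [h.inv1 a ha] at j1 j2
    exact k.elim (fun k => k _ (h.mRi y hy) ⟨ky.1, j1⟩) fun k => k _ (h.mRi z hz) ⟨j2, kz.2⟩
  · have j1 := j my ma y2
    have j2 := j ma mz z1
    rw [h.inv1 a ha] at j1 j2
    exact k.elim (fun k => k _ (h.mRi z hz) ⟨kz.1, j2⟩) fun k => k _ (h.mRi y hy) ⟨j1, ky.2⟩

theorem MS.os_it (h : MS Y R Ri r C) (n : ℕ) {a : ℝ} (ha : OS Y a) : OS Y (R^[n] a) := by
  induction n with
  | zero => exact ha
  | succ n ih => rw [Function.iterate_succ_apply']; exact Part_os h ih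

theorem os_ne (hY : IsCompact Y) (hne : Y.Nonempty) : ∃ a, OS Y a := by
  obtain ⟨a, ha, k⟩ := hY.exists_isLeast hne
  exact ⟨a, ha, 1, one_pos, .inl fun y hy e => (k hy).not_gt e.2⟩

theorem big_finite (hY : IsCompact Y) {ρ : ℝ} (hρ : 0 < ρ) : (Big Y ρ).Finite := by
  refine ((Part_fin hY hρ (S := {a ∈ Y | ∀ y ∈ Y, y ∉ Ioo (a - ρ) a}) (fun _ k => k.1)
    fun a ha b hb k => ?_).union (Part_fin hY hρ (S := {a ∈ Y | ∀ y ∈ Y, y ∉ Ioo a (a + ρ)})
      (fun _ k => k.1) fun a ha b hb k => ?_)).subset ?_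
  · exact le_of_not_gt fun j => hb.2 a ha.1 ⟨by linarith only [j], k⟩
  · exact le_of_not_gt fun j => ha.2 b hb.1 ⟨k, j⟩
  · rintro a ⟨ha, k | k | ⟨b, hb, k⟩⟩
    · exact .inl ⟨ha, fun y hy e => (k y hy).not_gt e.2⟩
    · exact .inr ⟨ha, fun y hy e => (k y hy).not_gt e.1⟩
    · rcases lt_abs.1 k with j | j
      · exact .inr ⟨ha, fun y hy e =>
          hb.2.2.2 y hy (Part_mem.2 (.inl ⟨e.1, by linarith [e.2]⟩))⟩
      · exact .inl ⟨ha, fun y hy e =>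
          hb.2.2.2 y hy (Part_mem.2 (.inr ⟨by linarith [e.1], e.2⟩))⟩

theorem adj_uniq (hn : NoIso Y) {a b c : ℝ} (h1 : Adj Y a b) (h2 : Adj Y a c) : b = c := by
  obtain ⟨y, hy, ne, k⟩ := hn a h1.1 (min |b - a| |c - a|)
    (lt_min (abs_pos.2 (sub_ne_zero.2 h1.2.2.1.symm)) (abs_pos.2 (sub_ne_zero.2 h2.2.2.1.symm)))
  obtain ⟨k1, k2⟩ := lt_min_iff.1 k
  have a1 := h1.2.2.2 y hy
  have a2 := h2.2.2.2 y hy
  have a3 := h1.2.2.2 c h2.2.1
  have a4 := h2.2.2.2 b h1.2.1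
  rw [Part_mem] at a1 a2 a3 a4
  rw [abs_lt, lt_abs] at *
  rcases abs_cases (b - a) with e | e <;> rcases abs_cases (c - a) with e' | e' <;> grind

theorem adj_ex (hY : IsCompact Y) {ρ a : ℝ} (ha : OS Y a) (hb : a ∉ Big Y ρ) :
    ∃ b, Adj Y a b ∧ |b - a| ≤ ρ := by
  obtain ⟨ha, ν, hν, k⟩ := ha
  suffices ∃ b, Adj Y a b from
    let ⟨b, e⟩ := this; ⟨b, e, le_of_not_gt fun j => hb ⟨ha, .inr (.inr ⟨b, e, j⟩)⟩⟩
  rcases k with k | k
  · obtain ⟨y, hy, j⟩ : ∃ y ∈ Y, y < a := by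
      by_contra e
      push Not at e
      exact hb ⟨ha, .inl e⟩
    have m : ∀ y ∈ Y, y < a → y ∈ Y ∩ Iic (a - ν) := fun y hy j =>
      ⟨hy, le_of_not_gt fun e => k y hy ⟨e, j⟩⟩
    obtain ⟨b, ⟨b1, b2⟩, b3⟩ := (hY.inter_right isClosed_Iic).exists_isGreatest ⟨y, m y hy j⟩
    have b4 : b < a := b2.trans_lt (by linarith)
    exact ⟨b, ha, b1, b4.ne', fun x hx e => (Part_mem.1 e).elim (fun e => by linarith [e.1, e.2])
      fun e => (b3 (m x hx e.2)).not_gt e.1⟩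
  · obtain ⟨y, hy, j⟩ : ∃ y ∈ Y, a < y := by
      by_contra e
      push Not at e
      exact hb ⟨ha, .inr (.inl e)⟩
    have m : ∀ y ∈ Y, a < y → y ∈ Y ∩ Ici (a + ν) := fun y hy j =>
      ⟨hy, le_of_not_gt fun e => k y hy ⟨j, e⟩⟩
    obtain ⟨b, ⟨b1, b2⟩, b3⟩ := (hY.inter_right isClosed_Ici).exists_isLeast ⟨y, m y hy j⟩
    have b4 : a < b := lt_of_lt_of_le (by linarith) b2
    exact ⟨b, ha, b1, b4.ne, fun x hx e => (Part_mem.1 e).elim
      (fun e => (b3 (m x hx e.1)).not_gt e.2) fun e => by linarith only [b4, e, e.1, e.2]⟩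

theorem MS.fa_of (h : MS Y R Ri r C) {a b : ℝ} (hab : Adj Y a b)
    (hb : ∀ j : ℕ, R^[j] a ∉ Big Y (r / C)) : FA Y R r a b := by
  have le : ∀ j, Adj Y (R^[j] a) (R^[j] b) → |R^[j] b - R^[j] a| ≤ r / C := fun j e =>
    le_of_not_gt fun k => hb j ⟨e.1, .inr (.inr ⟨_, e, k⟩)⟩
  have key : ∀ j, Adj Y (R^[j] a) (R^[j] b) := fun j => by
    induction j with
    | zero => exact hab
    | succ j ih =>
      rw [Function.iterate_succ_apply', Function.iterate_succ_apply']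
      exact h.adj ih (le j ih)
  exact fun j => ⟨key j, (le j (key j)).trans (div_le_self h.r_pos.le h.C_ge)⟩

theorem MS.part_ex (h : MS Y R Ri r C) {a : ℝ} (ha : OS Y a) : ∃ b, Part Y R r a b := by
  obtain ⟨J, hJ⟩ := ((big_finite h.cpt (div_pos h.r_pos (one_pos.trans_le h.C_ge))).preimage
    (f := fun j : ℕ => R^[j] a) fun i _ j _ e => h.orb_inj ha.1 e).bddAbove
  have nb : ∀ j, R^[j] (R^[J + 1] a) ∉ Big Y (r / C) := fun j e => by
    rw [← Function.iterate_add_apply] at e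
    have := hJ e
    omega
  obtain ⟨b, hb, -⟩ := adj_ex h.cpt (h.os_it (J + 1) ha) (nb 0)
  refine ⟨Ri^[J + 1] b, ha.1, h.symm.it _ hb.2.1, J + 1, ?_⟩
  rw [h.it_inv _ hb.2.1]
  exact h.fa_of hb nb

theorem Part_ev {a b : ℝ} (h : Part Y R r a b) : ∃ J, ∀ j, J ≤ j → Adj Y (R^[j] a) (R^[j] b) := by
  obtain ⟨-, -, J, k⟩ := h
  refine ⟨J, fun j hj => ?_⟩
  obtain ⟨i, rfl⟩ := Nat.exists_eq_add_of_le' hj
  rw [Function.iterate_add_apply, Function.iterate_add_apply]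
  exact (k i).1

theorem MS.part_uniq (h : MS Y R Ri r C) (hn : NoIso Y) {a b c : ℝ} (h1 : Part Y R r a b)
    (h2 : Part Y R r a c) : b = c := by
  obtain ⟨I, hI⟩ := Part_ev h1
  obtain ⟨J, hJ⟩ := Part_ev h2
  exact h.inj_it (I + J) h1.2.1 h2.2.1 (adj_uniq hn (hI _ (by omega)) (hJ _ (by omega)))

theorem Part.symm {a b : ℝ} (h : Part Y R r a b) : Part Y R r b a := by
  obtain ⟨ha, hb, J, k⟩ := h
  exact ⟨hb, ha, J, k.symm⟩

theorem MS.part_os (h : MS Y R Ri r C) {a b : ℝ} (hp : Part Y R r a b) : OS Y b := by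
  obtain ⟨J, hJ⟩ := Part_ev hp
  exact h.inv_it J hp.2.1 ▸ h.symm.os_it J (hJ J le_rfl).symm.os

theorem MS.part_R (h : MS Y R Ri r C) {a b : ℝ} (hp : Part Y R r a b) (n : ℕ) :
    Part Y R r (R^[n] a) (R^[n] b) ∧ Part Y R r (Ri^[n] a) (Ri^[n] b) := by
  obtain ⟨ha, hb, J, k⟩ := hp
  refine ⟨⟨h.it n ha, h.it n hb, J, ?_⟩, h.symm.it n ha, h.symm.it n hb, J + n, ?_⟩
  · rw [← Function.iterate_add_apply, ← Function.iterate_add_apply, add_comm,
      Function.iterate_add_apply, Function.iterate_add_apply]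
    exact k.shift n
  · rwa [Function.iterate_add_apply, Function.iterate_add_apply, h.it_inv n ha, h.it_inv n hb]

theorem MS.not_orb (h : MS Y R Ri r C) (hn : NoIso Y) {a b : ℝ} (hp : Part Y R r a b) :
    ¬ Orb R a b := by
  rintro ⟨m, n, e⟩
  obtain ⟨J, hJ⟩ := Part_ev hp
  have e1 : ∀ k, R^[k + m] a = R^[k + n] b := fun k => by
    rw [Function.iterate_add_apply, e, Function.iterate_add_apply]
  have e2 : R^[J + m] b = R^[J + n] a :=
    adj_uniq hn (hJ (J + m) (by omega)) (e1 J ▸ (hJ (J + n) (by omega)).symm)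
  have e3 : R^[J + m + m] a = R^[n + (J + n)] a := by
    rw [e1, Function.iterate_add_apply R n, ← e2, ← Function.iterate_add_apply, add_comm n]
  obtain rfl : m = n := by have := h.orb_inj hp.1 e3; omega
  exact (hJ (J + m) (by omega)).2.2.1 e2.symm

theorem Part_orb (h : MS Y R Ri r C) {a b : ℝ} (ha : a ∈ Y) (hb : b ∈ Y) (k : Orb R a b) :
    Orb Ri a b := by
  obtain ⟨m, n, e⟩ := k
  refine ⟨n, m, ?_⟩
  rw [← h.inv_it m ha, ← Function.iterate_add_apply, e, add_comm, Function.iterate_add_apply,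
    h.inv_it n hb]

theorem MS.orb_equiv (h : MS Y R Ri r C) {a b : ℝ} (ha : a ∈ Y) (hb : b ∈ Y) :
    Orb R a b ↔ Orb Ri a b := by
  exact ⟨Part_orb h ha hb, Part_orb h.symm ha hb⟩

theorem Orb.symm {a b : ℝ} (h : Orb R a b) : Orb R b a := by
  obtain ⟨m, n, e⟩ := h
  exact ⟨n, m, e.symm⟩

theorem Orb.trans {a b c : ℝ} (h1 : Orb R a b) (h2 : Orb R b c) : Orb R a c := by
  obtain ⟨m, n, e⟩ := h1
  obtain ⟨p, q, e'⟩ := h2
  refine ⟨p + m, n + q, ?_⟩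
  rw [Function.iterate_add_apply, e, ← Function.iterate_add_apply, add_comm,
    Function.iterate_add_apply, e', Function.iterate_add_apply]

end Pool.Agent.Work.MP_1ce82a_an
end

-- merged part: Pool.Agent.Work.MP_1ce82a_an.M.Del
section
/-! The alternating sum over a crown is asymptotically zero for every function with quadratic growth on closed pseudo orbits.
PLAN. Q from exists_cut with S = the mid points of the gaps (Z' i, X' (i+1)), so Z' i is in Zs. A from conn; eps, n0 from PO.small with A' = 2 A + 4 + (sum of alpha and beta) and eta/(2k); n from conn with eps/4 and n >= max n0 n1 and 2 W^2/n <= eps/2, 2 W/n <= eps/2. Base point Ri^[n] (Z' 0).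
M i < n with gap of FA Ri at time M i at most W/n, M' i in [n, 2n) with gap at most W/n (gap_sum and pigeonhole). V i: base point to Ri^[n] (Z' i), then the orbit to v i = Ri^[M i + 1] (Z' i). U i: R^[M' i] (Z i) to the base point.
Loop 1: V i, step from v i to Ri^[M i] (Z' i), orbit_back, orbit (alpha i), orbit (M' i), U i. Loop 2: V i, step from v i to Ri^[M i] (X' (i+1)), orbit_back, then with i' = (i+1) mod k (X' (i+1) = X' i' by per) orbit (beta i'), orbit (M' i' - 1), step to R^[M' i'] (Z i'), U i'.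
Subtract, sum over i < k, and use that i -> (i+1) mod k permutes range k (Finset.sum_range_succ and sum_range_succ' applied to the function g (i mod k)). -/

open Set Filter Topology

namespace Pool.Agent.Work.MP_1ce82a_an

variable {Y : Set ℝ} {R Ri : ℝ → ℝ} {r C : ℝ} {Q : Finset ℝ}

theorem Del_cast {φ : ℝ → ℝ} {a b a' b' c2 c1 S S' : ℝ} {k k' : ℕ} (h : PS Y R φ a b k c2 c1 S)
    (ea : a = a') (eb : b = b') (ek : k = k') (eS : S = S') : PS Y R φ a' b' k' c2 c1 S' := by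
  subst ea eb ek eS
  exact h

theorem Del_sq {x g : ℝ} (hx : |x| ≤ g) : x ^ 2 ≤ g ^ 2 := by
  have h0 := abs_nonneg x
  have h1 : x ^ 2 = |x| ^ 2 := (sq_abs x).symm
  rw [h1]
  exact pow_le_pow_left₀ h0 hx 2

theorem Del_back (h : MS Y R Ri r C) (φ : ℝ → ℝ) {a b g : ℝ} (ha : a ∈ Y) (hb : b ∈ Y) (M : ℕ)
    (hg : |Ri^[M] b - Ri^[M] a| ≤ g) :
    PS Y R φ (Ri^[M + 1] a) b (M + 1) (g ^ 2) g
      (φ (Ri^[M + 1] a) + ∑ j ∈ Finset.range M, φ (Ri^[j + 1] b)) := by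
  have h1 := PS.step (R := R) φ (h.symm.it (M + 1) ha) (h.symm.it M hb)
  have e : R (Ri^[M + 1] a) = Ri^[M] a := by
    rw [Function.iterate_succ_apply']
    exact h.inv2 _ (h.symm.it M ha)
  rw [e] at h1
  have hg' : |Ri^[M] a - Ri^[M] b| ≤ g := by rwa [abs_sub_comm]
  have h2 := (h1.mono (Del_sq hg') hg').trans (h.orbit_back φ hb M)
  exact (Del_cast h2 rfl rfl (by omega) rfl).mono (by simp) (by simp)

theorem Del_fwd (h : MS Y R Ri r C) (φ : ℝ → ℝ) {a b g : ℝ} (ha : a ∈ Y) (hb : b ∈ Y) {M : ℕ}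
    (hM : 1 ≤ M) (hg : |R^[M] b - R^[M] a| ≤ g) :
    PS Y R φ a (R^[M] b) M (g ^ 2) g (∑ j ∈ Finset.range M, φ (R^[j] a)) := by
  obtain ⟨m, rfl⟩ : ∃ m, M = m + 1 := ⟨M - 1, by omega⟩
  have h1 := PS.step (R := R) φ (h.it m ha) (h.it (m + 1) hb)
  have e : R (R^[m] a) = R^[m + 1] a := by rw [Function.iterate_succ_apply']
  rw [e] at h1
  have hg' : |R^[m + 1] a - R^[m + 1] b| ≤ g := by rwa [abs_sub_comm]
  have h2 := (h.orbit φ ha m).trans (h1.mono (Del_sq hg') hg')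
  exact (Del_cast h2 rfl rfl rfl (Finset.sum_range_succ _ _).symm).mono (by simp) (by simp)

theorem Del_loop (h : MS Y R Ri r C) {φ : ℝ → ℝ} {B a b e g c2 c1 SV SU : ℝ}
    {kV kU M M' β : ℕ} (ha : a ∈ Y) (hb : b ∈ Y) (he : e ∈ Y) (hM : 1 ≤ M')
    (hV : PS Y R φ B (Ri^[M + 1] a) kV c2 c1 SV) (hU : PS Y R φ (R^[M'] e) B kU c2 c1 SU)
    (g1 : |Ri^[M] b - Ri^[M] a| ≤ g) (g2 : |R^[M'] e - R^[M'] (R^[β] b)| ≤ g) :
    PS Y R φ B B (kV + (M + 1) + β + M' + kU) (2 * c2 + 2 * g ^ 2) (2 * c1 + 2 * g)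
      (SV + (φ (Ri^[M + 1] a) + ∑ j ∈ Finset.range M, φ (Ri^[j + 1] b)) +
        ∑ j ∈ Finset.range β, φ (R^[j] b) + ∑ j ∈ Finset.range M', φ (R^[j] (R^[β] b)) + SU) := by
  have h1 := (((hV.trans (Del_back h φ ha hb M g1)).trans (h.orbit φ hb β)).trans
    (Del_fwd h φ (h.it β hb) he hM g2)).trans hU
  exact h1.mono (le_of_eq (by ring)) (le_of_eq (by ring))

theorem Del_pig {f : ℕ → ℝ} {W : ℝ} {n : ℕ} (hn : 1 ≤ n) {s : Finset ℕ} (hs : s.card = n)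
    (hf : ∑ j ∈ s, f j ≤ W) : ∃ j ∈ s, f j ≤ W / n := by
  have hne : s.Nonempty := Finset.card_pos.mp (by omega)
  have hp : (0 : ℝ) < n := by exact_mod_cast hn
  refine Finset.exists_le_of_sum_le hne ?_
  rw [Finset.sum_const, hs, nsmul_eq_mul, mul_div_cancel₀ _ hp.ne']
  exact hf

theorem Del_cyc {k : ℕ} (hk : 1 ≤ k) (g : ℕ → ℝ) :
    ∑ i ∈ Finset.range k, g ((i + 1) % k) = ∑ i ∈ Finset.range k, g i := by
  obtain ⟨m, rfl⟩ : ∃ m, k = m + 1 := ⟨k - 1, by omega⟩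
  rw [Finset.sum_range_succ, Finset.sum_range_succ', Nat.mod_self]
  congr 1
  refine Finset.sum_congr rfl fun i hi => ?_
  rw [Nat.mod_eq_of_lt (by have := Finset.mem_range.mp hi; omega)]

theorem Del_zs {a b : ℝ} (hab : Adj Y a b) (hm : (a + b) / 2 ∈ Q) : a ∈ Zs Y Q := by
  refine ⟨hab.1, _, hm, fun y hy hy' => hab.2.2.2 y hy ?_⟩
  rcases le_total a b with h1 | h1
  · rw [uIoo_of_le (by linarith only [h1])] at hy'
    rw [uIoo_of_le h1]
    exact ⟨hy'.1, by linarith only [h1, hy', hy'.2]⟩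
  · rw [uIoo_of_ge (by linarith only [h1])] at hy'
    rw [uIoo_of_ge h1]
    exact ⟨by linarith only [h1, hy', hy'.1], hy'.2⟩

theorem Del_mid {a b : ℝ} (hab : Adj Y a b) : (a + b) / 2 ∉ Y := by
  intro hy
  refine hab.2.2.2 _ hy ?_
  rcases lt_or_gt_of_ne hab.2.2.1 with h1 | h1
  · rw [uIoo_of_le h1.le]
    exact ⟨by linarith only [h1], by linarith only [h1]⟩
  · rw [uIoo_of_ge h1.le]
    exact ⟨by linarith only [h1], by linarith only [h1]⟩

theorem Del_per {D : CrD} (hD : Crown Y R Ri r D) {i : ℕ} (hi : i < D.k) :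
    D.X' (i + 1) = D.X' ((i + 1) % D.k) := by
  rcases Nat.lt_or_ge (i + 1) D.k with h1 | h1
  · rw [Nat.mod_eq_of_lt h1]
  · have e : i + 1 = D.k := by omega
    rw [e, Nat.mod_self, hD.per]

theorem Del_V (h : MS Y R Ri r C) {φ : ℝ → ℝ} {B a c2 c1 S : ℝ} {k n M : ℕ} (ha : a ∈ Y)
    (hM : M < n) (hV : PS Y R φ B (Ri^[n] a) k c2 c1 S) :
    ∃ S', PS Y R φ B (Ri^[M + 1] a) (k + (n - (M + 1))) c2 c1 S' := by
  obtain ⟨d, rfl⟩ : ∃ d, n = d + (M + 1) := ⟨n - (M + 1), by omega⟩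
  have h1 := hV.trans (h.orbit φ (h.symm.it (d + (M + 1)) ha) d)
  have e : R^[d] (Ri^[d + (M + 1)] a) = Ri^[M + 1] a := by
    rw [Function.iterate_add_apply]
    exact h.it_inv d (h.symm.it (M + 1) ha)
  exact ⟨_, (Del_cast h1 rfl e (by omega) rfl).mono (by simp) (by simp)⟩

theorem MS.del_small (h : MS Y R Ri r C) (ht : Thin Y) (hd : Dns Y R) {D : CrD}
    (hD : Crown Y R Ri r D) {φ : ℝ → ℝ} (hφ : PO Y R φ) {η : ℝ} (hη : 0 < η) (n1 : ℕ) :
    ∃ M M' : ℕ → ℕ, n1 ≤ M' 0 ∧ |Del R Ri D φ M M'| ≤ η := by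
  classical
  have hk := hD.k_pos
  have hkR : (0 : ℝ) < D.k := by exact_mod_cast hk
  have adjB : ∀ i < D.k, Adj Y (D.Z' i) (D.X' (i + 1)) := fun i hi => (hD.ba i hi 0).1
  have adjF : ∀ i < D.k, Adj Y (D.X i) (D.Z i) := fun i hi => (hD.fa i hi 0).1
  have hrC : 0 < r / C := div_pos h.r_pos (by linarith only [h, h.C_ge])
  obtain ⟨Q, hSQ, hQ⟩ := exists_cut h.cpt ht hrC
    ((Finset.range D.k).image fun i => (D.Z' i + D.X' (i + 1)) / 2) (by
      intro x hx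
      obtain ⟨i, hi, rfl⟩ := Finset.mem_image.mp hx
      exact Del_mid (adjB i (Finset.mem_range.mp hi)))
  have hZs : ∀ i < D.k, D.Z' i ∈ Zs Y Q := fun i hi =>
    Del_zs (adjB i hi) (hSQ (Finset.mem_image.mpr ⟨i, Finset.mem_range.mpr hi, rfl⟩))
  obtain ⟨lo, hi, hY⟩ : ∃ lo hi : ℝ, Y ⊆ Icc lo hi := by
    obtain ⟨lo, hlo⟩ := h.cpt.bddBelow
    obtain ⟨hi, hhi⟩ := h.cpt.bddAbove
    exact ⟨lo, hi, fun y hy => ⟨hlo hy, hhi hy⟩⟩
  have hl : lo ≤ hi := by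
    have := hY (adjB 0 hk).1
    exact this.1.trans this.2
  obtain ⟨W, hW⟩ : ∃ W : ℝ, W = hi - lo := ⟨_, rfl⟩
  have hW0 : 0 ≤ W := by linarith only [hl, hW]
  obtain ⟨A, hA⟩ := h.conn hQ hd
  obtain ⟨T, hT⟩ : ∃ T : ℕ, ∀ i < D.k, D.α i ≤ T ∧ D.β i ≤ T := by
    refine ⟨∑ i ∈ Finset.range D.k, (D.α i + D.β i), fun i hi => ?_⟩
    have := Finset.single_le_sum (f := fun i => D.α i + D.β i) (fun _ _ => Nat.zero_le _)
      (Finset.mem_range.mpr hi)
    beta_reduce at this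
    omega
  obtain ⟨ε, n0, hε, hn0, hsm⟩ := hφ.small (2 * A + 4 + T) (η := η / (2 * D.k)) (by positivity)
  obtain ⟨N, hN⟩ := exists_nat_ge (4 * (W ^ 2 + W) / ε)
  obtain ⟨n, hn, hcon⟩ := hA φ (ε / 4) (by positivity) (n0 + n1 + N)
  have hn1 : 1 ≤ n := by omega
  have hnR : (0 : ℝ) < n := by exact_mod_cast hn1
  have hNn : 4 * (W ^ 2 + W) ≤ n * ε := by
    have h1 : (N : ℝ) ≤ n := by exact_mod_cast (by omega : N ≤ n)
    exact (div_le_iff₀ hε).mp (hN.trans h1)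
  have cost2 : 2 * (ε / 4 / n) + 2 * (W / n) ^ 2 ≤ ε / n := by
    have h1 : (W / n) ^ 2 ≤ ε / 4 / n := by
      rw [div_pow, div_le_div_iff₀ (by positivity) hnR]
      have : W ^ 2 ≤ n * ε / 4 := by linarith only [hl, hW, hNn]
      linarith only [hl, hW, hNn, mul_nonneg_of_nonpos_of_nonpos (Mathlib.Tactic.Linarith.sub_nonpos_of_le (Mathlib.Tactic.Linarith.natCast_nonneg ℝ n)) (Mathlib.Tactic.Linarith.sub_nonpos_of_le hl), Mathlib.Tactic.Linarith.mul_zero_eq (Mathlib.Tactic.Linarith.sub_nonpos_of_le (Mathlib.Tactic.Linarith.natCast_nonneg ℝ n)) (sub_eq_zero_of_eq hW), mul_nonneg_of_nonpos_of_nonpos (Mathlib.Tactic.Linarith.sub_nonpos_of_le (Mathlib.Tactic.Linarith.natCast_nonneg ℝ n)) (Mathlib.Tactic.Linarith.sub_nonpos_of_le hNn)]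
    have h2 : ε / n = 4 * (ε / 4 / n) := by ring
    linarith only [h1, h2]
  have cost1 : 2 * (ε / 4) + 2 * (W / n) ≤ ε := by
    have h1 : W / n ≤ ε / 4 := by
      rw [div_le_iff₀ hnR]
      linarith only [hNn, sq_nonneg W, sq_nonneg W]
    linarith only [h1]
  have hg0 : 0 ≤ W / n := by positivity
  have hM : ∀ i, ∃ M : ℕ, i < D.k →
      M < n ∧ |Ri^[M] (D.X' (i + 1)) - Ri^[M] (D.Z' i)| ≤ W / n := by
    intro i
    by_cases hi' : i < D.k
    · have h1 := h.symm.gap_sum (hD.ba i hi') (Finset.range n) hl fun j _ =>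
        ⟨hY (h.symm.it j (adjB i hi').1), hY (h.symm.it j (adjB i hi').2.1)⟩
      rw [← hW] at h1
      obtain ⟨j, hj, hj'⟩ := Del_pig hn1 (Finset.card_range n) h1
      exact ⟨j, fun _ => ⟨Finset.mem_range.mp hj, hj'⟩⟩
    · exact ⟨0, fun h' => absurd h' hi'⟩
  have hM' : ∀ i, ∃ M : ℕ, i < D.k →
      n ≤ M ∧ M < 2 * n ∧ |R^[M] (D.Z i) - R^[M] (D.X i)| ≤ W / n := by
    intro i
    by_cases hi' : i < D.k
    · have h1 := h.gap_sum (hD.fa i hi') (Finset.Ico n (2 * n)) hl fun j _ =>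
        ⟨hY (h.it j (adjF i hi').1), hY (h.it j (adjF i hi').2.1)⟩
      rw [← hW] at h1
      obtain ⟨j, hj, hj'⟩ := Del_pig hn1 (by rw [Nat.card_Ico]; omega) h1
      exact ⟨j, fun _ => ⟨(Finset.mem_Ico.mp hj).1, (Finset.mem_Ico.mp hj).2, hj'⟩⟩
    · exact ⟨0, fun h' => absurd h' hi'⟩
  choose M hM using hM
  choose M' hM' using hM'
  have hB : Ri^[n] (D.Z' 0) ∈ Y := h.symm.it n (adjB 0 hk).1
  have hV : ∀ i, ∃ (kV : ℕ) (S : ℝ), i < D.k → kV + (M i + 1) ≤ A * n + n ∧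
      PS Y R φ (Ri^[n] (D.Z' 0)) (Ri^[M i + 1] (D.Z' i)) kV (ε / 4 / n) (ε / 4) S := by
    intro i
    by_cases hi' : i < D.k
    · obtain ⟨k, S, hk', hP⟩ := hcon _ hB _ (hZs i hi')
      obtain ⟨S', hS'⟩ := Del_V h (adjB i hi').1 (hM i hi').1 hP
      have := (hM i hi').1
      exact ⟨_, S', fun _ => ⟨by omega, hS'⟩⟩
    · exact ⟨0, 0, fun h' => absurd h' hi'⟩
  have hU : ∀ i, ∃ (kU : ℕ) (S : ℝ), i < D.k → kU ≤ A * n ∧
      PS Y R φ (R^[M' i] (D.Z i)) (Ri^[n] (D.Z' 0)) kU (ε / 4 / n) (ε / 4) S := by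
    intro i
    by_cases hi' : i < D.k
    · obtain ⟨k, S, hk', hP⟩ := hcon _ (h.it (M' i) (adjF i hi').2.1) _ (hZs 0 hk)
      exact ⟨k, S, fun _ => ⟨hk', hP⟩⟩
    · exact ⟨0, 0, fun h' => absurd h' hi'⟩
  choose kV SV hV using hV
  choose kU SU hU using hU
  have hTn : T ≤ T * n := Nat.le_mul_of_pos_right _ hn1
  have hexp : (2 * A + 4 + T) * n = 2 * (A * n) + 4 * n + T * n := by ring
  have L1 : ∀ i < D.k, |SV i + (φ (Ri^[M i + 1] (D.Z' i)) +
      ∑ j ∈ Finset.range (M i), φ (Ri^[j + 1] (D.Z' i))) +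
      ∑ j ∈ Finset.range (D.α i), φ (R^[j] (D.Z' i)) +
      ∑ j ∈ Finset.range (M' i), φ (R^[j] (D.Z i)) + SU i| ≤ η / (2 * D.k) := by
    intro i hi'
    have h1 := Del_loop h (β := D.α i) (g := W / n) (adjB i hi').1 (adjB i hi').1
      (adjF i hi').2.1 (by have := (hM' i hi').1; omega) (hV i hi').2 (hU i hi').2
      (by rw [sub_self, abs_zero]; exact hg0)
      (by rw [hD.eZ i hi', sub_self, abs_zero]; exact hg0)
    rw [hD.eZ i hi'] at h1
    refine hsm n (by omega) _ _ _ (by omega) ?_ (h1.mono cost2 cost1)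
    have := (hV i hi').1
    have := (hU i hi').1
    have := (hM' i hi').2.1
    have := (hT i hi').1
    omega
  have L2 : ∀ i < D.k, |SV i + (φ (Ri^[M i + 1] (D.Z' i)) +
      ∑ j ∈ Finset.range (M i), φ (Ri^[j + 1] (D.X' (i + 1)))) +
      ∑ j ∈ Finset.range (D.β ((i + 1) % D.k)), φ (R^[j] (D.X' ((i + 1) % D.k))) +
      ∑ j ∈ Finset.range (M' ((i + 1) % D.k)), φ (R^[j] (D.X ((i + 1) % D.k))) +
      SU ((i + 1) % D.k)| ≤ η / (2 * D.k) := by
    intro i hi'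
    have hi2 : (i + 1) % D.k < D.k := Nat.mod_lt _ hk
    have e1 := Del_per hD hi'
    have e2 : R^[D.β ((i + 1) % D.k)] (D.X' (i + 1)) = D.X ((i + 1) % D.k) := by
      rw [e1]
      exact hD.eX _ hi2
    have h1 := Del_loop h (β := D.β ((i + 1) % D.k)) (g := W / n) (adjB i hi').1 (adjB i hi').2.1
      (adjF _ hi2).2.1 (by have := (hM' _ hi2).1; omega) (hV i hi').2 (hU _ hi2).2
      (hM i hi').2 (by rw [e2]; exact (hM' _ hi2).2.2)
    rw [e2] at h1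
    rw [← e1]
    refine hsm n (by omega) _ _ _ (by omega) ?_ (h1.mono cost2 cost1)
    have := (hV i hi').1
    have := (hU _ hi2).1
    have := (hM' _ hi2).2.1
    have := (hT _ hi2).2
    omega
  refine ⟨M, M', by have := (hM' 0 hk).1; omega, ?_⟩
  have c1 := Del_cyc hk fun i => ∑ j ∈ Finset.range (D.β i), φ (R^[j] (D.X' i)) +
      ∑ j ∈ Finset.range (M' i), φ (R^[j] (D.X i)) + SU i
  have key : Del R Ri D φ M M' = ∑ i ∈ Finset.range D.k, ((SV i + (φ (Ri^[M i + 1] (D.Z' i)) +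
      ∑ j ∈ Finset.range (M i), φ (Ri^[j + 1] (D.Z' i))) +
      ∑ j ∈ Finset.range (D.α i), φ (R^[j] (D.Z' i)) +
      ∑ j ∈ Finset.range (M' i), φ (R^[j] (D.Z i)) + SU i) -
      (SV i + (φ (Ri^[M i + 1] (D.Z' i)) +
      ∑ j ∈ Finset.range (M i), φ (Ri^[j + 1] (D.X' (i + 1)))) +
      ∑ j ∈ Finset.range (D.β ((i + 1) % D.k)), φ (R^[j] (D.X' ((i + 1) % D.k))) +
      ∑ j ∈ Finset.range (M' ((i + 1) % D.k)), φ (R^[j] (D.X ((i + 1) % D.k))) +
      SU ((i + 1) % D.k))) := by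
    rw [← sub_eq_zero] at c1 ⊢
    rw [← c1, Del, ← Finset.sum_sub_distrib, ← Finset.sum_sub_distrib]
    refine Finset.sum_congr rfl fun i _ => ?_
    rw [Finset.sum_sub_distrib, Finset.sum_sub_distrib]
    ring
  rw [key]
  refine (Finset.abs_sum_le_sum_abs _ _).trans ?_
  refine (Finset.sum_le_card_nsmul _ _ (η / D.k) fun i hi' => ?_).trans ?_
  · have h1 := L1 i (Finset.mem_range.mp hi')
    have h2 := L2 i (Finset.mem_range.mp hi')
    refine (abs_sub _ _).trans ?_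
    have e : η / D.k = η / (2 * D.k) + η / (2 * D.k) := by field_simp; ring
    rw [e]
    exact add_le_add h1 h2
  · rw [Finset.card_range, nsmul_eq_mul, mul_div_cancel₀ _ hkR.ne']

end Pool.Agent.Work.MP_1ce82a_an
end

-- merged part: Pool.Agent.Work.MP_1ce82a_an.M.Crown
section
/-! Existence of a crown.
PLAN. On the subtype of points of OS let f a (b a) be the partner for R (for Ri, using MS.symm): involutions (part_uniq, Part.symm) which respect Orb (part_R; two points of Y are on one orbit iff one is R^[n] of the other) and move every orbit (not_orb, orb_equiv). Pass to the quotient by Orb and use dihedral.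
If some point a of OS has R^[j] a and Ri^[j] a outside Big for all j then its neighbour is both f a and b a (adj_ex, fa_of), so b (f a) = a. Otherwise the quotient is finite (each class meets the finite set Big) and the injective map b after f has a periodic point. Take the least period k (Nat.find, or Function.minimalPeriod).
o i = (b after f)^[i] o, y i = f (o i). Choose J with FA R (R^[J] (o i)) (R^[J] (y i)) and FA Ri (Ri^[J] (y i)) (Ri^[J] (o (i+1))) for i < k (FA.shift), and J >= m + n where R^[m] (o k) = R^[n] (o 0). X i = R^[J] (o i), Z i = R^[J] (y i), Z' i = Ri^[J] (y i), X' i = Ri^[J] (o i) for i > 0, X' 0 = Ri^[J] (o k),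
alpha i = 2 J, beta i = 2 J for i > 0, beta 0 = 2 J + m - n. -/

open Set Filter Topology

namespace Pool.Agent.Work.MP_1ce82a_an

variable {Y : Set ℝ} {R Ri : ℝ → ℝ} {r C : ℝ} {Q : Finset ℝ}

theorem dihedral {O : Type} {f b : O → O} (hf : Function.Involutive f) (hb : Function.Involutive b)
    (nf : ∀ x, f x ≠ x) (nb : ∀ x, b x ≠ x) (o : O) (i j : ℕ) :
    f ((b ∘ f)^[j] o) ≠ (b ∘ f)^[i] o := by
  have key : ∀ d j : ℕ, f ((b ∘ f)^[j] o) ≠ (b ∘ f)^[j + d] o := by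
    intro d
    induction d using Nat.twoStepInduction with
    | zero => exact fun j => nf _
    | one =>
      intro j e
      rw [Function.iterate_succ_apply'] at e
      exact nb _ e.symm
    | more d ih _ =>
      intro j e
      refine ih (j + 1) ?_
      have e2 : j + (d + 2) = (j + 1 + d) + 1 := by omega
      rw [e2, Function.iterate_succ_apply'] at e
      rw [Function.iterate_succ_apply', Function.comp_apply, e, Function.comp_apply, hb, hf]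
  intro e
  rcases le_total j i with k | k
  · obtain ⟨d, rfl⟩ := Nat.exists_eq_add_of_le k
    exact key d j e
  · obtain ⟨d, rfl⟩ := Nat.exists_eq_add_of_le k
    exact key d i (by rw [← e, hf])

theorem Crown_part (h : MS Y R Ri r C) (hn : NoIso Y) :
    ∃ f : {a // OS Y a} → {a // OS Y a}, (∀ a, Part Y R r a.1 (f a).1) ∧ Function.Involutive f ∧
      ∀ a c, Orb R a.1 c.1 → Orb R (f a).1 (f c).1 := by
  choose f hf using fun a : {a // OS Y a} => h.part_ex a.2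
  refine ⟨fun a => ⟨f a, h.part_os (hf a)⟩, hf,
    fun a => Subtype.ext (h.part_uniq hn (hf _) (hf a).symm), ?_⟩
  rintro a c ⟨m, n, e⟩
  have k := (h.part_R (hf a) m).1
  rw [e] at k
  exact ⟨m, n, h.part_uniq hn k (h.part_R (hf c) n).1⟩

theorem Crown_orb {a c : ℝ} {J : ℕ} (h : Orb R (R^[J] a) (R^[J] c)) : Orb R a c := by
  obtain ⟨m, n, e⟩ := h
  exact ⟨m + J, n + J, by rw [Function.iterate_add_apply, Function.iterate_add_apply, e]⟩

theorem Crown_ev {a c : ℝ} (h : Part Y R r a c) : ∀ᶠ J in atTop, FA Y R r (R^[J] a) (R^[J] c) := by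
  obtain ⟨-, -, J, hJ⟩ := h
  filter_upwards [eventually_ge_atTop J] with n hn
  obtain ⟨d, rfl⟩ := Nat.exists_eq_add_of_le' hn
  rw [Function.iterate_add_apply, Function.iterate_add_apply]
  exact hJ.shift d

theorem Crown_back (h : MS Y R Ri r C) (J d : ℕ) {y : ℝ} (hy : y ∈ Y) :
    R^[d + J] (Ri^[J] y) = R^[d] y := by
  rw [Function.iterate_add_apply, h.it_inv J hy]

theorem Crown_per (h : MS Y R Ri r C) (hne : Y.Nonempty) (hn : NoIso Y)
    {f b : {a // OS Y a} → {a // OS Y a}} (hf : ∀ a, Part Y R r a.1 (f a).1)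
    (hb : ∀ a, Part Y Ri r a.1 (b a).1) :
    ∃ (o : {a // OS Y a}) (k : ℕ), 1 ≤ k ∧ Orb R o.1 ((b ∘ f)^[k] o).1 := by
  by_cases hc : ∃ a : {a // OS Y a}, (∀ j : ℕ, R^[j] a.1 ∉ Big Y (r / C)) ∧
      ∀ j : ℕ, Ri^[j] a.1 ∉ Big Y (r / C)
  · obtain ⟨a, h1, h2⟩ := hc
    obtain ⟨c, hc, -⟩ := adj_ex h.cpt a.2 (h1 0)
    have e1 : (f a).1 = c := h.part_uniq hn (hf a) ⟨hc.1, hc.2.1, 0, h.fa_of hc h1⟩
    have k := hb (f a)
    rw [e1] at k
    have e2 : (b (f a)).1 = a.1 :=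
      h.symm.part_uniq hn k ⟨hc.2.1, hc.1, 0, (h.symm.fa_of hc h2).symm⟩
    exact ⟨a, 1, le_rfl, 0, 0, e2.symm⟩
  · have k : ∀ a : {a // OS Y a}, ∃ c ∈ Big Y (r / C), Orb R a.1 c := by
      intro a
      by_contra k
      refine hc ⟨a, fun j e => k ⟨_, e, j, 0, rfl⟩, fun j e => k ⟨_, e, 0, j, ?_⟩⟩
      exact (h.it_inv j a.2.1).symm
    choose c c1 c2 using k
    obtain ⟨o, ho⟩ := os_ne h.cpt hne
    obtain ⟨i, j, hij, e⟩ := Set.Finite.exists_lt_map_eq_of_forall_mem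
      (f := fun i : ℕ => c ((b ∘ f)^[i] ⟨o, ho⟩)) (fun i => c1 _)
      (big_finite h.cpt (div_pos h.r_pos (one_pos.trans_le h.C_ge)))
    obtain ⟨d, rfl⟩ := Nat.exists_eq_add_of_le' hij.le
    refine ⟨(b ∘ f)^[i] ⟨o, ho⟩, d, by omega, (c2 _).trans ?_⟩
    rw [← Function.iterate_add_apply, e]
    exact (c2 _).symm

theorem Crown_dih (h : MS Y R Ri r C) (hn : NoIso Y)
    {f b : {a // OS Y a} → {a // OS Y a}} (hf : ∀ a, Part Y R r a.1 (f a).1)
    (hb : ∀ a, Part Y Ri r a.1 (b a).1) (f2 : Function.Involutive f) (b2 : Function.Involutive b)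
    (f3 : ∀ a c, Orb R a.1 c.1 → Orb R (f a).1 (f c).1)
    (b3 : ∀ a c, Orb R a.1 c.1 → Orb R (b a).1 (b c).1) (o : {a // OS Y a}) (i j : ℕ) :
    ¬ Orb R ((b ∘ f)^[i] o).1 (f ((b ∘ f)^[j] o)).1 := by
  let S : Setoid {a // OS Y a} :=
    ⟨fun a c => Orb R a.1 c.1, fun _ => ⟨0, 0, rfl⟩, Orb.symm, Orb.trans⟩
  let F : Quotient S → Quotient S := Quotient.map f f3
  let B : Quotient S → Quotient S := Quotient.map b b3
  have sc : ∀ (n : ℕ) (a : {a // OS Y a}),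
      Quotient.mk S ((b ∘ f)^[n] a) = (B ∘ F)^[n] (Quotient.mk S a) := fun n =>
    Function.Semiconj.iterate_right (f := Quotient.mk S) (ga := b ∘ f) (gb := B ∘ F)
      (fun _ => rfl) n
  intro e
  refine dihedral (f := F) (b := B) ?_ ?_ ?_ ?_ (Quotient.mk S o) i j ?_
  · rintro ⟨a⟩
    exact congrArg (Quotient.mk S) (f2 a)
  · rintro ⟨a⟩
    exact congrArg (Quotient.mk S) (b2 a)
  · rintro ⟨a⟩ k
    exact h.not_orb hn (hf a) (Orb.symm (Quotient.exact k))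
  · rintro ⟨a⟩ k
    exact h.symm.not_orb hn (hb a)
      ((h.orb_equiv a.2.1 (b a).2.1).1 (Orb.symm (Quotient.exact k)))
  · rw [← sc, ← sc]
    exact Quotient.sound (s := S) e.symm

theorem MS.exists_crown (h : MS Y R Ri r C) (hne : Y.Nonempty) (hn : NoIso Y) :
    ∃ D : CrD, Crown Y R Ri r D := by
  classical
  obtain ⟨f, hf, f2, f3⟩ := Crown_part h hn
  obtain ⟨b, hb, b2, b3⟩ := Crown_part h.symm hn
  have b4 : ∀ a c, Orb R a.1 c.1 → Orb R (b a).1 (b c).1 := fun a c e =>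
    (h.orb_equiv (b a).2.1 (b c).2.1).2 (b3 a c ((h.orb_equiv a.2.1 c.2.1).1 e))
  obtain ⟨o, hk⟩ := Crown_per h hne hn hf hb
  obtain ⟨k1, n, m, e⟩ := Nat.find_spec hk
  have hmin : ∀ i < Nat.find hk, i ≠ 0 → ¬ Orb R o.1 ((b ∘ f)^[i] o).1 := fun i hi h0 k =>
    Nat.find_min hk hi ⟨by omega, k⟩
  generalize Nat.find hk = k at k1 e hmin
  obtain ⟨J, J1, J2, J3⟩ := (((eventually_all_finite (finite_lt_nat k)).2 fun i _ =>
    Crown_ev (hf ((b ∘ f)^[i] o))).and (((eventually_all_finite (finite_lt_nat k)).2 fun i _ =>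
    Crown_ev (hb (f ((b ∘ f)^[i] o)))).and (eventually_ge_atTop n))).exists
  refine ⟨⟨k, fun i => R^[J] ((b ∘ f)^[i] o).1, fun i => R^[J] (f ((b ∘ f)^[i] o)).1,
    fun i => if i = 0 then Ri^[J] ((b ∘ f)^[k] o).1 else Ri^[J] ((b ∘ f)^[i] o).1,
    fun i => Ri^[J] (f ((b ∘ f)^[i] o)).1, fun _ => J + J,
    fun i => if i = 0 then J - n + m + J else J + J⟩, k1, J1, fun i hi => ?_, fun i _ => ?_,
    fun i _ => ?_, ?_, fun i _ j _ k => ?_, fun i hi h0 k => ?_, fun i hi h0 k => ?_⟩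
  · simp only [if_neg (Nat.succ_ne_zero i), Function.iterate_succ_apply']
    exact J2 i hi
  · exact Crown_back h J J (f _).2.1
  · dsimp only
    split_ifs with h0
    · rw [Crown_back h J _ ((b ∘ f)^[k] o).2.1, Function.iterate_add_apply, ← e,
        ← Function.iterate_add_apply, Nat.sub_add_cancel J3, h0]
      rfl
    · exact Crown_back h J J ((b ∘ f)^[i] o).2.1
  · simp only [if_neg (Nat.one_le_iff_ne_zero.1 k1), if_true]
  · exact Crown_dih h hn hf hb f2 b2 f3 b4 o i j (Crown_orb k)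
  · exact hmin i hi h0 (Crown_orb k)
  · have k2 := f3 _ _ (Crown_orb k)
    rw [f2, f2] at k2
    exact hmin i hi h0 k2

end Pool.Agent.Work.MP_1ce82a_an
end

-- merged part: Pool.Agent.Work.MP_1ce82a_an.M.End
section
/-! The crown theorem.
PLAN. exists_pq: Y is infinite, so some y in Y is outside the finite middle set, and a ball of radius d <= delta/2 about y misses it. Flip gives z, n, rho. The gaps of the pair (X 0, Z 0) tend to zero (gap_sum gives summability); by Dns applied to R^[J] (X 0) and contOn there is j with R^[j] (X 0), R^[j] (Z 0) in the ball of radius rho about z and all four points at times j, j + n within d of y.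
The gaps at times j and j + n lie on opposite sides. Let u (time a, neighbour v < u) and u' (time b, neighbour v' > u'). If u < u' take p = u, q = u'. Otherwise u' < u (u = u' contradicts orb_inj), v' <= u, v' is not u (dXZ), so v' <= v, v' is not v, take p = v', q = v.
del_tt: gap_sum for R and for MS.symm. del_G: every pair in the first and third sums is a gap; both ends outside: 0; both inside: at most Lam G0 times the length, total at most q - p for each of the 2 k families (gap_sum); one end inside: that end is p or q, which by dXZ, dX, dZ, per and aper happens only in the forward family 0 at times a and b.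
Write the forward sum for i = 0 as the terms a, b plus the sum over the rest. crown_thm: p0 with Lam D0/(p0 t0) <= 1/2, delta <= 1/(4 k Lam) and from slope; nu = the smaller of the two outer gaps; eta = G0/2. -/

open Set Filter Topology

namespace Pool.Agent.Work.MP_1ce82a_an

variable {Y : Set ℝ} {R Ri : ℝ → ℝ} {r C : ℝ} {Q : Finset ℝ}

theorem End_box (h : MS Y R Ri r C) : ∃ lo hi : ℝ, lo ≤ hi ∧ Y ⊆ Icc lo hi := by
  obtain ⟨a, ha⟩ := h.cpt.bddBelow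
  obtain ⟨b, hb⟩ := h.cpt.bddAbove
  exact ⟨a, max a b, le_max_left _ _, fun y hy => ⟨ha hy, (hb hy).trans (le_max_right _ _)⟩⟩

theorem End_small (h : MS Y R Ri r C) {ρ a b ε : ℝ} (hf : FA Y R ρ a b) (hε : 0 < ε) :
    ∃ J : ℕ, ∀ j, J ≤ j → |R^[j] b - R^[j] a| < ε := by
  obtain ⟨lo, hi, hl, hY⟩ := End_box h
  have hs : Summable fun j : ℕ => |R^[j] b - R^[j] a| :=
    summable_of_sum_le (fun _ => abs_nonneg _) fun s =>
      h.gap_sum hf s hl fun j _ => ⟨hY (hf j).1.1, hY (hf j).1.2.1⟩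
  exact eventually_atTop.1 (hs.tendsto_atTop_zero.eventually (gt_mem_nhds hε))

theorem End_mem {D : CrD} (hD : Crown Y R Ri r D) {i : ℕ} (hi : i < D.k) :
    D.X i ∈ Y ∧ D.Z i ∈ Y ∧ D.Z' i ∈ Y ∧ D.X' (i + 1) ∈ Y ∧ D.X' i ∈ Y := by
  refine ⟨(hD.fa i hi 0).1.1, (hD.fa i hi 0).1.2.1, (hD.ba i hi 0).1.1, (hD.ba i hi 0).1.2.1, ?_⟩
  rcases i with _ | i
  · obtain ⟨m, hm⟩ : ∃ m, D.k = m + 1 := ⟨D.k - 1, by omega⟩
    rw [← hD.per, hm]
    exact (hD.ba m (by omega) 0).1.2.1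
  · exact (hD.ba i (by omega) 0).1.2.1

theorem End_pq (h : MS Y R Ri r C) {D : CrD} (hD : Crown Y R Ri r D) {a b : ℕ}
    (h1 : R^[a] (D.Z 0) < R^[a] (D.X 0)) (h2 : R^[b] (D.X 0) < R^[b] (D.Z 0)) :
    R^[a] (D.X 0) < R^[b] (D.X 0) ∨ R^[b] (D.Z 0) < R^[a] (D.Z 0) := by
  obtain ⟨m1, m2, -⟩ := End_mem hD hD.k_pos
  have ab : a ≠ b := fun e => h1.not_gt (e ▸ h2)
  rcases lt_trichotomy (R^[a] (D.X 0)) (R^[b] (D.X 0)) with c | c | c
  · exact Or.inl c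
  · exact (ab (h.orb_inj m1 c)).elim
  have c1 : R^[b] (D.Z 0) ≤ R^[a] (D.X 0) := not_lt.1 fun k =>
    (hD.fa 0 hD.k_pos b).1.2.2.2 _ (h.it a m1) (by rw [uIoo_of_lt h2]; exact ⟨c, k⟩)
  have c2 := c1.lt_of_ne fun k => hD.dXZ 0 hD.k_pos 0 hD.k_pos ⟨a, b, k.symm⟩
  have c3 : R^[b] (D.Z 0) ≤ R^[a] (D.Z 0) := not_lt.1 fun k =>
    (hD.fa 0 hD.k_pos a).1.2.2.2 _ (h.it b m2) (by rw [uIoo_of_gt h1]; exact ⟨k, c2⟩)
  exact Or.inr (c3.lt_of_ne fun k => ab (h.orb_inj m2 k).symm)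

theorem MS.exists_pq (h : MS Y R Ri r C) (hd : Dns Y R) (hf : Flip Y R) {D : CrD}
    (hD : Crown Y R Ri r D) {δ : ℝ} (hδ : 0 < δ) :
    ∃ (p q : ℝ) (a b : ℕ), PQ R D p q a b ∧ q - p ≤ δ := by
  obtain ⟨m1, m2, -⟩ := End_mem hD hD.k_pos
  have fa := hD.fa 0 hD.k_pos
  let Md : Set ℝ := ⋃ i ∈ Iio D.k,
    (fun j => R^[j] (D.Z' i)) '' Iio (D.α i) ∪ (fun j => R^[j] (D.X' i)) '' Iio (D.β i)
  have fM : Md.Finite := (finite_Iio _).biUnion fun i _ =>
    ((finite_Iio _).image _).union ((finite_Iio _).image _)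
  have iY : Y.Infinite := infinite_of_injective_forall_mem (f := fun j : ℕ => R^[j] (D.X 0))
    (fun _ _ e => h.orb_inj m1 e) fun j => h.it j m1
  obtain ⟨y, hy, hy'⟩ := iY.exists_notMem_finite fM
  obtain ⟨ε, hε, hb⟩ := Metric.isOpen_iff.1 fM.isClosed.isOpen_compl y hy'
  obtain ⟨d, d0, d1, d2⟩ : ∃ d : ℝ, 0 < d ∧ 2 * d ≤ ε ∧ 4 * d ≤ δ :=
    ⟨min (ε / 2) (δ / 4), by positivity, by linarith only [min_le_left (ε / 2) (δ / 4)],
      by linarith only [min_le_right (ε / 2) (δ / 4)]⟩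
  obtain ⟨z, hz, n, ρ, ρ0, z1, z2, an⟩ := hf y hy d d0
  obtain ⟨ρ', ρ1, hc⟩ := Metric.continuousOn_iff.1 (h.contOn n) z hz d d0
  obtain ⟨s, s0, s1, s2, s3⟩ : ∃ s : ℝ, 0 < s ∧ 2 * s ≤ ρ ∧ 2 * s ≤ ρ' ∧ 2 * s ≤ d := by
    refine ⟨min ρ (min ρ' d) / 2, by positivity, ?_, ?_, ?_⟩
    · linarith only [min_le_left ρ (min ρ' d)]
    · linarith only [min_le_right ρ (min ρ' d), min_le_left ρ' d]
    · linarith only [min_le_right ρ (min ρ' d), min_le_right ρ' d]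
  obtain ⟨J, hJ⟩ := End_small h fa s0
  obtain ⟨j', hj⟩ := hd z hz s s0 _ (h.it J m1)
  rw [← Function.iterate_add_apply] at hj
  have hj' := hJ (j' + J) (Nat.le_add_left _ _)
  generalize j' + J = j at hj hj'
  rw [abs_lt] at hj hj' z1 z2
  have near : ∀ w ∈ Y, |R^[j] w - z| < 2 * s → R^[j] w ∈ Y ∩ Ioo (z - ρ) (z + ρ) ∧
      |R^[j] w - y| < 2 * d ∧ |R^[n + j] w - y| < 2 * d := fun w hw k => by
    have k1 := hc _ (h.it j hw) (k.trans_le s2)
    rw [Real.dist_eq, ← Function.iterate_add_apply, abs_lt] at k1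
    rw [abs_lt] at k
    exact ⟨⟨h.it j hw, by linarith only [s1, k, k.1], by linarith only [s1, k, k.2]⟩,
      abs_lt.2 ⟨by linarith only [z1, s3, k, k.1], by linarith only [z1, s3, k, k.2]⟩,
      abs_lt.2 ⟨by linarith only [z2, k1, k1.1], by linarith only [z2, k1, k1.2]⟩⟩
  obtain ⟨x1, x2, x3⟩ := near _ m1 (abs_lt.2 ⟨by linarith only [s0, hj, hj.1], by linarith only [s0, hj, hj.2]⟩)
  obtain ⟨y1, y2, y3⟩ := near _ m2
    (abs_lt.2 ⟨by linarith only [hj, hj', hj.1, hj'.1], by linarith only [hj, hj', hj.2, hj'.2]⟩)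
  obtain ⟨a, b, h1, h2, n1, n2, n3, n4⟩ : ∃ a b : ℕ, R^[a] (D.Z 0) < R^[a] (D.X 0) ∧
      R^[b] (D.X 0) < R^[b] (D.Z 0) ∧ |R^[a] (D.X 0) - y| < 2 * d ∧ |R^[a] (D.Z 0) - y| < 2 * d ∧
      |R^[b] (D.X 0) - y| < 2 * d ∧ |R^[b] (D.Z 0) - y| < 2 * d := by
    rcases lt_or_gt_of_ne (fa j).1.2.2.1 with c | c
    · refine ⟨n + j, j, ?_, c, x3, y3, x2, y2⟩
      rw [Function.iterate_add_apply, Function.iterate_add_apply]
      exact an x1 y1 c
    · refine ⟨j, n + j, c, ?_, x2, y2, x3, y3⟩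
      rw [Function.iterate_add_apply, Function.iterate_add_apply]
      exact an y1 x1 c
  have fin : ∀ p q : ℝ, |p - y| < 2 * d → |q - y| < 2 * d → (∀ i < D.k,
      (∀ j < D.α i, R^[j] (D.Z' i) ∉ Icc p q) ∧ ∀ j < D.β i, R^[j] (D.X' i) ∉ Icc p q) ∧
      q - p ≤ δ := fun p q k1 k2 => by
    rw [abs_lt] at k1 k2
    have o : ∀ w ∈ Icc p q, w ∉ Md := fun w hw => hb (by
      rw [Metric.mem_ball, Real.dist_eq, abs_lt]
      exact ⟨by linarith only [d1, k1, hw, hw.1, k1.1], by linarith only [d1, k2, hw, hw.2, k2.2]⟩)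
    exact ⟨fun i hi => ⟨fun j hj k => o _ k (mem_biUnion hi (Or.inl ⟨j, hj, rfl⟩)),
      fun j hj k => o _ k (mem_biUnion hi (Or.inr ⟨j, hj, rfl⟩))⟩, by linarith only [d2, k1, k2, k1.1, k2.2]⟩
  rcases End_pq h hD h1 h2 with c | c
  · exact ⟨_, _, a, b, ⟨c, (fin _ _ n1 n3).1, Or.inl ⟨rfl, rfl, h1, h2⟩⟩, (fin _ _ n1 n3).2⟩
  · exact ⟨_, _, b, a, ⟨c, (fin _ _ n4 n2).1, Or.inr ⟨rfl, rfl, h2, h1⟩⟩, (fin _ _ n4 n2).2⟩

theorem del_lin (D : CrD) (G tt : ℝ → ℝ) (m : ℝ) (M M' : ℕ → ℕ) :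
    Del R Ri D (fun y => G y - m * tt y) M M' = Del R Ri D G M M' - m * Del R Ri D tt M M' := by
  rw [Del, Del, Del, Finset.mul_sum, ← Finset.sum_sub_distrib]
  refine Finset.sum_congr rfl fun i _ => ?_
  simp only [Finset.sum_sub_distrib, ← Finset.mul_sum]
  ring

theorem End_lip (h : MS Y R Ri r C) {a b lo hi Ct t0 T0 : ℝ} (hf : FA Y R r a b) (hC : 0 ≤ Ct)
    (hl : lo ≤ hi) (hY : Y ⊆ Icc lo hi) {tt : ℝ → ℝ} (ht : Tim Y r Ct t0 T0 tt) (s : Finset ℕ) :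
    |∑ j ∈ s, (tt (R^[j] b) - tt (R^[j] a))| ≤ Ct * (hi - lo) := by
  refine (Finset.abs_sum_le_sum_abs _ _).trans ((Finset.sum_le_sum fun j _ =>
    ht.lip _ (hf j).1.1 _ (hf j).1.2.1 (hf j).2).trans ?_)
  rw [← Finset.mul_sum]
  exact mul_le_mul_of_nonneg_left
    (h.gap_sum hf s hl fun j _ => ⟨hY (hf j).1.1, hY (hf j).1.2.1⟩) hC

theorem End_orb (h : MS Y R Ri r C) {a Ct t0 T0 : ℝ} (ha : a ∈ Y) (ht0 : 0 < t0) {tt : ℝ → ℝ}
    (ht : Tim Y r Ct t0 T0 tt) (n : ℕ) : |∑ j ∈ Finset.range n, tt (R^[j] a)| ≤ n * |T0| := by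
  refine (Finset.abs_sum_le_sum_abs _ _).trans ((Finset.sum_le_card_nsmul _ _ |T0| fun j _ => ?_).trans
    (by simp))
  have k := ht.bd _ (h.it j ha)
  rw [abs_of_pos (ht0.trans_le k.1)]
  exact k.2.trans (le_abs_self _)

theorem MS.del_tt (h : MS Y R Ri r C) {D : CrD} (hD : Crown Y R Ri r D) {Ct t0 T0 : ℝ}
    (hC : 0 ≤ Ct) (ht0 : 0 < t0) : ∃ D0 : ℝ, 0 ≤ D0 ∧ ∀ (tt : ℝ → ℝ) (M M' : ℕ → ℕ),
      Tim Y r Ct t0 T0 tt → |Del R Ri D tt M M'| ≤ D0 := by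
  obtain ⟨lo, hi, hl, hY⟩ := End_box h
  have w : 0 ≤ hi - lo := sub_nonneg.2 hl
  refine ⟨∑ i ∈ Finset.range D.k, (Ct * (hi - lo) + (D.α i * |T0| + D.β i * |T0|) + Ct * (hi - lo)),
    by positivity, fun tt M M' ht => (Finset.abs_sum_le_sum_abs _ _).trans
      (Finset.sum_le_sum fun i hi' => ?_)⟩
  have k := Finset.mem_range.1 hi'
  obtain ⟨-, -, m1, -, m2⟩ := End_mem hD k
  refine (abs_add_le _ _).trans (add_le_add ((abs_add_le _ _).trans (add_le_add ?_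
    ((abs_sub _ _).trans (add_le_add (End_orb h m1 ht0 ht _) (End_orb h m2 ht0 ht _)))))
    (End_lip h (hD.fa i k) hC hl hY ht _))
  exact End_lip h.symm ((hD.ba i k).symm.shift 1) hC hl hY ht _

theorem End_gap (h : MS Y R Ri r C) {ρ u v p q Λ G0 : ℝ} (hf : FA Y R ρ u v) (hp : p ∈ Y)
    (hq : q ∈ Y) (hl : p ≤ q) (hΛ : 0 ≤ Λ) {G : ℝ → ℝ} (hG : Plat Y p q Λ G0 G) (s : Finset ℕ)
    (hs : ∀ j ∈ s, (R^[j] u ≠ p ∧ R^[j] u ≠ q) ∧ R^[j] v ≠ p ∧ R^[j] v ≠ q) :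
    |∑ j ∈ s, (G (R^[j] v) - G (R^[j] u))| ≤ Λ * G0 * (q - p) := by
  classical
  have mix : ∀ x y : ℝ, Adj Y x y → x ≠ p → x ≠ q → x ∈ Icc p q → y ∈ Icc p q := by
    intro x y hxy k1 k2 k
    have c1 := k.1.lt_of_ne k1.symm
    have c2 := k.2.lt_of_ne k2
    exact ⟨not_lt.1 fun c => hxy.2.2.2 p hp (by rw [uIoo_of_gt (c.trans c1)]; exact ⟨c, c1⟩),
      not_lt.1 fun c => hxy.2.2.2 q hq (by rw [uIoo_of_lt (c2.trans c)]; exact ⟨c2, c⟩)⟩
  rw [← Finset.sum_filter_of_ne (p := fun j => R^[j] u ∈ Icc p q) fun j hj k => by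
    by_contra c
    have c' : R^[j] v ∉ Icc p q := fun d =>
      c (mix _ _ (hf j).1.symm (hs j hj).2.1 (hs j hj).2.2 d)
    exact k (by rw [hG.out _ (hf j).1.1 c, hG.out _ (hf j).1.2.1 c', sub_self])]
  have m : ∀ j ∈ s.filter fun j => R^[j] u ∈ Icc p q, R^[j] u ∈ Icc p q ∧ R^[j] v ∈ Icc p q :=
    fun j hj => by
      obtain ⟨k1, k2⟩ := Finset.mem_filter.1 hj
      exact ⟨k2, mix _ _ (hf j).1 (hs j k1).1.1 (hs j k1).1.2 k2⟩
  refine (Finset.abs_sum_le_sum_abs _ _).trans ((Finset.sum_le_sum fun j hj =>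
    hG.lip _ (hf j).1.1 _ (hf j).1.2.1 (m j hj).1 (m j hj).2).trans ?_)
  rw [← Finset.mul_sum]
  exact mul_le_mul_of_nonneg_left (h.gap_sum hf _ hl m) (mul_nonneg hΛ hG.pos.le)

theorem End_no (h : MS Y R Ri r C) {D : CrD} (hD : Crown Y R Ri r D) {i m n : ℕ} (hi : i < D.k)
    {w : ℝ} (e : R^[n] w = R^[m] (D.X i) ∨ R^[n] w = R^[m] (D.Z i)) (hn : i ≠ 0 ∨ m < n) (c : ℕ) :
    w ≠ R^[c] (D.X 0) ∧ w ≠ R^[c] (D.Z 0) := by
  obtain ⟨m1, m2, -⟩ := End_mem hD hD.k_pos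
  refine ⟨?_, ?_⟩ <;> rintro rfl <;> rw [← Function.iterate_add_apply] at e <;>
    rcases e with e | e
  · by_cases k : i = 0
    · subst k
      have := h.orb_inj m1 e
      omega
    · exact hD.dX i hi k ⟨_, _, e⟩
  · exact hD.dXZ 0 hD.k_pos i hi ⟨_, _, e⟩
  · exact hD.dXZ i hi 0 hD.k_pos ⟨_, _, e.symm⟩
  · by_cases k : i = 0
    · subst k
      have := h.orb_inj m2 e
      omega
    · exact hD.dZ i hi k ⟨_, _, e⟩

theorem MS.del_G (h : MS Y R Ri r C) {D : CrD} (hD : Crown Y R Ri r D) {p q Λ G0 : ℝ} {a b : ℕ}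
    (hpq : PQ R D p q a b) (hΛ : 0 ≤ Λ) {G : ℝ → ℝ} (hG : Plat Y p q Λ G0 G) {M M' : ℕ → ℕ}
    (ha : a < M' 0) (hb : b < M' 0) :
    2 * G0 - 2 * D.k * (Λ * G0 * (q - p)) ≤ |Del R Ri D G M M'| := by
  obtain ⟨m1, m2, -⟩ := End_mem hD hD.k_pos
  have lt := hpq.lt
  have pq : p ∈ Y ∧ q ∈ Y := by
    rcases hpq.ends with ⟨rfl, rfl, -⟩ | ⟨rfl, rfl, -⟩
    · exact ⟨h.it a m1, h.it b m1⟩
    · exact ⟨h.it a m2, h.it b m2⟩
  have ab : a ≠ b := by
    rintro rfl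
    rcases hpq.ends with ⟨e1, e2, -⟩ | ⟨e1, e2, -⟩ <;> exact lt.ne (e1.trans e2.symm)
  have no : ∀ {w : ℝ}, (∀ c : ℕ, w ≠ R^[c] (D.X 0) ∧ w ≠ R^[c] (D.Z 0)) → w ≠ p ∧ w ≠ q := by
    intro w hw
    rcases hpq.ends with ⟨rfl, rfl, -⟩ | ⟨rfl, rfl, -⟩
    · exact ⟨(hw a).1, (hw b).1⟩
    · exact ⟨(hw a).2, (hw b).2⟩
  let t : ℕ → ℝ := fun j => G (R^[j] (D.Z 0)) - G (R^[j] (D.X 0))
  have big : 2 * G0 ≤ |t a + t b| := by
    have g1 := (hG.bd p pq.1 (left_mem_Icc.2 lt.le)).1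
    have g2 := (hG.bd q pq.2 (right_mem_Icc.2 lt.le)).1
    rcases hpq.ends with ⟨e1, e2, e3, e4⟩ | ⟨e1, e2, e3, e4⟩
    · simp only [t, ← e1, ← e2, hG.out _ (h.it a m2) fun k => e3.not_ge k.1,
        hG.out _ (h.it b m2) fun k => e4.not_ge k.2]
      exact le_abs.2 (Or.inr (by linarith only [g1, g2]))
    · simp only [t, ← e1, ← e2, hG.out _ (h.it a m1) fun k => e3.not_ge k.1,
        hG.out _ (h.it b m1) fun k => e4.not_ge k.2]
      exact le_abs.2 (Or.inl (by linarith only [g1, g2]))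
  have e0 : t a + t b = ∑ i ∈ Finset.range D.k, if i = 0 then t a + t b else 0 := by
    rw [Finset.sum_ite_eq', if_pos (Finset.mem_range.2 hD.k_pos)]
  have key : |Del R Ri D G M M' - (t a + t b)| ≤ 2 * D.k * (Λ * G0 * (q - p)) := by
    rw [e0, Del, ← Finset.sum_sub_distrib]
    refine (Finset.abs_sum_le_sum_abs _ _).trans ((Finset.sum_le_card_nsmul _ _
      (Λ * G0 * (q - p) + Λ * G0 * (q - p)) fun i hi => ?_).trans
        (by rw [Finset.card_range, nsmul_eq_mul]; linarith only []))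
    have k := Finset.mem_range.1 hi
    obtain ⟨-, -, n1, n2, n3⟩ := End_mem hD k
    rw [Finset.sum_eq_zero fun j hj =>
        hG.out _ (h.it j n1) ((hpq.mid i k).1 j (Finset.mem_range.1 hj)),
      Finset.sum_eq_zero fun j hj =>
        hG.out _ (h.it j n3) ((hpq.mid i k).2 j (Finset.mem_range.1 hj)), sub_self, add_zero,
      add_sub_assoc]
    refine (abs_add_le _ _).trans (add_le_add ?_ ?_)
    · refine End_gap h.symm ((hD.ba i k).symm.shift 1) pq.1 pq.2 lt.le hΛ hG _ fun j _ => ⟨?_, ?_⟩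
      · obtain ⟨i', k1, k2⟩ : ∃ i' < D.k, D.X' (i + 1) = D.X' i' := by
          rcases Nat.lt_or_ge (i + 1) D.k with c | c
          · exact ⟨_, c, rfl⟩
          · exact ⟨0, hD.k_pos, (show D.k = i + 1 by omega) ▸ hD.per⟩
        refine no (End_no h hD k1 (m := 0) (n := D.β i' + (j + 1)) (Or.inl ?_) (Or.inr (by omega)))
        rw [← Function.iterate_add_apply Ri, Function.iterate_add_apply R, h.it_inv _ n2, k2]
        exact hD.eX i' k1
      · refine no (End_no h hD k (m := 0) (n := D.α i + (j + 1)) (Or.inr ?_) (Or.inr (by omega)))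
        rw [← Function.iterate_add_apply Ri, Function.iterate_add_apply R, h.it_inv _ n1]
        exact hD.eZ i k
    by_cases c : i = 0
    swap
    · rw [if_neg c, sub_zero]
      exact End_gap h (hD.fa i k) pq.1 pq.2 lt.le hΛ hG _ fun j _ =>
        ⟨no (End_no h hD k (n := 0) (Or.inl rfl) (Or.inl c)),
          no (End_no h hD k (n := 0) (Or.inr rfl) (Or.inl c))⟩
    subst c
    have sb : ({a, b} : Finset ℕ) ⊆ Finset.range (M' 0) := by
      simp [Finset.insert_subset_iff, ha, hb]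
    rw [if_pos rfl, ← Finset.sum_pair ab, ← Finset.sum_sdiff_eq_sub sb]
    refine End_gap h (hD.fa 0 k) pq.1 pq.2 lt.le hΛ hG _ fun j hj => ?_
    have j1 : j ≠ a := fun e => (Finset.mem_sdiff.1 hj).2 (by simp [e])
    have j2 : j ≠ b := fun e => (Finset.mem_sdiff.1 hj).2 (by simp [e])
    have xz : ∀ m n : ℕ, R^[m] (D.X 0) ≠ R^[n] (D.Z 0) := fun m n e => hD.dXZ 0 k 0 k ⟨m, n, e⟩
    rcases hpq.ends with ⟨rfl, rfl, -⟩ | ⟨rfl, rfl, -⟩
    · exact ⟨⟨fun e => j1 (h.orb_inj m1 e), fun e => j2 (h.orb_inj m1 e)⟩,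
        (xz _ _).symm, (xz _ _).symm⟩
    · exact ⟨⟨xz _ _, xz _ _⟩, fun e => j1 (h.orb_inj m2 e), fun e => j2 (h.orb_inj m2 e)⟩
  linarith only [big, key, abs_sub_abs_le_abs_sub (t a + t b) (Del R Ri D G M M'),
    abs_sub_comm (t a + t b) (Del R Ri D G M M')]

theorem crown_thm (h : MS Y R Ri r C) (hne : Y.Nonempty) (ht : Thin Y) (hd : Dns Y R)
    (hf : Flip Y R) {Λ Ct t0 T0 : ℝ} (hΛ : 0 ≤ Λ) (hC : 0 ≤ Ct) (ht0 : 0 < t0) :
    ∃ p q ν : ℝ, p ∈ Y ∧ q ∈ Y ∧ p < q ∧ 0 < ν ∧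
      (∀ y ∈ Y, y ∉ Ioo (p - ν) p ∧ y ∉ Ioo q (q + ν)) ∧
      ∀ (G tt : ℝ → ℝ) (G0 m : ℝ), Plat Y p q Λ G0 G → Tim Y r Ct t0 T0 tt →
        ¬ PO Y R (fun y => G y - m * tt y) := by
  obtain ⟨D, hD⟩ := h.exists_crown hne (h.noIso hd)
  obtain ⟨m1, m2, -⟩ := End_mem hD hD.k_pos
  obtain ⟨D0, d0, hD0⟩ := h.del_tt hD (T0 := T0) hC ht0
  obtain ⟨n, hn⟩ := exists_nat_ge (2 * Λ * D0 / t0)
  obtain ⟨δ, δ0, hδ⟩ := h.slope (p0 := n + 1) (Nat.le_add_left _ _)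
  have kp : 0 < 4 * (D.k : ℝ) * Λ + 1 := by positivity
  obtain ⟨p, q, a, b, hpq, hl⟩ := h.exists_pq hd hf hD (lt_min δ0 (one_div_pos.2 kp))
  have gp : ∀ {u v u' v' : ℝ}, Adj Y u v → Adj Y u' v' → v < u → u' < v' → ∃ ν : ℝ, u ∈ Y ∧
      u' ∈ Y ∧ 0 < ν ∧ ∀ y ∈ Y, y ∉ Ioo (u - ν) u ∧ y ∉ Ioo u' (u' + ν) := by
    intro u v u' v' k k' c c'
    refine ⟨min (u - v) (v' - u'), k.1, k'.1, lt_min (sub_pos.2 c) (sub_pos.2 c'), fun y hy =>
      ⟨fun e => k.2.2.2 y hy ?_, fun e => k'.2.2.2 y hy ?_⟩⟩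
    · rw [uIoo_of_gt c]
      exact ⟨by linarith only [e, e.1, min_le_left (u - v) (v' - u')], e.2⟩
    · rw [uIoo_of_lt c']
      exact ⟨e.1, by linarith only [e, e.2, min_le_right (u - v) (v' - u')]⟩
  obtain ⟨ν, hp, hq, ν0, hν⟩ : ∃ ν : ℝ, p ∈ Y ∧ q ∈ Y ∧ 0 < ν ∧
      ∀ y ∈ Y, y ∉ Ioo (p - ν) p ∧ y ∉ Ioo q (q + ν) := by
    rcases hpq.ends with ⟨rfl, rfl, e3, e4⟩ | ⟨rfl, rfl, e3, e4⟩
    · exact gp (hD.fa 0 hD.k_pos a).1 (hD.fa 0 hD.k_pos b).1 e3 e4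
    · exact gp (hD.fa 0 hD.k_pos a).1.symm (hD.fa 0 hD.k_pos b).1.symm e3 e4
  refine ⟨p, q, ν, hp, hq, hpq.lt, ν0, hν, fun G tt G0 m hG hT hP => ?_⟩
  have g0 := hG.pos
  obtain ⟨M, M', k1, k2⟩ := h.del_small ht hd hD hP (half_pos g0) (max a b + 1)
  have k3 := h.del_G hD hpq hΛ hG (M := M) (M' := M') (by omega) (by omega)
  have k4 := hD0 tt M M' hT
  have k5 := hδ p q Λ G0 Ct t0 T0 m G tt hp hpq.lt.le (hl.trans (min_le_left _ _)) ht0 hG hT hP
  have k6 := (le_div_iff₀ kp).1 (hl.trans (min_le_right _ _))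
  rw [del_lin] at k2
  have k7 : |m * Del R Ri D tt M M'| ≤ G0 / 2 := by
    have n0 : (0 : ℝ) < n + 1 := by positivity
    rw [Nat.cast_succ, le_div_iff₀ n0] at k5
    rw [div_le_iff₀ ht0] at hn
    rw [abs_mul]
    refine (mul_le_mul_of_nonneg_left k4 (abs_nonneg m)).trans
      (le_of_mul_le_mul_right ?_ (mul_pos ht0 n0))
    linarith only [k5, d0, hn, g0, ht0, mul_le_mul_of_nonneg_right k5 d0, mul_le_mul_of_nonneg_right hn g0.le,
      mul_pos g0 ht0]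
  have k8 : 2 * D.k * (Λ * G0 * (q - p)) ≤ G0 / 2 := by
    linarith only [k6, g0, hpq, mul_le_mul_of_nonneg_right k6 g0.le, mul_pos g0 (sub_pos.2 hpq.lt)]
  linarith only [g0, k2, k3, k7, k8, abs_sub_abs_le_abs_sub (Del R Ri D G M M') (m * Del R Ri D tt M M')]

end Pool.Agent.Work.MP_1ce82a_an
end

-- merged part: Pool.Agent.Work.MP_1ce82a_an.P.HX
section
/-! Exclusion of homoclinic calibrated curves.
PLAN. Z = {y : g y lies in x [0,P] for some g} is closed (isClosed_orbit) and contains all x t. bx_off: exists_bx in a ball missing Z; per vanishes on x t since Z is invariant (exists_of_per_ne_zero). away_pot: the part of the ball of radius R0 outside Nb is compact and misses Z;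
finite subcover by the sets where f0 is positive, minimum on the compact set, le_per, invariance. long_stay: g = the finite sum for delta/2 has QG with slope 0 (QG.sum, slope_of_zero, CalR.act_eq), so qg_sqrt bounds its integral over [a,a+T] by C sqrt T. If z t is outside
Nb delta then z is outside Nb (delta/2) for a uniform time t1 around t (translate, nearcal_stay and nearcal_lip near x [0,P]). If every interval of length k sqrt T contained such a t there would be about sqrt T/(3k) disjoint intervals each contributing kappa t1.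
hx: by contradiction let z 0 be outside Z, B from bx_off, c0 = the integral of per f0 along z over [-1,1], positive; stays in [1,T+1] and [-T-1,-1]; ExpC gives t+, t-; close up along x from s+ to s- + kP with length in [1,1+P] (k in a finite range) by aff and jump;
qg_two with s = min s0 (c0/(2C(2T+P+4))); the potential is nonnegative on the closing arc; contradiction as T grows since T exp(-2 kappa k sqrt T) tends to 0. Finally CalR.uniq. -/

open Set Filter Topology MeasureTheory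
open scoped ContDiff

namespace Pool.Agent.Work.MP_1ce82a_an

variable {Γ : Grp}

theorem bx_off (hS : Surf Γ) {x : ℝ → E} (hx : Continuous x) {P : ℝ} {σ : Γ} (hP : Perd x P σ)
    {y : E} (hy : ¬ ∃ (ρ : Γ) (s : ℝ), y = ρ • x s) :
    ∃ B : Bx, 0 < B.f0 y ∧ ∀ t, per Γ B.f0 (x t) = 0 := by
  have hZ := hS.isClosed_orbit ((isCompact_Icc (a := (0 : ℝ)) (b := P)).image hx)
  have hy' : y ∈ {w : E | ∃ γ : Γ, γ • w ∈ x '' Icc 0 P}ᶜ := by
    rintro ⟨γ, s, -, h⟩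
    exact hy ⟨γ⁻¹, s, by rw [h, inv_smul_smul]⟩
  obtain ⟨r, hr, hb⟩ := Metric.isOpen_iff.1 hZ.isOpen_compl y hy'
  obtain ⟨B, h1, h2⟩ := exists_bx y hr
  refine ⟨B, h1, fun t => by_contra fun h => ?_⟩
  obtain ⟨γ, hγ⟩ := exists_of_per_ne_zero h
  obtain ⟨k, s, hs, -, e⟩ := hP.reduce t
  refine hb (mem_ball_iff_norm.2 (h2 _ hγ)) ⟨(γ * σ ^ k)⁻¹, s, Ico_subset_Icc_self hs, ?_⟩
  rw [e, ← mul_smul γ, inv_smul_smul]

theorem away_pot (hS : Surf Γ) {x : ℝ → E} (hx : Continuous x) {P : ℝ} {σ : Γ} (hP : Perd x P σ)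
    {δ : ℝ} (hδ : 0 < δ) : ∃ (S : Finset Bx) (κ : ℝ), 0 < κ ∧
      (∀ B ∈ S, ∀ t, per Γ B.f0 (x t) = 0) ∧
      ∀ y, y ∉ Nb Γ x P δ → κ ≤ ∑ B ∈ S, per Γ B.f0 y := by
  classical
  obtain ⟨R0, -, hR0⟩ := hS.exists_R0
  have hK : IsCompact (Metric.closedBall (0 : E) R0 ∩ (Nb Γ x P δ)ᶜ) :=
    (isCompact_closedBall 0 R0).inter_right (isOpen_nb hS x P δ).isClosed_compl
  have h1 : ∀ y ∈ Metric.closedBall (0 : E) R0 ∩ (Nb Γ x P δ)ᶜ,
      ∃ B : Bx, 0 < B.f0 y ∧ ∀ t, per Γ B.f0 (x t) = 0 := fun y hy =>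
    bx_off hS hx hP fun ⟨ρ, s, e⟩ => hy.2 (e ▸ mem_nb_self hP hδ ρ s)
  choose! B hB using h1
  obtain ⟨t, ht, hc⟩ := hK.elim_nhds_subcover (fun y => {w | 0 < (B y).f0 w}) fun y hy =>
    (isOpen_lt continuous_const (B y).f0_contDiff.continuous).mem_nhds (hB y hy).1
  obtain ⟨κ, hκ, h⟩ := hK.exists_forall_le' (f := fun y => ∑ b ∈ t.image B, per Γ b.f0 y) (a := 0)
    (continuous_finsetSum _ fun b _ =>
      (per_contDiff hS b.f0_contDiff b.f0_cpt).continuous).continuousOn fun y hy => by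
      obtain ⟨w, hw, h⟩ := mem_iUnion₂.1 (hc hy)
      have h2 := le_per hS (B w).f0_cpt (B w).f0_nonneg 1 y
      rw [one_smul] at h2
      exact (lt_of_lt_of_le h h2).trans_le (Finset.single_le_sum (f := fun b : Bx => per Γ b.f0 y)
        (fun b _ => per_nonneg b.f0_nonneg y) (Finset.mem_image_of_mem B hw))
  refine ⟨t.image B, κ, hκ, fun b hb => ?_, fun y hy => ?_⟩
  · obtain ⟨w, hw, rfl⟩ := Finset.mem_image.1 hb
    exact (hB w (ht w hw)).2
  · obtain ⟨γ, hγ⟩ := hR0 y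
    have h2 := h (γ • y) ⟨mem_closedBall_zero_iff.2 hγ, fun h => hy ((nb_smul γ).1 h)⟩
    simpa only [per_inv _ γ y] using h2

theorem HX_count {f : ℝ → ℝ} (hf : Continuous f) (h0 : ∀ t, 0 ≤ f t) {a T l η : ℝ} (hl : 0 < l)
    (hT : 0 ≤ T) (hη : 0 ≤ η) (h : ∀ b, a ≤ b → b + l ≤ a + T → η ≤ ∫ t in b..(b + l), f t) :
    η * (T / l - 1) ≤ ∫ t in a..(a + T), f t := by
  have key : ∀ n : ℕ, n * l ≤ T → η * n ≤ ∫ t in a..(a + n * l), f t := by
    intro n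
    induction n with
    | zero => simp
    | succ n ih =>
      intro hn
      push_cast at hn ⊢
      have h1 := ih (by linarith only [hl, hn])
      have h2 := h (a + n * l) (by linarith only [hl, mul_nonneg (Nat.cast_nonneg (α := ℝ) n) hl.le])
        (by linarith)
      have h3 := intervalIntegral.integral_add_adjacent_intervals
        (hf.intervalIntegrable (μ := volume) a (a + n * l))
        (hf.intervalIntegrable (μ := volume) (a + n * l) (a + n * l + l))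
      rw [show a + (n + 1) * l = a + n * l + l by ring]
      linarith only [h1, h2, h3]
  have h1 : (⌊T / l⌋₊ : ℝ) ≤ T / l := Nat.floor_le (by positivity)
  have h2 : T / l < ⌊T / l⌋₊ + 1 := Nat.lt_floor_add_one _
  have h3 := (le_div_iff₀ hl).1 h1
  have h5 : (∫ t in a..(a + ⌊T / l⌋₊ * l), f t) ≤ ∫ t in a..(a + T), f t :=
    intervalIntegral.integral_mono_interval le_rfl
      (by linarith only [hl, mul_nonneg (Nat.cast_nonneg (α := ℝ) ⌊T / l⌋₊) hl.le]) (by linarith only [h3])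
      (.of_forall h0) (hf.intervalIntegrable _ _)
  exact (mul_le_mul_of_nonneg_left (by linarith only [h2]) hη).trans ((key _ h3).trans h5)

theorem HX_time (hS : Surf Γ) {F : E × E → ℝ} (hF : Tonelli Γ F) (c : H1 Γ) {x : ℝ → E}
    (hx : Continuous x) (P : ℝ) {δ : ℝ} (hδ : 0 < δ) : ∃ t1 : ℝ, 0 < t1 ∧ ∀ u, InS F c u →
      ∀ z, CalR F u z → ∀ t r : ℝ, |t - r| ≤ t1 → z r ∈ Nb Γ x P (δ / 2) → z t ∈ Nb Γ x P δ := by
  obtain ⟨R, hR⟩ := (isCompact_Icc (a := (0 : ℝ)) (b := P)).exists_bound_of_continuousOn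
    hx.continuousOn
  obtain ⟨m, hm⟩ := hF.ton0 (R + δ + 2)
  obtain ⟨τ0, K, C, h1, -, hK, -, h⟩ := quad_est m 1 one_pos
  refine ⟨min τ0 (δ / (2 * (K + 1))), by positivity, ?_⟩
  rintro u hu z hz t r ht ⟨ρ, s, hs, hn⟩
  have hw := hz.smul hS hF.invL hu.1 ρ
  have h2 : ‖ρ • z r‖ ≤ R + δ := by linarith only [hδ, hn, hR, hs, norm_sub_norm_le (ρ • z r) (x s), hR s hs]
  have h3 := abs_le.1 (ht.trans (min_le_left _ _))
  have h4 := ((h (R + δ) F u _ r hm hu.2 (hw _ _ (by linarith only [])) h2).1 r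
    ⟨by linarith only [h1], by linarith only [h1]⟩).2 t ⟨by linarith only [h3], by linarith only [h3]⟩
  have h5 := (le_div_iff₀ (by positivity)).1 (ht.trans (min_le_right _ _))
  refine ⟨ρ, s, hs, ?_⟩
  have h6 := norm_sub_le_norm_sub_add_norm_sub (ρ • z t) (ρ • z r) (x s)
  linarith only [hn, h4, h5, h6, abs_nonneg (t - r)]

theorem HX_slope {F : E × E → ℝ} {c : H1 Γ} {u : E → ℝ} (hu : InS F c u) {x : ℝ → E}
    (hx : CalR F u x) {P : ℝ} {σ : Γ} (hP : Perd x P σ) {g : E → ℝ} {m : ℝ} (h : QG F c 0 g m)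
    (h0 : ∀ t, g (x t) = 0) : m = 0 := by
  have h1 := h.slope_of_zero (hx.act_eq hu hP).1 (hx.act_eq hu hP).2
  simp only [pot, h0, intervalIntegral.integral_zero] at h1
  exact (mul_eq_zero.1 h1.symm).resolve_right hP.1.ne'

theorem HX_cont (hS : Surf Γ) (B : Bx) : Continuous (per Γ B.f0) :=
  (per_contDiff hS B.f0_contDiff B.f0_cpt).continuous

theorem long_stay (hS : Surf Γ) {F : E × E → ℝ} (hF : Tonelli Γ F) {c : H1 Γ} (hc : Crit F c)
    (hq : ∀ B : Bx, ∃ m, QG F c 0 (per Γ B.f0) m) {x : ℝ → E} (hx : AllCal F c x) {P : ℝ} {σ : Γ}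
    (hP : Perd x P σ) {δ : ℝ} (hδ : 0 < δ) : ∃ k T1 : ℝ, 0 < k ∧ ∀ u, InS F c u →
      ∀ z, CalR F u z → ∀ a T : ℝ, T1 ≤ T → ∃ a' : ℝ, a ≤ a' ∧ a' + k * Real.sqrt T ≤ a + T ∧
        ∀ t ∈ Icc a' (a' + k * Real.sqrt T), z t ∈ Nb Γ x P δ := by
  obtain ⟨u0, hu0⟩ := exists_inS hS hF hc
  have hxc := ((hx u0 hu0).isOrbit hF.ton0 hu0.2).1.continuous
  obtain ⟨S, κ, hκ, h0, hk⟩ := away_pot hS hxc hP (half_pos hδ)
  choose m hm using hq
  have hg : Continuous fun y => ∑ B ∈ S, per Γ B.f0 y :=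
    continuous_finsetSum _ fun B _ => HX_cont hS B
  have hg0 : ∀ y, 0 ≤ ∑ B ∈ S, per Γ B.f0 y := fun y =>
    Finset.sum_nonneg fun B _ => per_nonneg B.f0_nonneg y
  have hQ := QG.sum hc S (fun B _ => HX_cont hS B) fun B _ => hm B
  have hM := HX_slope hu0 (hx u0 hu0) hP hQ fun t => Finset.sum_eq_zero fun B hB => h0 B hB t
  obtain ⟨C, hC, hs⟩ := qg_sqrt hS hF hg (fun γ y => by simp only [per_inv _ γ y]) hQ
  obtain ⟨t1, ht1, ht⟩ := HX_time hS hF c hxc P hδ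
  have hk0 : 0 < κ * t1 / (C + 1) := by positivity
  have hk1 : κ * t1 / (C + 1) * (C + 1) = κ * t1 := div_mul_cancel₀ _ (by positivity)
  generalize κ * t1 / (C + 1) = k at hk0 hk1
  refine ⟨k, (1 + 2 * t1 / k + 2 * κ * t1) ^ 2, hk0, fun u hu z hz a T hT => by_contra fun hn => ?_⟩
  have hzc := (hz.isOrbit hF.ton0 hu.2).1.continuous
  have p1 : 0 < 2 * t1 / k := by positivity
  have p2 : 0 < 2 * κ * t1 := by positivity
  have h1 := Real.le_sqrt_of_sq_le hT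
  have hT0 : 1 ≤ T := le_trans (one_le_pow₀ (by linarith only [p1, p2])) hT
  have h2 := Real.mul_self_sqrt (show 0 ≤ T by linarith only [hT0])
  have h3 := le_of_abs_le (hs u hu z a T hT0 (hz _ _ (by linarith only [hT0])))
  generalize Real.sqrt T = r at *
  have h4 : 2 * t1 ≤ r * k := (div_le_iff₀ hk0).1 (by linarith only [p2, h1])
  have hr : 0 < r := by linarith only [p1, p2, h1]
  have h5 := HX_count (hg.comp hzc) (fun t => hg0 _) (a := a) (T := T) (l := 2 * (k * r))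
    (η := 2 * κ * t1) (by positivity) (by linarith only [hT0]) p2.le fun b hb hb' => by
      push Not at hn
      obtain ⟨t, ⟨k1, k2⟩, k3⟩ := hn (b + t1) (by linarith only [ht1, hb]) (by linarith only [ht1, h4, hb'])
      have k4 := intervalIntegral.integral_mono_on (μ := volume) (f := fun _ => κ)
        (show t - t1 ≤ t + t1 by linarith only [ht1]) (by simp) ((hg.comp hzc).intervalIntegrable _ _)
        fun s hs => hk _ fun h => k3 (ht u hu z hz t s (abs_le.2 ⟨by linarith only [hs, hs.2],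
          by linarith only [hs, hs.1]⟩) h)
      rw [intervalIntegral.integral_const, smul_eq_mul] at k4
      exact le_trans (by linarith only []) (k4.trans (intervalIntegral.integral_mono_interval
        (by linarith only [k1]) (by linarith only [ht1]) (by linarith only [h4, k2]) (.of_forall fun s => hg0 _)
        ((hg.comp hzc).intervalIntegrable _ _)))
  have h6 : 2 * κ * t1 * (T / (2 * (k * r)) - 1) = (C + 1) * r - 2 * κ * t1 := by
    rw [← h2, mul_assoc 2, ← hk1]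
    field_simp
  rw [hM, zero_mul, sub_zero, pot] at h3
  rw [h6] at h5
  simp only [Function.comp] at h5
  linarith only [p1, h1, h3, h5]

theorem HX_fin {c0 s0 C D A : ℝ} (hc0 : 0 < c0) (hs0 : 0 < s0) {e : ℝ → ℝ}
    (he : Tendsto (fun r => r ^ 3 * e r ^ 2) atTop (𝓝 0))
    (h : ∀ᶠ r in atTop, ∀ s, 0 ≤ s → s ≤ s0 →
      s * c0 ≤ D * e r ^ 2 + C * s ^ 2 * (2 * r ^ 2 + A)) : False := by
  have hi : Tendsto (fun r : ℝ => r⁻¹) atTop (𝓝 0) := tendsto_inv_atTop_zero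
  have h3 : Tendsto (fun r : ℝ => r⁻¹ ^ 3) atTop (𝓝 0) := by simpa using hi.pow 3
  have h4 : Tendsto (fun r : ℝ => D * (r ^ 3 * e r ^ 2) + C * (2 * r⁻¹ + A * r⁻¹ ^ 3)) atTop
      (𝓝 0) := by
    simpa using (he.const_mul D).add (((hi.const_mul 2).add (h3.const_mul A)).const_mul C)
  obtain ⟨r, h5, h6, h7, h8⟩ := (h.and ((h4.eventually (gt_mem_nhds hc0)).and
    ((h3.eventually (ge_mem_nhds hs0)).and (eventually_gt_atTop 0)))).exists
  have h9 := mul_le_mul_of_nonneg_left (h5 _ (by positivity) h7) (pow_pos h8 3).le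
  have e1 : r * r⁻¹ = 1 := mul_inv_cancel₀ h8.ne'
  have e2 : r ^ 3 * (r⁻¹ ^ 3 * c0) = (r * r⁻¹) ^ 3 * c0 := by ring
  have e3 : r ^ 3 * (D * e r ^ 2 + C * (r⁻¹ ^ 3) ^ 2 * (2 * r ^ 2 + A)) = D * (r ^ 3 * e r ^ 2) +
      C * (2 * r⁻¹ * (r * r⁻¹) ^ 5 + A * r⁻¹ ^ 3 * (r * r⁻¹) ^ 3) := by
    generalize r⁻¹ = i
    ring
  rw [e2, e3, e1] at h9
  simp only [one_pow, mul_one, one_mul] at h9
  exact absurd h9 (not_le.2 h6)

theorem HX_exp {b : ℝ} (hb : 0 < b) (C : ℝ) :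
    Tendsto (fun r => C * Real.exp (-(b * r))) atTop (𝓝 0) ∧
      Tendsto (fun r => r ^ 3 * (C * Real.exp (-(b * r))) ^ 2) atTop (𝓝 0) := by
  have h0 : Tendsto (fun r : ℝ => b * r) atTop atTop := tendsto_id.const_mul_atTop hb
  have h1 : Tendsto (fun r => C * Real.exp (-(b * r))) atTop (𝓝 0) := by
    simpa using (Real.tendsto_exp_neg_atTop_nhds_zero.comp h0).const_mul C
  refine ⟨h1, ?_⟩
  have h2 := (((Real.tendsto_pow_mul_exp_neg_atTop_nhds_zero 3).comp h0).const_mul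
    (C / b ^ 3)).mul h1
  rw [mul_zero] at h2
  refine h2.congr fun r => ?_
  simp only [Function.comp]
  field_simp

theorem HX_close (hS : Surf Γ) {F : E × E → ℝ} (hF : Tonelli Γ F) {c : H1 Γ} {u : E → ℝ}
    (hu : InS F c u) {x : ℝ → E} (hx : CalR F u x) {P : ℝ} {σ : Γ} (hP : Perd x P σ) :
    ∃ (D A ε0 : ℝ) (γ : Γ), 0 < ε0 ∧ ∀ ε ≤ ε0, ∀ p q : E, ∀ s ∈ Icc 0 P, ∀ s' ∈ Icc 0 P,
      ‖p - x s‖ ≤ ε → ‖q - x s'‖ ≤ ε → ∃ (y : ℝ → E) (b : ℝ), s < b ∧ b - s ≤ A ∧ IsPath y s b ∧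
        y s = p ∧ y b = γ • q ∧ dfc F u y s b ≤ D * ε ^ 2 := by
  obtain ⟨N, hN⟩ := exists_nat_ge ((P + 1) / P)
  rw [div_le_iff₀ hP.1] at hN
  obtain ⟨R, hR⟩ := (isCompact_Icc (a := (0 : ℝ)) (b := P + N * P)).exists_bound_of_continuousOn
    (hx.isOrbit hF.ton0 hu.2).1.continuous.continuousOn
  obtain ⟨m, hm⟩ := hF.ton0 (R + 2)
  obtain ⟨C, hC, hj⟩ := jump m 1 (P + N * P) one_pos
  obtain ⟨L, hL, hl⟩ := hS.lip (σ ^ (N : ℤ)) (R + 1)
  refine ⟨C * (1 + L ^ 2), P + N * P, 1 / (L + 1), σ ^ (N : ℤ), by positivity, ?_⟩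
  intro ε hε p q s hs s' hs' hp hq
  have h0 : 0 ≤ ε := (norm_nonneg _).trans hp
  rw [le_div_iff₀ (by positivity)] at hε
  have h1 : 0 ≤ L * ε := by positivity
  have hsb : s < s' + N * P := by linarith only [hN, hs, hs', hs.2, hs'.1]
  have hx' : ‖x s'‖ ≤ R := hR s' ⟨hs'.1, by linarith only [hN, hs', hP, hs'.2, hP.1]⟩
  have h2 : ‖σ ^ (N : ℤ) • q - σ ^ (N : ℤ) • x s'‖ ≤ L * ε :=
    (hl q (x s') (by linarith only [hε, hq, h1, hx', norm_sub_norm_le q (x s')]) (by linarith only [hx'])).1.trans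
      (mul_le_mul_of_nonneg_left hq hL)
  have h3 := hP.zpow N s'
  rw [Int.cast_natCast] at h3
  refine ⟨aff x s (s' + N * P) (p - x s) (σ ^ (N : ℤ) • q - σ ^ (N : ℤ) • x s'), s' + N * P, hsb,
    by linarith only [hs, hs', hs.1, hs'.2], (hx _ _ hsb.le).1.aff _ _, by rw [aff_left _ hsb, add_sub_cancel],
    by rw [aff_right _ hsb, h3, add_sub_cancel], ?_⟩
  refine (hj R F u hm hu.2 x _ _ (hx _ _ (by linarith only [hsb])) (by linarith only [hN, hs, hs', hs.2, hs'.1])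
    (by linarith only [hs, hs', hs.1, hs'.2]) (fun t ht => hR t ⟨hs.1.trans ht.1, by linarith only [ht, hs', ht.2, hs'.2]⟩)
    _ _ (by linarith only [hε, hp, h1]) (by linarith only [hε, h0, h2])).trans ?_
  rw [mul_assoc]
  refine mul_le_mul_of_nonneg_left ?_ hC
  have h4 := pow_le_pow_left₀ (norm_nonneg _) hp 2
  have h5 := pow_le_pow_left₀ (norm_nonneg _) h2 2
  linarith only [h4, h5]

theorem hx_allIn (hS : Surf Γ) {F : E × E → ℝ} (hF : Tonelli Γ F) {c : H1 Γ} (hc : Crit F c)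
    (hq : ∀ B : Bx, ∃ m, QG F c 0 (per Γ B.f0) m) {x : ℝ → E} (hx : AllCal F c x) {P : ℝ} {σ : Γ}
    (hP : Perd x P σ) (he : ExpC F c x P) : AllIn F c x := by
  intro u hu z hz
  suffices h : ∃ (ρ : Γ) (s : ℝ), z 0 = ρ • x s by
    obtain ⟨ρ, s, e⟩ := h
    refine ⟨ρ, s, fun t => ?_⟩
    have h1 := hz.uniq hF.ton0 hu.2 ((hx u hu).smul hS hF.invL hu.1 ρ) e t
    rwa [zero_add, add_comm] at h1
  by_contra hy
  have hzc := (hz.isOrbit hF.ton0 hu.2).1.continuous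
  obtain ⟨B, hB, h0⟩ := bx_off hS ((hx u hu).isOrbit hF.ton0 hu.2).1.continuous hP hy
  obtain ⟨m, hm⟩ := hq B
  obtain rfl := HX_slope hu (hx u hu) hP hm h0
  have hg := (HX_cont hS B).comp hzc
  have hc0 : 0 < pot (per Γ B.f0) z (-1) 1 :=
    intervalIntegral.integral_pos (by norm_num) hg.continuousOn
      (fun t _ => per_nonneg B.f0_nonneg _) ⟨0, by norm_num, by
        simpa only [one_smul] using
          (show 0 < B.f0 ((1 : Γ) • z 0) by rwa [one_smul]).trans_le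
            (le_per hS B.f0_cpt B.f0_nonneg 1 _)⟩
  obtain ⟨δ, C, κ, hδ, hκ, hE⟩ := he
  obtain ⟨k, T1, hk, hL⟩ := long_stay hS hF hc hq hx hP hδ
  obtain ⟨D, A, ε0, γ, hε0, hcl⟩ := HX_close hS hF hu (hx u hu) hP
  obtain ⟨C2, s0, hC2, hs0, h2⟩ := qg_two hS hF (HX_cont hS B) (per_inv _) hm
  obtain ⟨e1, e2⟩ := HX_exp (mul_pos hκ hk) C
  refine HX_fin (C := C2) (D := D) (A := 2 + A) hc0 hs0 e2 ?_
  filter_upwards [e1.eventually (ge_mem_nhds hε0), eventually_ge_atTop 0,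
    (tendsto_pow_atTop two_ne_zero).eventually_ge_atTop T1] with r r1 r2 r3 s s1 s2
  obtain ⟨a, a1, a2, a3⟩ := hL u hu z hz 1 (r ^ 2) r3
  obtain ⟨b, b1, b2, b3⟩ := hL u hu z hz (-1 - r ^ 2) (r ^ 2) r3
  rw [Real.sqrt_sq r2] at a2 a3 b2 b3
  obtain ⟨t, ⟨t1, t2⟩, ρ, v, hv, hp⟩ := hE u hu z hz a _ (by positivity) a3
  obtain ⟨t', ⟨t3, t4⟩, ρ', v', hv', hp'⟩ := hE u hu z hz b _ (by positivity) b3
  rw [← mul_assoc] at hp hp'
  obtain ⟨y, w, w1, w2, w3, w4, w5, w6⟩ := hcl _ r1 _ _ v hv v' hv' hp hp'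
  have k0 := hz t' t (by linarith only [a1, b2, t1, t4])
  have k1 := h2 u hu.1 z y t' t v w ρ⁻¹ (γ * ρ') k0.1 w3 (by linarith only [a1, b2, t1, t4, w1])
    (by rw [w4, inv_smul_smul]) (by rw [w5, mul_smul]) s (by rwa [abs_of_nonneg s1])
  have k2 : pot (per Γ B.f0) z (-1) 1 ≤ pot (per Γ B.f0) z t' t :=
    intervalIntegral.integral_mono_interval (by linarith only [b2, t4]) (by norm_num) (by linarith only [a1, t1])
      (.of_forall fun _ => per_nonneg B.f0_nonneg _) (hg.intervalIntegrable _ _)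
  have k3 : 0 ≤ pot (per Γ B.f0) y v w :=
    intervalIntegral.integral_nonneg w1.le fun _ _ => per_nonneg B.f0_nonneg _
  have k4 : C2 * s ^ 2 * (t - t' + (w - v)) ≤ C2 * s ^ 2 * (2 * r ^ 2 + (2 + A)) :=
    mul_le_mul_of_nonneg_left (by linarith only [a2, b1, t2, t3, w2]) (by positivity)
  rw [k0.2] at k1
  simp only [ZeroMemClass.coe_zero, Pi.zero_apply, zero_add, zero_mul, sub_zero] at k1
  have k5 := mul_le_mul_of_nonneg_left (le_add_of_le_of_nonneg k2 k3) s1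
  linarith only [w6, k4, k1, k5]

end Pool.Agent.Work.MP_1ce82a_an
end
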